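import Mathlib
import Pool.Agent.KCG.Defs

/-!
# k-column-convex polygons (MP_f6626d_co): statements of the gap analysis for the new structure

The statements of `Lib_helper79/Gap/{Defs,Defs2}.lean` (finite range) over `KCG.GapKernel`. The
staircase kernel `stair` is the old one.
-/

set_option autoImplicit false

open Finset Filter Topology

namespace Pool.Agent.KCG

open Pool.Agent.Gap

/-! ### Coercivity and resolvent -/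

/-- MODULE C2 (each bilinear form is close to total mass times the dot product). -/
def C2_Stmt : Prop := ∀ G : GapKernel, ∃ C : ℝ, 0 < C ∧
  ∀ (N : ℕ) (eps : ℝ) (i : ℕ × ℕ) (f h : ℤ → ℂ), i ∈ G.S → 0 ≤ eps → Supp N f → Supp N h →
    ‖(G.tot i : ℂ) * ∑ g ∈ Icc (1 : ℤ) N, f g * h g
      - ∑ g ∈ Icc (1 : ℤ) N, ∑ g' ∈ Icc (1 : ℤ) N,
          ((G.K i g g' * GapKernel.wt eps i g g' : ℝ) : ℂ) * f g * h g'‖
      ≤ C * (Real.sqrt (En N f + Pot eps N f) * Real.sqrt (En N h + Pot eps N h))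

/-- MODULE C : coercivity. -/
def C_Stmt : Prop := ∀ G : GapKernel, ∃ c : ℝ, 0 < c ∧
  ∀ (N : ℕ) (eps : ℝ) (z : ℂ) (f : ℤ → ℂ), 0 ≤ eps → ‖z‖ ≤ G.rho → Supp N f →
    c * (‖(G.rho : ℂ) - z‖ * nsq N f + En N f + Pot eps N f)
      ≤ ‖form N f (G.Lop eps z N f)‖

/-- MODULE RE : existence and resolvent bound (from C). -/
def RE_Stmt : Prop := ∀ G : GapKernel, ∃ C : ℝ, 0 < C ∧
  ∀ (N : ℕ) (eps : ℝ) (z : ℂ), 0 ≤ eps → ‖z‖ ≤ G.rho →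
    (∀ e : ℤ → ℂ, ∃ v : ℤ → ℂ, G.Solves eps z N v e) ∧
    (∀ v v' e : ℤ → ℂ, G.Solves eps z N v e → G.Solves eps z N v' e → v = v') ∧
    (∀ v e : ℤ → ℂ, G.Solves eps z N v e →
      ‖(G.rho : ℂ) - z‖ * Real.sqrt (nsq N v) ≤ C * Real.sqrt (nsq N e) ∧
      En N v + Pot eps N v ≤ C * (Real.sqrt (nsq N v) * Real.sqrt (nsq N e)))

/-- MODULE SUP : sup bound for sources supported near the wall (maximum principle), from C. -/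
def SUP_Stmt : Prop := ∀ (G : GapKernel) (R' : ℕ), ∃ C : ℝ, 0 < C ∧
  ∀ (N : ℕ) (eps : ℝ) (z : ℂ) (v e : ℤ → ℂ), 0 ≤ eps → ‖z‖ ≤ G.rho →
    G.Solves eps z N v e → (∀ g : ℤ, (R' : ℤ) < g → e g = 0) →
    (∀ g, ‖v g‖ ≤ C * l1 R' e) ∧ En N v + Pot eps N v ≤ C * (l1 R' e) ^ 2

/-- MODULE W : weighted bounds for sources supported near the wall (from C, SUP). -/
def W_Stmt : Prop := ∀ (G : GapKernel) (R' : ℕ), ∃ C : ℝ, 0 < C ∧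
  ∀ (N : ℕ) (eps : ℝ) (z : ℂ) (v e : ℤ → ℂ), 0 ≤ eps → ‖z‖ ≤ G.rho → z ≠ (G.rho : ℂ) →
    G.Solves eps z N v e → (∀ g : ℤ, (R' : ℤ) < g → e g = 0) →
    (∀ k : ℕ, k ≤ 2 → nsq N (mulg k v)
        ≤ C * (l1 R' e) ^ 2 / (Real.sqrt ‖(G.rho : ℂ) - z‖ * ‖(G.rho : ℂ) - z‖ ^ k)) ∧
    (∀ k : ℕ, 1 ≤ k → k ≤ 2 → En N (mulg k v) + Pot eps N (mulg k v)
        ≤ C * (l1 R' e) ^ 2 * Real.sqrt ‖(G.rho : ℂ) - z‖ / ‖(G.rho : ℂ) - z‖ ^ k)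

/-! ### The critical solution -/

/-- MODULE VEX : bounded nonnegative finite energy solution at criticality (from C, RE, SUP). -/
def VEX_Stmt : Prop := ∀ (G : GapKernel) (R' : ℕ) (s : ℤ → ℝ), (∀ g, 0 ≤ s g) →
  (∀ g : ℤ, (g < 1 ∨ (R' : ℤ) < g) → s g = 0) →
  ∃ v : ℤ → ℝ, (∀ g ≤ 0, v g = 0) ∧ (∀ g, 0 ≤ v g) ∧ (∃ C : ℝ, ∀ g, v g ≤ C) ∧
    (∃ C : ℝ, ∀ N : ℕ, ∑ g ∈ Icc (0 : ℤ) N, (v (g + 1) - v g) ^ 2 ≤ C) ∧
    (∀ g : ℤ, 1 ≤ g → v g = s g + ∑ g' ∈ Icc (g - G.R) (g + G.R), G.Kc g g' * v g')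

/-- MODULE VLIM : such a solution tends to a positive constant with a rate (sequence lemma). -/
def VLIM_Stmt : Prop := ∀ (G : GapKernel) (R' : ℕ) (s v : ℤ → ℝ), (∀ g, 0 ≤ s g) →
  (∃ g, 0 < s g) → (∀ g : ℤ, (g < 1 ∨ (R' : ℤ) < g) → s g = 0) →
  (∀ g ≤ 0, v g = 0) → (∀ g, 0 ≤ v g) → (∃ C : ℝ, ∀ g, v g ≤ C) →
  (∃ C : ℝ, ∀ N : ℕ, ∑ g ∈ Icc (0 : ℤ) N, (v (g + 1) - v g) ^ 2 ≤ C) →
  (∀ g : ℤ, 1 ≤ g → v g = s g + ∑ g' ∈ Icc (g - G.R) (g + G.R), G.Kc g g' * v g') →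
  ∃ A : ℝ, 0 < A ∧ ∃ C : ℝ, ∀ N : ℕ, ∑ g ∈ Icc (1 : ℤ) N, (g : ℝ) ^ 2 * (v g - A) ^ 2 ≤ C

/-- MODULE EB : bulk residual of the staircase solution in the model `G` (pure computation). -/
def EB_Stmt : Prop := ∀ G : GapKernel, ∃ C : ℝ, 0 < C ∧
  ∀ (N : ℕ) (eps eps' : ℝ) (z z' : ℂ) (v : ℤ → ℂ), 0 ≤ eps → eps ≤ 1 → 0 ≤ eps' → eps' ≤ 1 →
    ‖z‖ ≤ G.rho → ‖z'‖ ≤ 1 / 4 → ‖(1 / 4 : ℂ) - z'‖ ≤ 1 / 8 →
    stair.Solves eps' z' N v (src1 z') →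
    Real.sqrt (∑ g ∈ Icc ((G.R : ℤ) + 1) N, ‖G.Lop eps z N v g‖ ^ 2)
      ≤ ‖2 * (G.sig2 : ℂ) * (1 - 4 * z') - (G.mbar : ℂ) * (1 - z / (G.rho : ℂ))‖
            * Real.sqrt (nsq N v)
        + 2 * |2 * G.sig2 * eps' - G.hbar * eps| * Real.sqrt (nsq N (mulg 1 v))
        + C * ((‖(G.rho : ℂ) - z‖ + ‖(1 / 4 : ℂ) - z'‖) * Real.sqrt (En N v)
            + (eps + eps') * (Real.sqrt (En N (mulg 1 v)) + Real.sqrt (nsq N v))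
            + (‖(G.rho : ℂ) - z‖ + ‖(1 / 4 : ℂ) - z'‖) ^ 2 * Real.sqrt (nsq N v)
            + (eps + eps') ^ 2 * Real.sqrt (nsq N (mulg 2 v)) + ‖v N‖)

/-- MODULE J1 : arrays, summability and the equations of the generating functions. -/
def J1_Stmt : Prop := ∀ (G : GapKernel) (C0 : ℕ) (s : ℕ → ℤ → ℝ), IsCap C0 s →
  ∀ (N : ℕ) (eps : ℝ), 0 ≤ eps →
  (∃ b, IsArr G s eps N b) ∧
  ∀ b, IsArr G s eps N b → (∀ n g, 0 ≤ b n g) ∧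
    (∃ C : ℝ, ∀ n g, b n g * G.rho ^ n ≤ C) ∧
    (∀ (z : ℂ), ‖z‖ < G.rho → ∀ j g, Summable fun n : ℕ => ‖((n : ℂ)) ^ j * ((b n g : ℝ) : ℂ) * z ^ n‖) ∧
    (∀ (z : ℂ), ‖z‖ < G.rho → ∀ j : ℕ, G.Solves eps z N (gf j b z)
      (fun g => capz C0 s j z g + ∑ l ∈ range j, ((j.choose l : ℕ) : ℂ) *
        G.Kap (j - l) eps z N (gf l b z) g))

/-- MODULE J2 : bounds of the closed generating functions (from C2, RE, SUP, W, J1). -/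
def J2_Stmt : Prop := ∀ (G : GapKernel) (C0 : ℕ) (s t : ℕ → ℤ → ℝ), IsCap C0 s → IsCap C0 t →
  ∃ C : ℝ, 0 < C ∧ ∀ (N : ℕ) (eps : ℝ), 0 ≤ eps → C0 ≤ N →
    ∀ b b', IsArr G s eps N b → IsArr G t eps N b' → ∀ z : ℂ, ‖z‖ < G.rho →
    (∀ j, Summable fun n : ℕ => ‖((n : ℂ)) ^ j * ((close C0 t b n : ℝ) : ℂ) * z ^ n‖) ∧
    ‖sgf 1 (close C0 t b) z - (G.mbar : ℂ) * ∑ g ∈ Icc (1 : ℤ) N, gf 0 b z g * gf 0 b' z g‖ ≤ C ∧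
    ‖sgf 2 (close C0 t b) z‖ * (‖(G.rho : ℂ) - z‖ * Real.sqrt ‖(G.rho : ℂ) - z‖) ≤ C ∧
    ‖sgf 3 (close C0 t b) z‖ * (‖(G.rho : ℂ) - z‖ ^ 2 * Real.sqrt ‖(G.rho : ℂ) - z‖) ≤ C

/-! ### Comparison with the staircase model -/

/-- a pair of scales `n` (model) and `n0` (staircase) which match asymptotically, and a large
truncation `N` -/
structure Scales (G : GapKernel) (n0 N : ℕ → ℕ) : Prop where
  lim : Tendsto (fun n : ℕ => (n0 n : ℝ) / n) atTop (𝓝 (2 * G.sig2 / G.mbar))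
  big : ∀ n : ℕ, 4 * n ^ 2 + 4 * (n0 n) ^ 2 ≤ N n

/-- staircase area parameter corresponding to the parameter `lam` of the model -/
noncomputable def lam0 (G : GapKernel) (lam : ℝ) : ℝ :=
  G.hbar / (2 * G.sig2) * (2 * G.sig2 / G.mbar) ^ (3 / 2 : ℝ) * lam

/-- MODULE E : comparison of the solutions (from RE, W, VEX, VLIM, ST1, EB). -/
def E_Stmt : Prop := ∀ (G : GapKernel) (C0 : ℕ) (s : ℕ → ℤ → ℝ), IsCap C0 s →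
  ∃ A : ℝ, 0 < A ∧ ∀ (n0 N : ℕ → ℕ), Scales G n0 N →
    ∀ (lam : ℝ) (w : ℂ), 0 ≤ lam → 0 < w.re →
    ∀ (v v0 : ℕ → ℤ → ℂ),
      (∀ n, 1 ≤ n → 1 ≤ n0 n →
        G.Solves (epsn lam n) (zn G.rho w n) (N n) (v n) (capz C0 s 0 (zn G.rho w n)) ∧
        stair.Solves (epsn (lam0 G lam) (n0 n)) (zn (1 / 4) w (n0 n)) (N n) (v0 n)
          (src1 (zn (1 / 4) w (n0 n)))) →
      Tendsto (fun n : ℕ => nsq (N n) (fun g => v n g - (A : ℂ) * v0 n g) / Real.sqrt n)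
        atTop (𝓝 0)

/-- MODULE B1 : evaluating the exact solution gives the truncated arrays (for `n` small
compared to `N`). -/
def B1_Stmt : Prop := ∀ (G : GapKernel) (C0 : ℕ) (s : ℕ → ℤ → ℝ), IsCap C0 s →
  ∀ B, IsSol G s B → ∀ (N : ℕ) (eps : ℝ) (b : ℕ → ℤ → ℝ), 0 ≤ eps → IsArr G s eps N b →
    ∀ n : ℕ, C0 + (G.R + 1) * (n + 1) ≤ N → ∀ g : ℤ, b n g = (B n g).eval (Real.exp (-eps))

/-- MODULE M2 : second moment bound.  `(X d/dX)^2` at `X = 1` is the second moment of the area. -/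
def M2_Stmt : Prop := ∀ (G : GapKernel) (C0 : ℕ) (s t : ℕ → ℤ → ℝ), IsCap C0 s → IsCap C0 t →
  ∀ B, IsSol G s B → ∃ C : ℝ, ∀ n : ℕ,
    G.rho ^ n * ((closeP C0 t B n).derivative.derivative.eval 1
      + (closeP C0 t B n).derivative.eval 1) ≤ C * ((n : ℝ) * Real.sqrt n)


end Pool.Agent.KCG
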