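import Pool.Agent.KCG.Defs

/-!
# Nonnegativity of the coefficients of the exact solutions
-/

set_option autoImplicit false

open Finset Filter Topology

namespace Pool.Agent.KCG

open Pool.Agent.Gap

theorem IsSol.coeff_nonneg {G : GapKernel} {s : ℕ → ℤ → ℝ} {B : ℕ → ℤ → Polynomial ℝ}
    (hs : ∀ m g, 0 ≤ s m g) (h : IsSol G s B) (n : ℕ) :
    ∀ (g : ℤ) (k : ℕ), 0 ≤ (B n g).coeff k := by
  induction n using Nat.strong_induction_on with
  | _ n ih =>
    intro g k
    rcases lt_or_ge g 1 with hg | hg
    · rw [h.zero n g hg]; simp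
    · rw [h.step n g hg, Polynomial.coeff_add, Polynomial.finsetSum_coeff]
      refine add_nonneg ?_ (Finset.sum_nonneg fun i hi => ?_)
      · rw [Polynomial.coeff_C]
        split_ifs
        · exact hs n g
        · exact le_rfl
      · split_ifs with hin
        · rw [Polynomial.finsetSum_coeff]
          refine Finset.sum_nonneg fun g' _ => ?_
          rw [mul_assoc, Polynomial.coeff_C_mul, Polynomial.coeff_X_pow_mul']
          refine mul_nonneg (G.K_nonneg _ _ _) ?_
          split_ifs
          · have h1 := (G.pos_mem i hi).1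
            exact ih (n - i.1) (by omega) _ _
          · exact le_rfl
        · simp

theorem closeP_coeff_nonneg {G : GapKernel} {C0 : ℕ} {s t : ℕ → ℤ → ℝ}
    {B : ℕ → ℤ → Polynomial ℝ} (hs : ∀ m g, 0 ≤ s m g) (ht : ∀ m g, 0 ≤ t m g)
    (h : IsSol G s B) (n k : ℕ) : 0 ≤ (closeP C0 t B n).coeff k := by
  unfold closeP
  rw [Polynomial.finsetSum_coeff]
  refine Finset.sum_nonneg fun m _ => ?_
  rw [Polynomial.finsetSum_coeff]
  refine Finset.sum_nonneg fun g _ => ?_
  rw [Polynomial.coeff_C_mul]
  exact mul_nonneg (ht m g) (h.coeff_nonneg hs _ _ _)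

end Pool.Agent.KCG
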