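import Pool.Agent.KCG.Stmts
import Pool.Agent.KCG.Basic
import Pool.Agent.KCG.FA
import Pool.Agent.Lib_helper35.Gap.FINAL

/-!
# Module GFIN: the universal law for sequences of kernels
-/

set_option autoImplicit false

open Finset Filter Topology MeasureTheory BoundedContinuousFunction
open scoped NNReal ENNReal

namespace Pool.Agent.KCG.GFIN

open Pool.Agent.Gap

open Pool.Agent.Gap

/-! ### bounds of the parameters over the class -/

theorem moments_le {C θ : ℝ} (hC : 0 < C) (hθ : 0 < θ) (hθ1 : θ < 1) {G : GapKernel}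
    (hG : Cls C θ G) :
    ∑ i ∈ G.S, (i.1 : ℝ) ^ 2 * (G.rho ^ i.1 * G.tot i) ≤ C * ∑' m : ℕ, (m : ℝ) ^ 2 * θ ^ m := by
  have hs : Summable fun m : ℕ => (m : ℝ) ^ 2 * θ ^ m :=
    summable_pow_mul_geometric_of_norm_lt_one 2
      (by rw [Real.norm_eq_abs, abs_of_pos hθ]; exact hθ1)
  have h1 : ∑ i ∈ G.S, (i.1 : ℝ) ^ 2 * (G.rho ^ i.1 * G.tot i) =
      ∑ m ∈ G.S.image (fun i => i.1), ∑ i ∈ G.S.filter (fun i => i.1 = m),
        (i.1 : ℝ) ^ 2 * (G.rho ^ i.1 * G.tot i) :=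
    (Finset.sum_fiberwise_of_maps_to (fun i hi => Finset.mem_image_of_mem _ hi) _).symm
  rw [h1, ← tsum_mul_left]
  refine le_trans (Finset.sum_le_sum (g := fun m : ℕ => C * ((m : ℝ) ^ 2 * θ ^ m))
    fun m _ => ?_) ?_
  · have h2 : ∑ i ∈ G.S.filter (fun i => i.1 = m), (i.1 : ℝ) ^ 2 * (G.rho ^ i.1 * G.tot i) =
        (m : ℝ) ^ 2 * ∑ i ∈ G.S.filter (fun i => i.1 = m), G.rho ^ m * G.tot i := by
      rw [Finset.mul_sum]
      refine Finset.sum_congr rfl fun i hi => ?_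
      rw [(Finset.mem_filter.1 hi).2]
    rw [h2]
    calc (m : ℝ) ^ 2 * ∑ i ∈ G.S.filter (fun i => i.1 = m), G.rho ^ m * G.tot i
        ≤ (m : ℝ) ^ 2 * (C * θ ^ m) := mul_le_mul_of_nonneg_left (hG.dec m) (by positivity)
      _ = C * ((m : ℝ) ^ 2 * θ ^ m) := by ring
  · exact (hs.mul_left C).sum_le_tsum _ fun m _ => by positivity

/-- the triple of parameters -/
noncomputable def par (G : GapKernel) : ℝ × ℝ × ℝ := (G.mbar, G.hbar, G.sig2)

theorem par_mem {C θ : ℝ} (hC : 0 < C) (hθ : 0 < θ) (hθ1 : θ < 1) : ∃ M : ℝ, ∀ G : GapKernel,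
    Cls C θ G → par G ∈ Set.Icc ((1 : ℝ), (1 : ℝ), C⁻¹ ^ 2) (M, M, M) := by
  refine ⟨4 * (C * ∑' m : ℕ, (m : ℝ) ^ 2 * θ ^ m), fun G hG => ?_⟩
  have hr := G.rho_pos
  have hm := moments_le hC hθ hθ1 hG
  obtain ⟨D, hD⟩ : ∃ D, D = C * ∑' m : ℕ, (m : ℝ) ^ 2 * θ ^ m := ⟨_, rfl⟩
  rw [← hD] at hm ⊢
  have hterm : ∀ i ∈ G.S, 0 ≤ G.rho ^ i.1 * G.tot i := fun i _ =>
    mul_nonneg (pow_nonneg hr.le _) (G.tot_nonneg i)
  have hcr := G.crit'
  have hD0 : 0 ≤ D := le_trans (Finset.sum_nonneg fun i hi => mul_nonneg (by positivity)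
    (hterm i hi)) hm
  have hm1 : G.mbar ≤ D := by
    refine le_trans (Finset.sum_le_sum fun i hi => ?_) hm
    have h1 : (1 : ℝ) ≤ i.1 := by exact_mod_cast (G.pos_mem i hi).1
    rw [mul_assoc]
    refine mul_le_mul_of_nonneg_right ?_ (hterm i hi)
    nlinarith
  have hm2 : 1 ≤ G.mbar := by
    rw [← hcr]
    refine Finset.sum_le_sum fun i hi => ?_
    have h1 : (1 : ℝ) ≤ i.1 := by exact_mod_cast (G.pos_mem i hi).1
    rw [mul_assoc]
    exact le_mul_of_one_le_left (hterm i hi) h1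
  have hh1 : G.hbar ≤ D := by
    refine le_trans (Finset.sum_le_sum fun i hi => ?_) hm
    have h1 : (1 : ℝ) ≤ i.1 := by exact_mod_cast (G.pos_mem i hi).1
    have h2 : (i.2 : ℝ) ≤ i.1 := by exact_mod_cast hG.loc.h_le i hi
    rw [mul_assoc]
    refine mul_le_mul_of_nonneg_right ?_ (hterm i hi)
    nlinarith
  have hh2 : 1 ≤ G.hbar := by
    rw [← hcr]
    refine Finset.sum_le_sum fun i hi => ?_
    have h1 : (1 : ℝ) ≤ i.2 := by exact_mod_cast (G.pos_mem i hi).2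
    rw [mul_assoc]
    exact le_mul_of_one_le_left (hterm i hi) h1
  have hs1 : G.sig2 ≤ 4 * D := by
    have h4 : ∑ i ∈ G.S, 4 * ((i.1 : ℝ) ^ 2 * (G.rho ^ i.1 * G.tot i)) ≤ 4 * D := by
      rw [← Finset.mul_sum]
      linarith
    refine le_trans (Finset.sum_le_sum fun i hi => ?_) h4
    have h1 : ∑ d ∈ Icc (-(G.R : ℤ)) G.R, (d : ℝ) ^ 2 * G.T i d ≤
        4 * (i.1 : ℝ) ^ 2 * G.tot i := by
      unfold GapKernel.tot
      rw [Finset.mul_sum]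
      refine Finset.sum_le_sum fun d _ => ?_
      rcases le_or_gt |d| (2 * (i.1 : ℤ)) with hd | hd
      · refine mul_le_mul_of_nonneg_right ?_ (G.T_nonneg i d)
        have h2 : |(d : ℝ)| ≤ 2 * (i.1 : ℝ) := by exact_mod_cast hd
        calc (d : ℝ) ^ 2 = |(d : ℝ)| ^ 2 := (sq_abs _).symm
          _ ≤ (2 * (i.1 : ℝ)) ^ 2 := pow_le_pow_left₀ (abs_nonneg _) h2 2
          _ = 4 * (i.1 : ℝ) ^ 2 := by ring
      · rw [hG.loc.T_loc i d hd]
        simp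
    calc G.rho ^ i.1 * ∑ d ∈ Icc (-(G.R : ℤ)) G.R, (d : ℝ) ^ 2 * G.T i d
        ≤ G.rho ^ i.1 * (4 * (i.1 : ℝ) ^ 2 * G.tot i) :=
          mul_le_mul_of_nonneg_left h1 (pow_nonneg hr.le _)
      _ = 4 * ((i.1 : ℝ) ^ 2 * (G.rho ^ i.1 * G.tot i)) := by ring
  have hs2 : C⁻¹ ^ 2 ≤ G.sig2 := by
    refine le_trans ?_ G.rho_le_sig2
    exact pow_le_pow_left₀ (inv_pos.2 hC).le hG.rho_ge 2
  unfold par
  rw [Set.mem_Icc, Prod.mk_le_mk, Prod.mk_le_mk, Prod.mk_le_mk, Prod.mk_le_mk]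
  refine ⟨⟨hm2, hh2, hs2⟩, ?_, ?_, hs1⟩ <;> linarith


/-! ### means and Laplace transforms of sequences of models -/

theorem second_moment_seq {P : ℕ → Polynomial ℝ} (hP : ∀ n k, 0 ≤ (P n).coeff k)
    {rho : ℕ → ℝ} {c C2 : ℝ} (hrho : ∀ n, 0 < rho n) (hc : 0 < c) (hC2 : 0 ≤ C2)
    (h1 : ∀ᶠ n : ℕ in atTop, c ≤ ((n : ℝ) * Real.sqrt n) * rho n ^ n * (P n).eval 1)
    (h2 : ∀ n : ℕ, rho n ^ n *
      ((P n).derivative.derivative.eval 1 + (P n).derivative.eval 1) ≤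
      C2 * ((n : ℝ) * Real.sqrt n)) :
    ∀ᶠ n : ℕ in atTop, ∀ lam : ℝ, 0 ≤ lam →
      |lap P n lam - 1 + lam * mn P n| ≤ C2 / (2 * c) * lam ^ 2 := by
  filter_upwards [h1, eventually_ge_atTop 1] with n hn hn1 lam hlam
  have hn0 : (0 : ℝ) < n := by exact_mod_cast hn1
  have hs : 0 < (n : ℝ) * Real.sqrt n := mul_pos hn0 (Real.sqrt_pos.2 hn0)
  obtain ⟨r, hr⟩ : ∃ r, r = (n : ℝ) * Real.sqrt n := ⟨_, rfl⟩
  have hrn : 0 < rho n ^ n := pow_pos (hrho n) n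
  obtain ⟨q, hq⟩ : ∃ q, q = rho n ^ n := ⟨_, rfl⟩
  have h2n := h2 n
  have hpb := poly_bound (P n) (hP n) (epsn_nonneg35 hlam n)
  have heps : epsn lam n = lam / r := by unfold epsn; rw [hr]
  rw [← hr, ← hq] at hn
  rw [← hr, ← hq] at h2n
  rw [← hr] at hs
  rw [← hq] at hrn
  obtain ⟨p1, hp1⟩ : ∃ p, p = (P n).eval 1 := ⟨_, rfl⟩
  obtain ⟨d1, hd1⟩ : ∃ p, p = (P n).derivative.eval 1 := ⟨_, rfl⟩
  obtain ⟨d2, hd2⟩ : ∃ p, p = (P n).derivative.derivative.eval 1 := ⟨_, rfl⟩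
  obtain ⟨pe, hpe⟩ : ∃ p, p = (P n).eval (Real.exp (-(epsn lam n))) := ⟨_, rfl⟩
  unfold lap mn
  rw [← hr, ← hpe, ← hp1, ← hd1]
  rw [← hpe, ← hp1, ← hd1, ← hd2, heps] at hpb
  rw [← hp1] at hn
  rw [← hd1, ← hd2] at h2n
  have hp1pos : 0 < p1 := by
    by_contra hcon
    have : r * q * p1 ≤ 0 := mul_nonpos_of_nonneg_of_nonpos (by positivity) (not_lt.1 hcon)
    linarith
  have e : pe / p1 - 1 + lam * (d1 / (r * p1)) = (pe - p1 + lam / r * d1) / p1 := by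
    field_simp
  rw [e, abs_div, abs_of_pos hp1pos, div_le_iff₀ hp1pos]
  refine hpb.trans ?_
  have h3 : d2 + d1 ≤ C2 * r / q := by
    rw [le_div_iff₀ hrn]; linarith
  calc (lam / r) ^ 2 / 2 * (d2 + d1) ≤ (lam / r) ^ 2 / 2 * (C2 * r / q) := by gcongr
    _ = C2 * lam ^ 2 / (2 * (r * q)) := by field_simp
    _ ≤ C2 * lam ^ 2 / (2 * (c / p1)) := by
      have : c / p1 ≤ r * q := by rw [div_le_iff₀ hp1pos]; exact hn
      gcongr
    _ = C2 / (2 * c) * lam ^ 2 * p1 := by field_simp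

theorem seq_side (hLT : GLT_Stmt) (hM2 : GM2_Stmt) {L : ℝ → ℝ} {m0 C' : ℝ} (hL0 : 0 < L 0)
    (hm0 : 0 < m0)
    (hL : ∀ lam : ℝ, 0 ≤ lam → Tendsto (fun n : ℕ => ((n : ℝ) * Real.sqrt n) * (1 / 4 : ℝ) ^ n
        * (closeP 1 cap1 B0 n).eval (Real.exp (-(epsn lam n)))) atTop (𝓝 (L lam)))
    (hexp : ∀ lam : ℝ, 0 ≤ lam → |L lam / L 0 - 1 + lam * m0| ≤ C' * lam ^ 2)
    {C θ : ℝ} (hC : 0 < C) (hθ : 0 < θ) (hθ1 : θ < 1)
    (G : ℕ → GapKernel) {mb hb sg : ℝ} (hmb : 0 < mb) (hhb : 0 < hb) (hsg : 0 < sg)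
    (C0 : ℕ → ℕ) (s t : ℕ → ℕ → ℤ → ℝ) (B : ℕ → ℕ → ℤ → Polynomial ℝ)
    (hK : KSeq C θ G mb hb sg) (hs : ∀ n, ClsCap C θ (G n) (C0 n) (s n))
    (ht : ∀ n, ClsCap C θ (G n) (C0 n) (t n)) (hB : ∀ n, IsSol (G n) (s n) (B n))
    (P : ℕ → Polynomial ℝ) (hP : ∀ n, P n = closeP (C0 n) (t n) (B n) n) :
    ∃ b c : ℝ, 0 < b ∧ 0 < c ∧
      (∀ᶠ n : ℕ in atTop, c ≤ ((n : ℝ) * Real.sqrt n) * (G n).rho ^ n * (P n).eval 1) ∧
      Tendsto (mn P) atTop (𝓝 b) ∧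
      ∀ lam : ℝ, 0 ≤ lam →
        Tendsto (fun n => lap P n (lam / b)) atTop (𝓝 (L (lam / m0) / L 0)) := by
  obtain ⟨C1, hC1, hLT1⟩ := hLT C θ hC hθ hθ1
  obtain ⟨C2, hC2, hM2'⟩ := hM2 C θ hC hθ hθ1
  obtain ⟨cr, hcr, hLT'⟩ := hLT1 G mb hb sg C0 s t B hK hs ht hB B0 B0_isSol
  have hcr0 : ∀ n, 0 < cr n := fun n => lt_of_lt_of_le (inv_pos.2 hC1) (hcr n).1
  obtain ⟨β, hβ⟩ : ∃ β, β = 2 * sg / mb := ⟨_, rfl⟩
  have hβ0 : 0 < β := by rw [hβ]; positivity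
  obtain ⟨k, hk⟩ : ∃ k, k = hb / (2 * sg) * (2 * sg / mb) ^ (3 / 2 : ℝ) := ⟨_, rfl⟩
  have hk0 : 0 < k := by rw [hk]; positivity
  have hlam0 : ∀ lam, lamS mb hb sg lam = k * lam := fun lam => by unfold lamS; rw [hk]
  -- the scale
  set n0 : ℕ → ℕ := fun n => ⌊β * n⌋₊ with hn0
  have h1 : Tendsto (fun n : ℕ => (n0 n : ℝ) / n) atTop (𝓝 (2 * sg / mb)) := by
    rw [← hβ]
    exact (tendsto_nat_floor_mul_div_atTop hβ0.le).comp tendsto_natCast_atTop_atTop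
  have h2 : Tendsto n0 atTop atTop :=
    tendsto_nat_floor_atTop.comp (tendsto_natCast_atTop_atTop.const_mul_atTop hβ0)
  have h3 := hLT' n0 h1
  simp only [← hP] at h3
  -- the scaled evaluations divided by `cr`
  have h4 : ∀ lam : ℝ, 0 ≤ lam → Tendsto (fun n : ℕ => ((n : ℝ) * Real.sqrt n) * (G n).rho ^ n
      * (P n).eval (Real.exp (-(epsn lam n))) / cr n) atTop (𝓝 (L (k * lam))) := by
    intro lam hlam
    have h5 := h3 lam hlam
    have h6 := (hL (k * lam) (by positivity)).comp h2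
    have h8 : Tendsto (fun n : ℕ => (((n : ℝ) * Real.sqrt n) * (G n).rho ^ n
          * (P n).eval (Real.exp (-(epsn lam n)))
        - cr n * (((n0 n : ℝ) * Real.sqrt (n0 n)) * (1 / 4 : ℝ) ^ (n0 n)
          * (closeP 1 cap1 B0 (n0 n)).eval
            (Real.exp (-(epsn (lamS mb hb sg lam) (n0 n)))))) / cr n) atTop (𝓝 0) := by
      refine squeeze_zero_norm (a := fun n : ℕ => C1 * |((n : ℝ) * Real.sqrt n) * (G n).rho ^ n
          * (P n).eval (Real.exp (-(epsn lam n)))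
        - cr n * (((n0 n : ℝ) * Real.sqrt (n0 n)) * (1 / 4 : ℝ) ^ (n0 n)
          * (closeP 1 cap1 B0 (n0 n)).eval
            (Real.exp (-(epsn (lamS mb hb sg lam) (n0 n)))))|) (fun n => ?_)
        (by simpa using h5.abs.const_mul C1)
      rw [Real.norm_eq_abs, abs_div, abs_of_pos (hcr0 n), div_eq_inv_mul]
      refine mul_le_mul_of_nonneg_right ?_ (abs_nonneg _)
      rw [inv_le_comm₀ (hcr0 n) hC1]
      exact (hcr n).1
    have h7 := h8.add h6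
    rw [zero_add] at h7
    refine h7.congr fun n => ?_
    have hne := (hcr0 n).ne'
    simp only [Function.comp_apply, hlam0]
    field_simp
    ring
  have h40 := h4 0 le_rfl
  simp only [epsn_zero, neg_zero, Real.exp_zero, mul_zero] at h40
  have hlow : ∀ᶠ n : ℕ in atTop, C1⁻¹ * (L 0 / 2) ≤ ((n : ℝ) * Real.sqrt n) * (G n).rho ^ n
      * (P n).eval 1 := by
    filter_upwards [h40.eventually (lt_mem_nhds (half_lt_self hL0))] with n hn
    rw [lt_div_iff₀ (hcr0 n)] at hn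
    refine le_trans ?_ hn.le
    rw [mul_comm]
    exact mul_le_mul_of_nonneg_left (hcr n).1 (by positivity)
  have hc0 : 0 < C1⁻¹ * (L 0 / 2) := by positivity
  have hcoef : ∀ n k, 0 ≤ (P n).coeff k := fun n k => by
    rw [hP]
    exact closeP_coeff_nonneg (hs n).cap.nonneg (ht n).cap.nonneg (hB n) n k
  have hC2' : ∀ n : ℕ, (G n).rho ^ n * ((P n).derivative.derivative.eval 1
      + (P n).derivative.eval 1) ≤ C2 * ((n : ℝ) * Real.sqrt n) := by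
    intro n
    rw [hP]
    exact hM2' (G n) (hK.cls n) (C0 n) (s n) (t n) (hs n) (ht n) (B n) (hB n) n
  have hsm := second_moment_seq hcoef (fun n => (G n).rho_pos) hc0 hC2.le hlow hC2'
  have hlap : ∀ lam : ℝ, 0 ≤ lam →
      Tendsto (fun n => lap P n lam) atTop (𝓝 (L (k * lam) / L 0)) := by
    intro lam hlam
    have h1 := (h4 lam hlam).div h40 hL0.ne'
    refine h1.congr' ?_
    filter_upwards [eventually_ge_atTop 1, hlow] with n hn hlw
    have hn0 : (0 : ℝ) < n := by exact_mod_cast hn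
    have hs : 0 < Real.sqrt n := Real.sqrt_pos.2 hn0
    have hq : 0 < (G n).rho ^ n := pow_pos (G n).rho_pos n
    have hne := (hcr0 n).ne'
    unfold lap
    rw [Pi.div_apply, div_div_div_cancel_right₀ hne, mul_div_mul_left]
    positivity
  obtain ⟨m', hm', hexp'⟩ := mean_lemma (by positivity) hsm hlap
  have hb : m' = k * m0 := mean_unique (phi := fun lam => L lam / L 0) hk0 hexp hexp'
  refine ⟨m', C1⁻¹ * (L 0 / 2), by rw [hb]; positivity, hc0, hlow, hm', fun lam hlam => ?_⟩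
  have := hlap (lam / m') (by rw [hb]; positivity)
  have e : k * (lam / m') = lam / m0 := by
    rw [hb]; field_simp
  rwa [e] at this


/-! ### filling a subsequence -/

open Classical in
/-- last index of the subsequence before `n` -/
noncomputable def lastIdx (φ : ℕ → ℕ) (n : ℕ) : ℕ := Nat.findGreatest (fun k => φ k ≤ n) n

theorem lastIdx_self {φ : ℕ → ℕ} (hφ : StrictMono φ) (k : ℕ) : lastIdx φ (φ k) = k := by
  classical
  unfold lastIdx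
  refine le_antisymm ?_ (Nat.le_findGreatest (hφ.le_apply) le_rfl)
  have h : φ (Nat.findGreatest (fun j => φ j ≤ φ k) (φ k)) ≤ φ k :=
    Nat.findGreatest_spec (P := fun j => φ j ≤ φ k) hφ.le_apply le_rfl
  exact hφ.le_iff_le.1 h

theorem lastIdx_tendsto {φ : ℕ → ℕ} (hφ : StrictMono φ) : Tendsto (lastIdx φ) atTop atTop := by
  classical
  refine tendsto_atTop.2 fun b => ?_
  filter_upwards [eventually_ge_atTop (φ b)] with n hn
  unfold lastIdx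
  exact Nat.le_findGreatest (hφ.le_apply.trans hn) hn

/-! ### weighted empirical measures -/

/-- the law of `f` under the weights `w` -/
noncomputable def wemp {Ω : Type} [Fintype Ω] (w f : Ω → ℝ≥0) : Measure ℝ≥0 :=
  ∑ y : Ω, (w y : ℝ≥0∞) • Measure.dirac (f y)

open Classical in
theorem wemp_apply {Ω : Type} [Fintype Ω] (w f : Ω → ℝ≥0) {S : Set ℝ≥0} (hS : MeasurableSet S) :
    wemp w f S = ((∑ y ∈ univ.filter fun y => f y ∈ S, w y : ℝ≥0) : ℝ≥0∞) := by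
  unfold wemp
  rw [Measure.finsetSum_apply]
  simp only [Measure.smul_apply, Measure.dirac_apply' _ hS, smul_eq_mul]
  rw [Finset.sum_filter]
  push_cast
  refine Finset.sum_congr rfl fun y _ => ?_
  by_cases h : f y ∈ S
  · simp [h]
  · simp [h]

theorem wemp_prob {Ω : Type} [Fintype Ω] (w f : Ω → ℝ≥0) (hw : ∑ y, w y = 1) :
    IsProbabilityMeasure (wemp w f) := by
  classical
  constructor
  rw [wemp_apply w f MeasurableSet.univ]
  simp [hw]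

theorem wemp_integral {Ω : Type} [Fintype Ω] (w f : Ω → ℝ≥0) (g : ℝ≥0 →ᵇ ℝ) :
    ∫ x, g x ∂(wemp w f) = ∑ y, (w y : ℝ) * g (f y) := by
  unfold wemp
  rw [integral_finsetSum_measure]
  · refine Finset.sum_congr rfl fun y _ => ?_
    rw [integral_smul_measure, integral_dirac, smul_eq_mul]
    simp
  · intro y _
    exact (BoundedContinuousFunction.integrable _ g).smul_measure ENNReal.coe_ne_top

theorem wemp_markov {Ω : Type} [Fintype Ω] (w f : Ω → ℝ≥0)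
    (hf : ∑ y, w y * f y ≤ 1) (K : ℝ≥0) (hK : 0 < K) :
    wemp w f {x | K < x} ≤ 1 / (K : ℝ≥0∞) := by
  classical
  change wemp w f (Set.Ioi K) ≤ _
  rw [wemp_apply w f (isOpen_Ioi.measurableSet : MeasurableSet (Set.Ioi K))]
  have h1 : (∑ y ∈ univ.filter fun y => f y ∈ Set.Ioi K, w y) * K ≤ 1 := by
    refine le_trans ?_ hf
    rw [Finset.sum_mul]
    calc ∑ y ∈ univ.filter fun y => f y ∈ Set.Ioi K, w y * K
        ≤ ∑ y ∈ univ.filter fun y => f y ∈ Set.Ioi K, w y * f y :=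
        Finset.sum_le_sum fun y hy =>
          mul_le_mul_of_nonneg_left (Finset.mem_filter.1 hy).2.le zero_le
      _ ≤ ∑ y, w y * f y := Finset.sum_le_sum_of_subset (Finset.filter_subset _ _)
  have h2 : (∑ y ∈ univ.filter fun y => f y ∈ Set.Ioi K, w y) ≤ 1 / K := by
    rw [le_div_iff₀ hK]
    exact h1
  have h3 : ((∑ y ∈ univ.filter fun y => f y ∈ Set.Ioi K, w y : ℝ≥0) : ℝ≥0∞) ≤
      ((1 / K : ℝ≥0) : ℝ≥0∞) := by
    exact_mod_cast h2
  rw [ENNReal.coe_div hK.ne', ENNReal.coe_one] at h3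
  exact h3

/-! ### comparison of weighted Laplace transforms -/

theorem fin_laplace {Ω : Type} [Fintype Ω] (good : Finset Ω) (wt T : Ω → ℝ) (A : Ω → ℕ)
    (hw : ∀ x, 0 ≤ wt x) (hT : ∀ x, 0 ≤ T x) {W Wg e q j : ℝ} (hW : W = ∑ x, wt x)
    (hWg : Wg = ∑ x ∈ good, wt x) (hWg0 : 0 < Wg) (he : 0 < e) (hq : 0 < q) (hj : 0 ≤ j) :
    |W⁻¹ * ∑ x, wt x * Real.exp (-(j * (T x / e))) -
      Wg⁻¹ * ∑ x ∈ good, wt x * Real.exp (-(j * ((A x : ℝ) / q)))| ≤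
      2 * ((W - Wg) / Wg) + j * ((∑ x ∈ good, wt x * |T x - A x|) / e +
        (∑ x ∈ good, wt x * (A x : ℝ)) * |1 / e - 1 / q|) / Wg := by
  classical
  have hWW : Wg ≤ W := by
    rw [hW, hWg]
    exact Finset.sum_le_sum_of_subset_of_nonneg (Finset.subset_univ _) fun x _ _ => hw x
  have hW0 : 0 < W := lt_of_lt_of_le hWg0 hWW
  obtain ⟨X, hX⟩ : ∃ X, X = ∑ x ∈ good, wt x * Real.exp (-(j * (T x / e))) := ⟨_, rfl⟩
  obtain ⟨Y, hY⟩ : ∃ Y, Y = ∑ x ∈ goodᶜ, wt x * Real.exp (-(j * (T x / e))) := ⟨_, rfl⟩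
  obtain ⟨Z, hZ⟩ : ∃ Z, Z = ∑ x ∈ good, wt x * Real.exp (-(j * ((A x : ℝ) / q))) := ⟨_, rfl⟩
  obtain ⟨R, hR⟩ : ∃ R, R = j * ((∑ x ∈ good, wt x * |T x - A x|) / e +
        (∑ x ∈ good, wt x * (A x : ℝ)) * |1 / e - 1 / q|) := ⟨_, rfl⟩
  have hXY : ∑ x, wt x * Real.exp (-(j * (T x / e))) = X + Y := by
    rw [hX, hY, Finset.sum_add_sum_compl]
  have hwc : ∑ x ∈ goodᶜ, wt x = W - Wg := by
    rw [hW, hWg, ← Finset.sum_add_sum_compl good]
    ring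
  have hex : ∀ x : Ω, Real.exp (-(j * (T x / e))) ≤ 1 := fun x => by
    have := hT x
    exact Real.exp_le_one_iff.2 (neg_nonpos.2 (by positivity))
  have hY0 : 0 ≤ Y := by
    rw [hY]
    exact Finset.sum_nonneg fun x _ => mul_nonneg (hw x) (Real.exp_pos _).le
  have hY1 : Y ≤ W - Wg := by
    rw [hY, ← hwc]
    refine Finset.sum_le_sum fun x _ => ?_
    exact mul_le_of_le_one_right (hw x) (hex x)
  have hZ0 : 0 ≤ Z := by
    rw [hZ]
    exact Finset.sum_nonneg fun x _ => mul_nonneg (hw x) (Real.exp_pos _).le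
  have hZ1 : Z ≤ Wg := by
    rw [hZ, hWg]
    refine Finset.sum_le_sum fun x _ => ?_
    exact mul_le_of_le_one_right (hw x)
      (Real.exp_le_one_iff.2 (neg_nonpos.2 (by positivity)))
  have hXZ : |X - Z| ≤ R := by
    rw [hX, hZ, ← Finset.sum_sub_distrib]
    refine (Finset.abs_sum_le_sum_abs _ _).trans ?_
    have e5 : R = ∑ x ∈ good, j * (wt x * |T x - A x| / e +
        wt x * (A x : ℝ) * |1 / e - 1 / q|) := by
      rw [hR, ← Finset.mul_sum, Finset.sum_add_distrib, ← Finset.sum_div, ← Finset.sum_mul]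
    rw [e5]
    refine Finset.sum_le_sum fun x _ => ?_
    have hT' := hT x
    rw [← mul_sub, abs_mul, abs_of_nonneg (hw x)]
    have h1 := exp_lip (x := j * (T x / e)) (y := j * ((A x : ℝ) / q)) (by positivity)
      (by positivity)
    have h2 : |j * (T x / e) - j * ((A x : ℝ) / q)| ≤
        j * (|T x - A x| / e + (A x : ℝ) * |1 / e - 1 / q|) := by
      rw [← mul_sub, abs_mul, abs_of_nonneg hj]
      refine mul_le_mul_of_nonneg_left ?_ hj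
      have e3 : T x / e - (A x : ℝ) / q =
          (T x - A x) / e + (A x : ℝ) * (1 / e - 1 / q) := by
        ring
      rw [e3]
      refine (abs_add_le _ _).trans (le_of_eq ?_)
      have e6 : |(A x : ℝ)| = A x := abs_of_nonneg (Nat.cast_nonneg (A x))
      rw [abs_div, abs_of_pos he, abs_mul, e6]
    calc wt x * |Real.exp (-(j * (T x / e))) - Real.exp (-(j * ((A x : ℝ) / q)))|
        ≤ wt x * (j * (|T x - A x| / e + (A x : ℝ) * |1 / e - 1 / q|)) :=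
          mul_le_mul_of_nonneg_left (h1.trans h2) (hw x)
      _ = _ := by ring
  rw [hXY, ← hZ, ← hR]
  have e1 : W⁻¹ * (X + Y) - Wg⁻¹ * Z = W⁻¹ * (X - Z) + (W⁻¹ * Y - (Wg⁻¹ - W⁻¹) * Z) := by ring
  have hi : W⁻¹ ≤ Wg⁻¹ := inv_anti₀ hWg0 hWW
  have hWi : 0 < W⁻¹ := inv_pos.2 hW0
  have hgi : 0 < Wg⁻¹ := inv_pos.2 hWg0
  have hR0 : 0 ≤ R := (abs_nonneg _).trans hXZ
  have b1 : |W⁻¹ * (X - Z)| ≤ R / Wg := by
    rw [abs_mul, abs_of_pos hWi, div_eq_inv_mul]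
    exact mul_le_mul hi hXZ (abs_nonneg _) hgi.le
  have b2 : W⁻¹ * Y ≤ (W - Wg) / Wg := by
    rw [div_eq_inv_mul]
    exact mul_le_mul hi hY1 hY0 hgi.le
  have b3 : (Wg⁻¹ - W⁻¹) * Z ≤ (W - Wg) / Wg := by
    calc (Wg⁻¹ - W⁻¹) * Z ≤ (Wg⁻¹ - W⁻¹) * Wg :=
          mul_le_mul_of_nonneg_left hZ1 (by linarith)
      _ = (W - Wg) * W⁻¹ := by
          field_simp
      _ ≤ (W - Wg) * Wg⁻¹ := mul_le_mul_of_nonneg_left hi (by linarith)
      _ = (W - Wg) / Wg := by rw [div_eq_mul_inv]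
  have b4 : 0 ≤ W⁻¹ * Y := by positivity
  have b5 : 0 ≤ (Wg⁻¹ - W⁻¹) * Z := mul_nonneg (by linarith) hZ0
  rw [e1]
  refine (abs_add_le _ _).trans ?_
  have b6 : |W⁻¹ * Y - (Wg⁻¹ - W⁻¹) * Z| ≤ 2 * ((W - Wg) / Wg) := by
    rw [abs_le]
    constructor <;> linarith
  linarith

end Pool.Agent.KCG.GFIN
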