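import Mathlib
import Pool.Agent.KCG.GFINa

/-!
# Module GFIN: the universal law for sequences of kernels, final part
-/

set_option autoImplicit false

open Finset Filter Topology MeasureTheory BoundedContinuousFunction
open scoped NNReal ENNReal

namespace Pool.Agent.KCG.GFIN

open Pool.Agent.Gap

open Pool.Agent.Gap

variable {C θ : ℝ}

/-- the generating polynomials of a model -/
noncomputable def PP (M : SeqModel C θ) (n : ℕ) : Polynomial ℝ :=
  closeP (M.C0 n) (M.t n) (M.B n) n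

theorem sub_side (hLT : GLT_Stmt) (hM2 : GM2_Stmt) {L : ℝ → ℝ} {m0 C' : ℝ} (hL0 : 0 < L 0)
    (hm0 : 0 < m0)
    (hL : ∀ lam : ℝ, 0 ≤ lam → Tendsto (fun n : ℕ => ((n : ℝ) * Real.sqrt n) * (1 / 4 : ℝ) ^ n
        * (closeP 1 cap1 B0 n).eval (Real.exp (-(epsn lam n)))) atTop (𝓝 (L lam)))
    (hexp : ∀ lam : ℝ, 0 ≤ lam → |L lam / L 0 - 1 + lam * m0| ≤ C' * lam ^ 2)
    (hC : 0 < C) (hθ : 0 < θ) (hθ1 : θ < 1) (M : SeqModel C θ) {φ : ℕ → ℕ} (hφ : StrictMono φ)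
    {q : ℝ × ℝ × ℝ} (hq1 : 0 < q.1) (hq2 : 0 < q.2.1) (hq3 : 0 < q.2.2)
    (hlim : Tendsto (fun k => par (M.G (φ k))) atTop (𝓝 q)) :
    ∃ b c : ℝ, 0 < b ∧ 0 < c ∧
      (∀ᶠ k : ℕ in atTop, c ≤ ((φ k : ℝ) * Real.sqrt (φ k)) * (M.G (φ k)).rho ^ (φ k) *
        (PP M (φ k)).eval 1) ∧
      Tendsto (fun k => mn (PP M) (φ k)) atTop (𝓝 b) ∧
      ∀ lam : ℝ, 0 ≤ lam →
        Tendsto (fun k => lap (PP M) (φ k) (lam / b)) atTop (𝓝 (L (lam / m0) / L 0)) := by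
  obtain ⟨ψ, hψ⟩ : ∃ ψ : ℕ → ℕ, ψ = fun n => φ (lastIdx φ n) := ⟨_, rfl⟩
  have hψφ : ∀ k, ψ (φ k) = φ k := fun k => by rw [hψ]; simp only [lastIdx_self hφ]
  have hlim' : Tendsto (fun n => par (M.G (ψ n))) atTop (𝓝 q) := by
    rw [hψ]
    exact hlim.comp (lastIdx_tendsto hφ)
  have hK : KSeq C θ (fun n => M.G (ψ n)) q.1 q.2.1 q.2.2 := by
    refine ⟨fun n => M.cls _, ?_, ?_, ?_⟩
    · exact (continuous_fst.tendsto q).comp hlim'
    · exact ((continuous_fst.comp continuous_snd).tendsto q).comp hlim'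
    · exact ((continuous_snd.comp continuous_snd).tendsto q).comp hlim'
  obtain ⟨b, c, hb, hc, h1, h2, h3⟩ := seq_side hLT hM2 hL0 hm0 hL hexp hC hθ hθ1
    (fun n => M.G (ψ n)) hq1 hq2 hq3 (fun n => M.C0 (ψ n)) (fun n => M.s (ψ n))
    (fun n => M.t (ψ n)) (fun n => M.B (ψ n)) hK (fun n => M.cap_s _) (fun n => M.cap_t _)
    (fun n => M.sol _) (fun n => closeP (M.C0 (ψ n)) (M.t (ψ n)) (M.B (ψ n)) n) (fun n => rfl)
  have hφt := hφ.tendsto_atTop
  refine ⟨b, c, hb, hc, ?_, ?_, fun lam hlam => ?_⟩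
  · filter_upwards [hφt.eventually h1] with k hk
    simp only [hψφ] at hk
    exact hk
  · refine (h2.comp hφt).congr fun k => ?_
    simp only [Function.comp_apply, mn, PP, hψφ]
  · refine ((h3 lam hlam).comp hφt).congr fun k => ?_
    simp only [Function.comp_apply, lap, PP, hψφ]

/-! ### one value of `n` -/

theorem sum_pow (M : SeqModel C θ) (n : ℕ) (hn : M.n1 ≤ n) (y : ℝ) :
    ∑ x ∈ M.good n, M.wt n x * y ^ (M.A n x) = M.c n * (PP M n).eval y := by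
  have h := congrArg (Polynomial.eval y) (M.count n hn)
  rw [Polynomial.eval_finsetSum, Polynomial.eval_mul, Polynomial.eval_C] at h
  simpa [PP] using h

theorem sum_good (M : SeqModel C θ) (n : ℕ) (hn : M.n1 ≤ n) :
    ∑ x ∈ M.good n, M.wt n x = M.c n * (PP M n).eval 1 := by
  have := sum_pow M n hn 1
  simpa using this

theorem sum_A (M : SeqModel C θ) (n : ℕ) (hn : M.n1 ≤ n) :
    ∑ x ∈ M.good n, M.wt n x * (M.A n x : ℝ) = M.c n * (PP M n).derivative.eval 1 := by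
  have h := congrArg (fun p : Polynomial ℝ => (Polynomial.derivative p).eval 1) (M.count n hn)
  simp only [Polynomial.derivative_sum, Polynomial.derivative_mul, Polynomial.derivative_C,
    zero_mul, zero_add, Polynomial.eval_finsetSum, Polynomial.eval_mul, Polynomial.eval_C,
    Polynomial.derivative_X_pow, Polynomial.eval_pow, Polynomial.eval_X, one_pow, mul_one] at h
  simpa [PP] using h

/-- weighted sum of `T` -/
noncomputable def ST (M : SeqModel C θ) (n : ℕ) : ℝ := ∑ y : M.Omega n, M.wt n y * M.T n y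

/-- total weight of the good part -/
noncomputable def Wg (M : SeqModel C θ) (n : ℕ) : ℝ := ∑ y ∈ M.good n, M.wt n y

theorem fixed (M : SeqModel C θ) {c : ℝ} (hc : 0 < c) (n : ℕ) (hn : M.n1 ≤ n) (hn1 : 1 ≤ n)
    (hlow : c ≤ ((n : ℝ) * Real.sqrt n) * (M.G n).rho ^ n * (PP M n).eval 1) :
    0 < Wg M n ∧ Wg M n = M.c n * (PP M n).eval 1 ∧
    ∑ x ∈ M.good n, M.wt n x * |M.T n x - M.A n x| ≤
      |M.κ n| * (1 + 1 / c) * ((n : ℝ) * Real.sqrt n) * Wg M n ∧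
    0 ≤ M.W n - Wg M n ∧ M.W n - Wg M n ≤ |M.κ n| * (1 + 1 / c) * Wg M n ∧
    ∑ x ∈ M.good n, M.wt n x * (M.A n x : ℝ) =
      Wg M n * (mn (PP M) n * ((n : ℝ) * Real.sqrt n)) ∧
    |ST M n / (Wg M n * ((n : ℝ) * Real.sqrt n)) - mn (PP M) n| ≤
      2 * (|M.κ n| * (1 + 1 / c)) := by
  classical
  have hn0 : (1 : ℝ) ≤ n := by exact_mod_cast hn1
  have hs : 1 ≤ Real.sqrt n := by
    rw [← Real.sqrt_one]
    exact Real.sqrt_le_sqrt hn0
  obtain ⟨r, hr⟩ : ∃ r, r = (n : ℝ) * Real.sqrt n := ⟨_, rfl⟩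
  have hr1 : 1 ≤ r := by rw [hr]; nlinarith
  have hr0 : 0 < r := by linarith
  obtain ⟨p, hp⟩ : ∃ p, p = (M.G n).rho ^ n := ⟨_, rfl⟩
  have hp0 : 0 < p := by rw [hp]; exact pow_pos (M.G n).rho_pos n
  have hM := M.c_pos n
  rw [← hr, ← hp] at hlow
  have hP : 0 < (PP M n).eval 1 := by
    by_contra hcon
    have : r * p * (PP M n).eval 1 ≤ 0 :=
      mul_nonpos_of_nonneg_of_nonpos (by positivity) (not_lt.1 hcon)
    linarith
  have hWg : Wg M n = M.c n * (PP M n).eval 1 := sum_good M n hn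
  have hWg0 : 0 < Wg M n := by rw [hWg]; positivity
  have hδ : M.c n / (r * p) ≤ 1 / c * Wg M n := by
    rw [hWg, div_le_iff₀ (by positivity)]
    have h1 : M.c n * c ≤ M.c n * (r * p * (PP M n).eval 1) :=
      mul_le_mul_of_nonneg_left hlow hM.le
    have h2 : 1 / c * (M.c n * (PP M n).eval 1) * (r * p) =
      M.c n * (r * p * (PP M n).eval 1) / c := by field_simp
    rw [h2, le_div_iff₀ hc]
    exact h1
  have hδ0 : 0 ≤ M.c n / (r * p) := by positivity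
  have hκ := le_abs_self (M.κ n)
  have hκ0 := abs_nonneg (M.κ n)
  have hnear : ∑ x ∈ M.good n, M.wt n x * |M.T n x - M.A n x| ≤
      |M.κ n| * (1 + 1 / c) * r * Wg M n := by
    have h1 := M.near n hn
    rw [← hr, ← hp] at h1
    change _ ≤ M.κ n * r * (Wg M n + M.c n / (r * p)) at h1
    refine h1.trans ?_
    calc M.κ n * r * (Wg M n + M.c n / (r * p)) ≤ |M.κ n| * r * (Wg M n + 1 / c * Wg M n) := by
          gcongr
      _ = _ := by ring
  have hsplit1 : M.W n - Wg M n = ∑ x ∈ (M.good n)ᶜ, M.wt n x := by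
    unfold SeqModel.W Wg
    rw [← Finset.sum_add_sum_compl (M.good n)]
    ring
  have hsplit2 : ST M n - ∑ x ∈ M.good n, M.wt n x * M.T n x =
      ∑ x ∈ (M.good n)ᶜ, M.wt n x * M.T n x := by
    unfold ST
    rw [← Finset.sum_add_sum_compl (M.good n)]
    ring
  have hb1 : 0 ≤ M.W n - Wg M n := by
    rw [hsplit1]
    exact Finset.sum_nonneg fun x _ => M.wt_nonneg n x
  have hb2 : 0 ≤ ST M n - ∑ x ∈ M.good n, M.wt n x * M.T n x := by
    rw [hsplit2]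
    exact Finset.sum_nonneg fun x _ => mul_nonneg (M.wt_nonneg n x) (M.T_nonneg n x)
  have hbad : (M.W n - Wg M n) + (ST M n - ∑ x ∈ M.good n, M.wt n x * M.T n x) ≤
      |M.κ n| * (1 + 1 / c) * Wg M n := by
    have h1 := M.bad n hn
    rw [← hr, ← hp] at h1
    simp only [mul_add, mul_one, Finset.sum_add_distrib] at h1
    have h2 : (M.W n - Wg M n) + (ST M n - ∑ x ∈ M.good n, M.wt n x * M.T n x) ≤
        M.κ n * (M.c n / (r * p)) := by
      unfold SeqModel.W Wg ST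
      linarith
    refine h2.trans ?_
    calc M.κ n * (M.c n / (r * p)) ≤ |M.κ n| * (1 / c * Wg M n) := by gcongr
      _ ≤ |M.κ n| * ((1 + 1 / c) * Wg M n) := by
        refine mul_le_mul_of_nonneg_left ?_ hκ0
        refine mul_le_mul_of_nonneg_right ?_ hWg0.le
        linarith
      _ = _ := by ring
  have hA : ∑ x ∈ M.good n, M.wt n x * (M.A n x : ℝ) = Wg M n * (mn (PP M) n * r) := by
    rw [sum_A M n hn, hWg, hr]
    unfold mn
    rw [← hr]
    field_simp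
  rw [← hr]
  refine ⟨hWg0, hWg, hnear, hb1, by linarith, hA, ?_⟩
  have e1 : ST M n / (Wg M n * r) - mn (PP M) n =
      ((ST M n - ∑ x ∈ M.good n, M.wt n x * M.T n x) +
        ∑ x ∈ M.good n, M.wt n x * (M.T n x - M.A n x)) / (Wg M n * r) := by
    have e2 : ∑ x ∈ M.good n, M.wt n x * (M.T n x - M.A n x) =
        ∑ x ∈ M.good n, M.wt n x * M.T n x - Wg M n * (mn (PP M) n * r) := by
      rw [← hA, ← Finset.sum_sub_distrib]
      exact Finset.sum_congr rfl fun x _ => by ring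
    rw [e2]
    field_simp
    ring
  rw [e1, abs_div, abs_of_pos (by positivity : 0 < Wg M n * r), div_le_iff₀ (by positivity)]
  have h3 : |∑ x ∈ M.good n, M.wt n x * (M.T n x - M.A n x)| ≤
      |M.κ n| * (1 + 1 / c) * r * Wg M n := by
    refine (Finset.abs_sum_le_sum_abs _ _).trans (le_trans (le_of_eq ?_) hnear)
    refine Finset.sum_congr rfl fun x _ => ?_
    rw [abs_mul, abs_of_nonneg (M.wt_nonneg n x)]
  have h4 : |ST M n - ∑ x ∈ M.good n, M.wt n x * M.T n x| ≤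
      |M.κ n| * (1 + 1 / c) * r * Wg M n := by
    rw [abs_of_nonneg hb2]
    have h5 : |M.κ n| * (1 + 1 / c) * Wg M n ≤ |M.κ n| * (1 + 1 / c) * r * Wg M n := by
      have h6 : 0 ≤ |M.κ n| * (1 + 1 / c) * Wg M n := by positivity
      nlinarith
    linarith
  refine (abs_add_le _ _).trans ?_
  linarith


/-! ### the laws along a subsequence -/

theorem seq_key (M : SeqModel C θ) {φ : ℕ → ℕ} (hφ : Tendsto φ atTop atTop) {b c : ℝ}
    (hb : 0 < b) (hc : 0 < c)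
    (hlow : ∀ᶠ k : ℕ in atTop, c ≤ ((φ k : ℝ) * Real.sqrt (φ k)) * (M.G (φ k)).rho ^ (φ k) *
        (PP M (φ k)).eval 1)
    (hmn : Tendsto (fun k => mn (PP M) (φ k)) atTop (𝓝 b)) {Psi : ℕ → ℝ}
    (hlap : ∀ j : ℕ, Tendsto (fun k => lap (PP M) (φ k) (j / b)) atTop (𝓝 (Psi j))) :
    ∃ ν : ℕ → ProbabilityMeasure ℝ≥0,
      (∀ k, ∀ K : ℝ≥0, 0 < K → (ν k : Measure ℝ≥0) {x | K < x} ≤ 1 / (K : ℝ≥0∞)) ∧
      (∀ j : ℕ, Tendsto (fun k => ∫ x, Real.exp (-((j : ℝ) * (x : ℝ))) ∂(ν k : Measure ℝ≥0))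
        atTop (𝓝 (Psi j))) ∧
      ∀ᶠ k in atTop, ∀ x : ℝ,
        M.cdf (φ k) x = ((ν k : Measure ℝ≥0) {z | (z : ℝ) ≤ x}).toReal := by
  classical
  obtain ⟨δ, hδ⟩ : ∃ δ : ℕ → ℝ, δ = fun k => |M.κ (φ k)| * (1 + 1 / c) := ⟨_, rfl⟩
  have hδ0 : Tendsto δ atTop (𝓝 0) := by
    rw [hδ]
    have := (M.κ_lim.comp hφ).abs.mul_const (1 + 1 / c)
    simpa using this
  obtain ⟨r, hr⟩ : ∃ r : ℕ → ℝ, r = fun k => (φ k : ℝ) * Real.sqrt (φ k) := ⟨_, rfl⟩
  -- good indices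
  have hgood : ∀ᶠ k : ℕ in atTop, M.n1 ≤ φ k ∧ 1 ≤ φ k ∧
      c ≤ ((φ k : ℝ) * Real.sqrt (φ k)) * (M.G (φ k)).rho ^ (φ k) * (PP M (φ k)).eval 1 := by
    filter_upwards [hlow, hφ.eventually (eventually_ge_atTop M.n1),
      hφ.eventually (eventually_ge_atTop 1)] with k h1 h2 h3 using ⟨h2, h3, h1⟩
  have hfix : ∀ᶠ k : ℕ in atTop, 0 < Wg M (φ k) ∧
      ∑ x ∈ M.good (φ k), M.wt (φ k) x * |M.T (φ k) x - M.A (φ k) x| ≤
        δ k * r k * Wg M (φ k) ∧
      0 ≤ M.W (φ k) - Wg M (φ k) ∧ M.W (φ k) - Wg M (φ k) ≤ δ k * Wg M (φ k) ∧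
      ∑ x ∈ M.good (φ k), M.wt (φ k) x * (M.A (φ k) x : ℝ) =
        Wg M (φ k) * (mn (PP M) (φ k) * r k) ∧
      |ST M (φ k) / (Wg M (φ k) * r k) - mn (PP M) (φ k)| ≤ 2 * δ k := by
    filter_upwards [hgood] with k ⟨h1, h2, h3⟩
    obtain ⟨a1, a2, a3, a4, a5, a6, a7⟩ := fixed M hc (φ k) h1 h2 h3
    rw [hδ, hr]
    exact ⟨a1, a3, a4, a5, a6, a7⟩
  -- the scaled mean of `T`
  have hv : Tendsto (fun k => ST M (φ k) / (Wg M (φ k) * r k)) atTop (𝓝 b) := by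
    have h1 : Tendsto (fun k => ST M (φ k) / (Wg M (φ k) * r k) - mn (PP M) (φ k)) atTop
        (𝓝 0) := by
      refine squeeze_zero_norm' (a := fun k => 2 * δ k) ?_ (by simpa using hδ0.const_mul 2)
      filter_upwards [hfix] with k hk
      rw [Real.norm_eq_abs]
      exact hk.2.2.2.2.2
    simpa using h1.add hmn
  have hw : Tendsto (fun k => M.W (φ k) / Wg M (φ k)) atTop (𝓝 1) := by
    have h1 : Tendsto (fun k => (M.W (φ k) - Wg M (φ k)) / Wg M (φ k)) atTop (𝓝 0) := by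
      refine squeeze_zero' ?_ ?_ hδ0
      · filter_upwards [hfix] with k hk
        exact div_nonneg hk.2.2.1 hk.1.le
      · filter_upwards [hfix] with k hk
        rw [div_le_iff₀ hk.1]
        exact hk.2.2.2.1
    have h2 := h1.add_const 1
    rw [zero_add] at h2
    refine h2.congr' ?_
    filter_upwards [hfix] with k hk
    have := hk.1.ne'
    field_simp
    ring
  obtain ⟨e, he⟩ : ∃ e : ℕ → ℝ, e = fun k => ST M (φ k) / M.W (φ k) := ⟨_, rfl⟩
  obtain ⟨u, hu⟩ : ∃ u : ℕ → ℝ, u = fun k => e k / r k := ⟨_, rfl⟩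
  have hu_lim : Tendsto u atTop (𝓝 b) := by
    have h1 := hv.div hw one_ne_zero
    rw [div_one] at h1
    refine h1.congr' ?_
    filter_upwards [hfix] with k hk
    have h2 := hk.1.ne'
    rw [hu, he, Pi.div_apply]
    simp only
    rw [div_div, div_div]
    congr 1
    field_simp
  have hall : ∀ᶠ k : ℕ in atTop, (M.n1 ≤ φ k ∧ 1 ≤ φ k ∧
      c ≤ ((φ k : ℝ) * Real.sqrt (φ k)) * (M.G (φ k)).rho ^ (φ k) * (PP M (φ k)).eval 1) ∧
      0 < e k := by
    filter_upwards [hgood, hu_lim.eventually (lt_mem_nhds hb)] with k h1 h2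
    refine ⟨h1, ?_⟩
    have hn0 : (0 : ℝ) < φ k := by exact_mod_cast h1.2.1
    have hs : 0 < Real.sqrt (φ k) := Real.sqrt_pos.2 hn0
    have hr0 : 0 < r k := by rw [hr]; positivity
    rw [hu] at h2
    simp only at h2
    by_contra hcon
    have : e k / r k ≤ 0 := div_nonpos_of_nonpos_of_nonneg (not_lt.1 hcon) hr0.le
    linarith
  -- weights and values
  obtain ⟨w, hwdef⟩ : ∃ w : ∀ k, M.Omega (φ k) → ℝ≥0,
      w = fun k y => (M.wt (φ k) y / M.W (φ k)).toNNReal := ⟨_, rfl⟩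
  obtain ⟨f, hfdef⟩ : ∃ f : ∀ k, M.Omega (φ k) → ℝ≥0,
      f = fun k y => (M.T (φ k) y / e k).toNNReal := ⟨_, rfl⟩
  have hW0 : ∀ k, (M.n1 ≤ φ k ∧ 1 ≤ φ k ∧
      c ≤ ((φ k : ℝ) * Real.sqrt (φ k)) * (M.G (φ k)).rho ^ (φ k) * (PP M (φ k)).eval 1) →
      0 < M.W (φ k) := by
    intro k ⟨h1, h2, h3⟩
    obtain ⟨a1, a2, a3, a4, a5, a6, a7⟩ := fixed M hc (φ k) h1 h2 h3
    linarith
  have hwc : ∀ k, 0 < M.W (φ k) → ∀ y, (w k y : ℝ) = M.wt (φ k) y / M.W (φ k) := by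
    intro k hk y
    rw [hwdef]
    simp only
    rw [Real.coe_toNNReal]
    exact div_nonneg (M.wt_nonneg _ y) hk.le
  have hfc : ∀ k, 0 < e k → ∀ y, (f k y : ℝ) = M.T (φ k) y / e k := by
    intro k hk y
    rw [hfdef]
    simp only
    rw [Real.coe_toNNReal]
    exact div_nonneg (M.T_nonneg _ y) hk.le
  have hwsum : ∀ k, 0 < M.W (φ k) → ∑ y, w k y = 1 := by
    intro k hk
    rw [← NNReal.coe_inj]
    push_cast
    simp only [hwc k hk]
    rw [← Finset.sum_div]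
    exact div_self hk.ne'
  -- the laws
  set ν : ℕ → ProbabilityMeasure ℝ≥0 := fun k =>
    if h : (M.n1 ≤ φ k ∧ 1 ≤ φ k ∧
      c ≤ ((φ k : ℝ) * Real.sqrt (φ k)) * (M.G (φ k)).rho ^ (φ k) * (PP M (φ k)).eval 1) ∧
      0 < e k then
      ⟨wemp (w k) (f k), wemp_prob _ _ (hwsum k (hW0 k h.1))⟩
    else ⟨Measure.dirac 0, inferInstance⟩ with hν
  have hν1 : ∀ k, ((M.n1 ≤ φ k ∧ 1 ≤ φ k ∧
      c ≤ ((φ k : ℝ) * Real.sqrt (φ k)) * (M.G (φ k)).rho ^ (φ k) * (PP M (φ k)).eval 1) ∧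
      0 < e k) → (ν k : Measure ℝ≥0) = wemp (w k) (f k) := by
    intro k h
    simp only [hν, dif_pos h]
    rfl
  have hν0 : ∀ k, ¬ ((M.n1 ≤ φ k ∧ 1 ≤ φ k ∧
      c ≤ ((φ k : ℝ) * Real.sqrt (φ k)) * (M.G (φ k)).rho ^ (φ k) * (PP M (φ k)).eval 1) ∧
      0 < e k) → (ν k : Measure ℝ≥0) = Measure.dirac 0 := by
    intro k h
    simp only [hν, dif_neg h]
    rfl
  refine ⟨ν, ?_, ?_, ?_⟩
  · intro k K hK
    by_cases h : (M.n1 ≤ φ k ∧ 1 ≤ φ k ∧
      c ≤ ((φ k : ℝ) * Real.sqrt (φ k)) * (M.G (φ k)).rho ^ (φ k) * (PP M (φ k)).eval 1) ∧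
      0 < e k
    · rw [hν1 k h]
      have hWk := hW0 k h.1
      have hek := h.2
      refine wemp_markov _ _ ?_ K hK
      rw [← NNReal.coe_le_coe]
      push_cast
      simp only [hwc k hWk, hfc k hek]
      have e1 : ∑ y, M.wt (φ k) y / M.W (φ k) * (M.T (φ k) y / e k) =
          ST M (φ k) / M.W (φ k) / e k := by
        unfold ST
        rw [Finset.sum_div, Finset.sum_div]
        exact Finset.sum_congr rfl fun y _ => by ring
      rw [e1]
      have e2 : ST M (φ k) / M.W (φ k) = e k := by rw [he]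
      rw [e2, div_self hek.ne']
    · rw [hν0 k h]
      change Measure.dirac 0 (Set.Ioi K) ≤ _
      rw [Measure.dirac_apply' _ (isOpen_Ioi.measurableSet : MeasurableSet (Set.Ioi K))]
      simp
  · intro j
    have hJ := hlap j
    -- the error
    have hD : Tendsto (fun k : ℕ => 2 * δ k + (j : ℝ) * (δ k / u k +
        mn (PP M) (φ k) * |1 / u k - 1 / b|)) atTop (𝓝 0) := by
      have h1 : Tendsto (fun k : ℕ => δ k / u k) atTop (𝓝 (0 / b)) := hδ0.div hu_lim hb.ne'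
      have h2 : Tendsto (fun k => |1 / u k - 1 / b|) atTop (𝓝 |1 / b - 1 / b|) :=
        (((tendsto_const_nhds (x := (1 : ℝ))).div hu_lim hb.ne').sub_const _).abs
      have h3 := (hδ0.const_mul 2).add ((h1.add (hmn.mul h2)).const_mul (j : ℝ))
      simpa using h3
    have hdiff : Tendsto (fun k => ∫ x, Real.exp (-((j : ℝ) * (x : ℝ))) ∂(ν k : Measure ℝ≥0) -
        lap (PP M) (φ k) (j / b)) atTop (𝓝 0) := by
      refine squeeze_zero_norm' ?_ hD
      filter_upwards [hall, hfix] with k hk hfk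
      have hWk := hW0 k hk.1
      obtain ⟨⟨hn1, hn2, hP⟩, hek⟩ := hk
      obtain ⟨a1, a3, a4, a5, a6, a7⟩ := hfk
      have hn0 : (0 : ℝ) < φ k := by exact_mod_cast hn2
      have hs : 0 < Real.sqrt (φ k) := Real.sqrt_pos.2 hn0
      have hr0 : 0 < r k := by rw [hr]; positivity
      have e1 : ∫ x, Real.exp (-((j : ℝ) * (x : ℝ))) ∂(ν k : Measure ℝ≥0) =
          (M.W (φ k))⁻¹ * ∑ y : M.Omega (φ k), M.wt (φ k) y *
            Real.exp (-(j * (M.T (φ k) y / e k))) := by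
        rw [hν1 k ⟨⟨hn1, hn2, hP⟩, hek⟩]
        have h1 := wemp_integral (w k) (f k) (ef ^ j)
        simp only [ef_pow] at h1
        rw [h1, Finset.mul_sum]
        refine Finset.sum_congr rfl fun y _ => ?_
        rw [hfc k hek, hwc k hWk]
        ring
      have e2 : lap (PP M) (φ k) (j / b) =
          (Wg M (φ k))⁻¹ * ∑ y ∈ M.good (φ k), M.wt (φ k) y *
            Real.exp (-(j * ((M.A (φ k) y : ℝ) / (b * r k)))) := by
        have h1 := sum_pow M (φ k) hn1 (Real.exp (-(epsn (j / b) (φ k))))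
        have h2 : ∑ y ∈ M.good (φ k), M.wt (φ k) y *
            Real.exp (-(j * ((M.A (φ k) y : ℝ) / (b * r k)))) =
            ∑ y ∈ M.good (φ k), M.wt (φ k) y *
              Real.exp (-(epsn (j / b) (φ k))) ^ (M.A (φ k) y) := by
          refine Finset.sum_congr rfl fun y _ => ?_
          rw [← Real.exp_nat_mul]
          congr 2
          unfold epsn
          rw [hr]
          field_simp
        have hMc := M.c_pos (φ k)
        have h3 : Wg M (φ k) = M.c (φ k) * (PP M (φ k)).eval 1 := sum_good M (φ k) hn1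
        rw [h2, h1, h3]
        unfold lap
        rw [mul_inv, mul_assoc, ← mul_assoc (Polynomial.eval 1 (PP M (φ k)))⁻¹,
          mul_comm (Polynomial.eval 1 (PP M (φ k)))⁻¹, mul_assoc, ← mul_assoc (M.c (φ k))⁻¹,
          inv_mul_cancel₀ hMc.ne', one_mul, ← div_eq_inv_mul]
      rw [e1, e2, Real.norm_eq_abs]
      refine (fin_laplace (M.good (φ k)) (M.wt (φ k)) (M.T (φ k)) (M.A (φ k))
        (M.wt_nonneg _) (M.T_nonneg _) (W := M.W (φ k)) (Wg := Wg M (φ k)) rfl rfl a1 hek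
        (by positivity : 0 < b * r k) (Nat.cast_nonneg j)).trans ?_
      have hun : e k = u k * r k := by rw [hu]; field_simp
      have hu0 : 0 < u k := by
        have : u k = e k / r k := by rw [hu]
        rw [this]; positivity
      refine add_le_add ?_ ?_
      · refine mul_le_mul_of_nonneg_left ?_ (by norm_num)
        rw [div_le_iff₀ a1]
        exact a5
      · rw [mul_div_assoc]
        refine mul_le_mul_of_nonneg_left ?_ (Nat.cast_nonneg j)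
        rw [div_le_iff₀ a1, a6]
        have e4 : |1 / e k - 1 / (b * r k)| = |1 / u k - 1 / b| / r k := by
          rw [← abs_of_pos hr0, ← abs_div, abs_of_pos hr0, hun]
          congr 1
          field_simp
        rw [e4]
        have h5 : (∑ x ∈ M.good (φ k), M.wt (φ k) x * |M.T (φ k) x - M.A (φ k) x|) / e k ≤
            δ k / u k * Wg M (φ k) := by
          rw [div_le_iff₀ hek, hun]
          refine a3.trans (le_of_eq ?_)
          field_simp
        have h6 : Wg M (φ k) * (mn (PP M) (φ k) * r k) * (|1 / u k - 1 / b| / r k) =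
            mn (PP M) (φ k) * |1 / u k - 1 / b| * Wg M (φ k) := by
          field_simp
        rw [h6, add_mul]
        linarith
    have := hdiff.add hJ
    simpa using this
  · filter_upwards [hall] with k hk x
    have hWk := hW0 k hk.1
    have hek := hk.2
    rw [hν1 k hk]
    have hS : MeasurableSet {z : ℝ≥0 | (z : ℝ) ≤ x} :=
      measurableSet_le measurable_coe_nnreal_real measurable_const
    rw [wemp_apply _ _ hS, ENNReal.coe_toReal]
    push_cast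
    simp only [hwc k hWk]
    rw [← Finset.sum_div]
    unfold SeqModel.cdf
    congr 1
    refine Finset.sum_congr ?_ fun _ _ => rfl
    ext y
    simp only [Finset.mem_filter, Finset.mem_univ, true_and, Set.mem_ofPred_eq]
    rw [hfc k hek y, div_le_iff₀ hek, he]
    simp only
    unfold ST
    rw [← mul_div_assoc, le_div_iff₀ hWk]


/-! ### the universal law -/

theorem conv_of_laws {μ : ProbabilityMeasure ℝ≥0} {ν : ℕ → ProbabilityMeasure ℝ≥0}
    (h1 : Tendsto ν atTop (𝓝 μ)) {x : ℝ}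
    (hx : ((μ : Measure ℝ≥0).map (fun z : ℝ≥0 => (z : ℝ))) {x} = 0) {F : ℕ → ℝ}
    (hc : ∀ᶠ n in atTop, F n = ((ν n : Measure ℝ≥0) {z | (z : ℝ) ≤ x}).toReal) :
    Tendsto F atTop
      (𝓝 (((μ : Measure ℝ≥0).map (fun z : ℝ≥0 => (z : ℝ))) (Set.Iic x)).toReal) := by
  rw [Measure.map_apply measurable_coe_nnreal_real (measurableSet_singleton x)] at hx
  have h2 : (μ : Measure ℝ≥0) (frontier {z : ℝ≥0 | (z : ℝ) ≤ x}) = 0 := by
    refine measure_mono_null ?_ hx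
    have h3 := NNReal.continuous_coe.frontier_preimage_subset (Set.Iic x)
    rw [frontier_Iic] at h3
    exact h3
  have h3 := ProbabilityMeasure.tendsto_measure_of_null_frontier_of_tendsto' h1 h2
  have h4 := (ENNReal.tendsto_toReal (measure_ne_top _ _)).comp h3
  rw [Measure.map_apply measurable_coe_nnreal_real measurableSet_Iic]
  refine h4.congr' ?_
  filter_upwards [hc] with n hn
  rw [hn]
  rfl

theorem sub_exists (hC : 0 < C) (hθ : 0 < θ) (hθ1 : θ < 1) (M : SeqModel C θ) {ns : ℕ → ℕ}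
    (hns : Tendsto ns atTop atTop) : ∃ ms : ℕ → ℕ, StrictMono (fun k => ns (ms k)) ∧
      ∃ q : ℝ × ℝ × ℝ, 0 < q.1 ∧ 0 < q.2.1 ∧ 0 < q.2.2 ∧
        Tendsto (fun k => par (M.G (ns (ms k)))) atTop (𝓝 q) := by
  obtain ⟨φ, hφ, hφ'⟩ := Filter.strictMono_subseq_of_tendsto_atTop hns
  obtain ⟨D, hD⟩ := par_mem hC hθ hθ1
  obtain ⟨q, hq, φ2, hφ2, hlim⟩ := isCompact_Icc.tendsto_subseq
    (fun k => hD (M.G (ns (φ k))) (M.cls _))
  refine ⟨φ ∘ φ2, hφ'.comp hφ2, q, ?_, ?_, ?_, hlim⟩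
  · exact lt_of_lt_of_le one_pos hq.1.1
  · exact lt_of_lt_of_le one_pos hq.1.2.1
  · exact lt_of_lt_of_le (pow_pos (inv_pos.2 hC) 2) hq.1.2.2

/-- MODULE GFIN -/
theorem gfin (hLT : GLT_Stmt) (hM2 : GM2_Stmt) (oLT : Gap.LT_Stmt) (oLT1 : Gap.LT1_Stmt)
    (oM2 : Gap.M2_Stmt) (oBAL : Gap.BAL_Stmt) : GFINE_Stmt := by
  obtain ⟨L, m0, C', hL0, hm0, hC', hL, hexp⟩ := stair_side oLT1 oM2 oBAL
  -- laws along subsequences
  have key : ∀ C θ : ℝ, 0 < C → 0 < θ → θ < 1 → ∀ M : SeqModel C θ, ∀ ns : ℕ → ℕ,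
      Tendsto ns atTop atTop → ∃ ms : ℕ → ℕ, ∃ ν : ℕ → ProbabilityMeasure ℝ≥0,
      (∀ k, ∀ K : ℝ≥0, 0 < K → (ν k : Measure ℝ≥0) {x | K < x} ≤ 1 / (K : ℝ≥0∞)) ∧
      (∀ j : ℕ, Tendsto (fun k => ∫ x, Real.exp (-((j : ℝ) * (x : ℝ))) ∂(ν k : Measure ℝ≥0))
        atTop (𝓝 (L (j / m0) / L 0))) ∧
      ∀ᶠ k in atTop, ∀ x : ℝ,
        M.cdf (ns (ms k)) x = ((ν k : Measure ℝ≥0) {z | (z : ℝ) ≤ x}).toReal := by
    intro C θ hC hθ hθ1 M ns hns
    obtain ⟨ms, hms, q, hq1, hq2, hq3, hlim⟩ := sub_exists hC hθ hθ1 M hns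
    obtain ⟨b, c, hb, hc, h1, h2, h3⟩ := sub_side hLT hM2 hL0 hm0 hL hexp hC hθ hθ1 M hms
      hq1 hq2 hq3 hlim
    obtain ⟨ν, a1, a2, a3⟩ := seq_key M hms.tendsto_atTop hb hc h1 h2
      (Psi := fun j => L (j / m0) / L 0) (fun j => h3 j (Nat.cast_nonneg j))
    exact ⟨ms, ν, a1, a2, a3⟩
  by_cases h : ∃ ν : ℕ → ProbabilityMeasure ℝ≥0,
      (∀ k, ∀ K : ℝ≥0, 0 < K → (ν k : Measure ℝ≥0) {x | K < x} ≤ 1 / (K : ℝ≥0∞)) ∧
      (∀ j : ℕ, Tendsto (fun k => ∫ x, Real.exp (-((j : ℝ) * (x : ℝ))) ∂(ν k : Measure ℝ≥0))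
        atTop (𝓝 (L (j / m0) / L 0)))
  · obtain ⟨ν1, ht1, hl1⟩ := h
    obtain ⟨μ, hμ⟩ := exists_limit ht1 hl1
    have hlaw : ∀ ν : ℕ → ProbabilityMeasure ℝ≥0,
        (∀ k, ∀ K : ℝ≥0, 0 < K → (ν k : Measure ℝ≥0) {x | K < x} ≤ 1 / (K : ℝ≥0∞)) →
        (∀ j : ℕ, Tendsto (fun k => ∫ x, Real.exp (-((j : ℝ) * (x : ℝ)))
          ∂(ν k : Measure ℝ≥0)) atTop (𝓝 (L (j / m0) / L 0))) → Tendsto ν atTop (𝓝 μ) := by
      intro ν h1 h2
      refine tendsto_of_laplace h1 fun j => ?_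
      rw [hμ j]
      exact h2 j
    refine ⟨(μ : Measure ℝ≥0).map (fun z : ℝ≥0 => (z : ℝ)),
      Measure.isProbabilityMeasure_map measurable_coe_nnreal_real.aemeasurable,
      fun M x hx => ?_, fun C θ hC hθ hθ1 M x hx => ?_⟩
    · obtain ⟨ν, ht, hl, hc⟩ := M.key oLT oM2 hL0 hm0 hL hexp
      refine conv_of_laws (hlaw ν ht hl) hx ?_
      filter_upwards [hc] with n hn using hn x
    · refine tendsto_of_subseq_tendsto fun ns hns => ?_
      obtain ⟨ms, ν, ht, hl, hc⟩ := key C θ hC hθ hθ1 M ns hns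
      refine ⟨ms, conv_of_laws (hlaw ν ht hl) hx ?_⟩
      filter_upwards [hc] with n hn using hn x
  · refine ⟨Measure.dirac 0, inferInstance, fun M => ?_, fun C θ hC hθ hθ1 M => ?_⟩
    · obtain ⟨ν, ht, hl, hc⟩ := M.key oLT oM2 hL0 hm0 hL hexp
      exact (h ⟨ν, ht, hl⟩).elim
    · obtain ⟨ms, ν, ht, hl, hc⟩ := key C θ hC hθ hθ1 M id tendsto_id
      exact (h ⟨ν, ht, hl⟩).elim

end Pool.Agent.KCG.GFIN
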