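import Mathlib
import Pool.Agent.KCG.Basic
import Pool.Agent.Lib_helper79.Gap.Zn

/-! Preparations for module E: kernel differences, convolution bound, critical solution. -/

set_option autoImplicit false

open Finset Filter Topology

namespace Pool.Agent.KCG

open Pool.Agent.Gap

lemma pow_sub_le (a b : ℂ) (r : ℝ) (ha : ‖a‖ ≤ r) (hb : ‖b‖ ≤ r) (m : ℕ) :
    ‖a ^ m - b ^ m‖ ≤ m * r ^ (m - 1) * ‖a - b‖ := by
  have hr : 0 ≤ r := (norm_nonneg a).trans ha
  induction m with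
  | zero => simp
  | succ m ih =>
    have e : a ^ (m + 1) - b ^ (m + 1) = a ^ m * (a - b) + (a ^ m - b ^ m) * b := by ring
    rw [e]
    have h1 : ‖a ^ m * (a - b)‖ ≤ r ^ m * ‖a - b‖ := by
      rw [norm_mul, norm_pow]
      gcongr
    have h2 : ‖(a ^ m - b ^ m) * b‖ ≤ (m * r ^ (m - 1) * ‖a - b‖) * r := by
      rw [norm_mul]
      gcongr
    have h3 : (m * r ^ (m - 1) * ‖a - b‖) * r = m * r ^ m * ‖a - b‖ := by
      rcases m with _ | m
      · simp
      · simp only [Nat.add_sub_cancel]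
        ring
    calc ‖a ^ m * (a - b) + (a ^ m - b ^ m) * b‖ ≤ r ^ m * ‖a - b‖ + m * r ^ m * ‖a - b‖ := by
          refine (norm_add_le _ _).trans (add_le_add h1 (h2.trans_eq h3))
      _ = ((m + 1 : ℕ) : ℝ) * r ^ (m + 1 - 1) * ‖a - b‖ := by
          simp only [Nat.add_sub_cancel]
          push_cast
          ring

namespace GapKernel

variable (G : GapKernel)

lemma Kz_crit (g g' : ℤ) : G.Kz 0 0 (G.rho : ℂ) g g' = (G.Kc g g' : ℂ) := by
  unfold Kz Kc wt
  push_cast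
  refine Finset.sum_congr rfl fun i _ => ?_
  simp

lemma Kc_nonneg (g g' : ℤ) : 0 ≤ G.Kc g g' :=
  Finset.sum_nonneg fun i _ => mul_nonneg (pow_nonneg G.rho_pos.le _) (G.K_nonneg i g g')

lemma Kz_out (j : ℕ) (eps : ℝ) (z : ℂ) (g g' : ℤ) (h : g' ≤ 0) : G.Kz j eps z g g' = 0 := by
  unfold Kz
  refine Finset.sum_eq_zero fun i _ => ?_
  rw [G.K_out' i g g' h]
  simp

lemma Kz_range (j : ℕ) (eps : ℝ) (z : ℂ) (g g' : ℤ) (h : (G.R : ℤ) < |g' - g|) :
    G.Kz j eps z g g' = 0 := by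
  unfold Kz
  refine Finset.sum_eq_zero fun i _ => ?_
  rw [G.K_range i g g' h]
  simp

lemma Kc_out (g g' : ℤ) (h : g' ≤ 0) : G.Kc g g' = 0 := by
  unfold Kc
  refine Finset.sum_eq_zero fun i _ => ?_
  rw [G.K_out' i g g' h]
  simp

lemma Kc_range (g g' : ℤ) (h : (G.R : ℤ) < |g' - g|) : G.Kc g g' = 0 := by
  unfold Kc
  refine Finset.sum_eq_zero fun i _ => ?_
  rw [G.K_range i g g' h]
  simp

lemma Kc_le_one (g g' : ℤ) : G.Kc g g' ≤ 1 := by
  rw [← G.crit']
  unfold Kc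
  refine Finset.sum_le_sum fun i _ => ?_
  have := G.rho_pos
  have h1 : G.K i g g' ≤ G.tot i := (G.K_le i g g').trans (G.T_le_tot i _)
  gcongr

/-- difference of kernels -/
lemma exists_Kz_sub : ∃ C : ℝ, 0 < C ∧ ∀ (eps : ℝ) (z : ℂ) (g g' : ℤ), 0 ≤ eps → ‖z‖ ≤ G.rho →
    1 ≤ g → 1 ≤ g' →
    ‖G.Kz 0 0 (G.rho : ℂ) g g' - G.Kz 0 eps z g g'‖ ≤ C * (‖(G.rho : ℂ) - z‖ + eps) * g' := by
  refine ⟨1 + ∑ i ∈ G.S, G.tot i * (i.1 * G.rho ^ (i.1 - 1) + G.rho ^ i.1 * i.2 * (G.R + 2)), ?_, ?_⟩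
  · have : 0 ≤ ∑ i ∈ G.S, G.tot i * (i.1 * G.rho ^ (i.1 - 1) + G.rho ^ i.1 * i.2 * (G.R + 2)) := by
      refine Finset.sum_nonneg fun i _ => ?_
      have := G.tot_nonneg i
      have := G.rho_pos
      positivity
    linarith
  intro eps z g g' he hz hg hg'
  have hrho := G.rho_pos
  have hgr : (1 : ℝ) ≤ g := by exact_mod_cast hg
  have hgr' : (1 : ℝ) ≤ g' := by exact_mod_cast hg'
  have hδ : 0 ≤ ‖(G.rho : ℂ) - z‖ := norm_nonneg _
  have key : ‖G.Kz 0 0 (G.rho : ℂ) g g' - G.Kz 0 eps z g g'‖ ≤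
      ∑ i ∈ G.S, (G.tot i * (i.1 * G.rho ^ (i.1 - 1) + G.rho ^ i.1 * i.2 * (G.R + 2))) *
        ((‖(G.rho : ℂ) - z‖ + eps) * g') := by
    unfold Kz
    rw [← Finset.sum_sub_distrib]
    refine (norm_sum_le _ _).trans (Finset.sum_le_sum fun i _ => ?_)
    by_cases hR : (G.R : ℤ) < |g' - g|
    · rw [G.K_range i g g' hR]
      have := G.tot_nonneg i
      simp only [zero_mul, Complex.ofReal_zero, mul_zero, sub_zero, norm_zero]
      positivity
    · have hgg : (g : ℝ) + g' ≤ (G.R + 2) * g' := by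
        have h1 : g ≤ g' + G.R := by
          have := neg_abs_le (g' - g)
          omega
        have h2 : (g : ℝ) ≤ g' + G.R := by exact_mod_cast h1
        nlinarith [Nat.cast_nonneg (α := ℝ) G.R]
      have hw1 : wt eps i g g' ≤ 1 := by
        unfold wt
        rw [Real.exp_le_one_iff]
        have : 0 ≤ eps * (i.2 : ℝ) * ((g : ℝ) + g') := by positivity
        linarith
      have hw0 : 0 ≤ wt eps i g g' := (Real.exp_pos _).le
      have hw2 : 1 - wt eps i g g' ≤ eps * i.2 * ((G.R + 2) * g') := by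
        unfold wt
        have h1 := Real.add_one_le_exp (-(eps * (i.2 : ℝ) * ((g : ℝ) + (g' : ℝ))))
        have h2 : eps * (i.2 : ℝ) * ((g : ℝ) + (g' : ℝ)) ≤ eps * i.2 * ((G.R + 2) * g') := by
          gcongr
        linarith
      have e : ((i.1 : ℂ)) ^ 0 * (G.rho : ℂ) ^ i.1 * ((G.K i g g' * wt 0 i g g' : ℝ) : ℂ)
          - ((i.1 : ℂ)) ^ 0 * z ^ i.1 * ((G.K i g g' * wt eps i g g' : ℝ) : ℂ)
          = (G.K i g g' : ℂ) * (((G.rho : ℂ) ^ i.1 - z ^ i.1)
            + z ^ i.1 * ((1 - wt eps i g g' : ℝ) : ℂ)) := by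
        have : wt 0 i g g' = 1 := by unfold wt; simp
        rw [this]
        push_cast
        ring
      rw [e, norm_mul, Complex.norm_real, Real.norm_of_nonneg (G.K_nonneg i g g')]
      have h1 : G.K i g g' ≤ G.tot i := (G.K_le i g g').trans (G.T_le_tot i _)
      have h2 : ‖((G.rho : ℂ) ^ i.1 - z ^ i.1) + z ^ i.1 * ((1 - wt eps i g g' : ℝ) : ℂ)‖ ≤
          i.1 * G.rho ^ (i.1 - 1) * ‖(G.rho : ℂ) - z‖
            + G.rho ^ i.1 * (eps * i.2 * ((G.R + 2) * g')) := by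
        refine (norm_add_le _ _).trans (add_le_add ?_ ?_)
        · exact pow_sub_le _ _ _ (by rw [Complex.norm_real, Real.norm_of_nonneg hrho.le]) hz _
        · rw [norm_mul, norm_pow, Complex.norm_real, Real.norm_of_nonneg (by linarith)]
          have : 0 ≤ 1 - wt eps i g g' := by linarith
          gcongr
      have ht := G.tot_nonneg i
      have h3 : (0 : ℝ) ≤ i.1 * G.rho ^ (i.1 - 1) := by positivity
      have h4 : (0 : ℝ) ≤ G.rho ^ i.1 * i.2 * (G.R + 2) := by positivity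
      calc G.K i g g' * ‖((G.rho : ℂ) ^ i.1 - z ^ i.1) + z ^ i.1 * ((1 - wt eps i g g' : ℝ) : ℂ)‖
          ≤ G.tot i * (i.1 * G.rho ^ (i.1 - 1) * ‖(G.rho : ℂ) - z‖
            + G.rho ^ i.1 * (eps * i.2 * ((G.R + 2) * g'))) := by
            gcongr
        _ ≤ (G.tot i * (i.1 * G.rho ^ (i.1 - 1) + G.rho ^ i.1 * i.2 * (G.R + 2))) *
              ((‖(G.rho : ℂ) - z‖ + eps) * g') := by
            rw [mul_assoc (G.tot i)]
            refine mul_le_mul_of_nonneg_left ?_ ht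
            have h5 : i.1 * G.rho ^ (i.1 - 1) * ‖(G.rho : ℂ) - z‖ ≤
                i.1 * G.rho ^ (i.1 - 1) * ((‖(G.rho : ℂ) - z‖ + eps) * g') := by
              refine mul_le_mul_of_nonneg_left ?_ h3
              nlinarith
            have h6 : G.rho ^ i.1 * (eps * i.2 * ((G.R + 2) * g')) ≤
                (G.rho ^ i.1 * i.2 * (G.R + 2)) * ((‖(G.rho : ℂ) - z‖ + eps) * g') := by
              calc G.rho ^ i.1 * (eps * i.2 * ((G.R + 2) * g'))
                  = (G.rho ^ i.1 * i.2 * (G.R + 2)) * (eps * g') := by ring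
                _ ≤ _ := by
                  refine mul_le_mul_of_nonneg_left ?_ h4
                  nlinarith
            linarith
  rw [← Finset.sum_mul] at key
  refine key.trans ?_
  have h7 : 0 ≤ (‖(G.rho : ℂ) - z‖ + eps) * g' := by positivity
  nlinarith

/-- `κ(g) = 1 - sum Kc` -/
noncomputable def kap (g : ℤ) : ℝ := 1 - ∑ g' ∈ Icc (g - G.R) (g + G.R), G.Kc g g'

lemma kap_eq_zero (g : ℤ) (hg : (G.R : ℤ) < g) : G.kap g = 0 := by
  unfold kap
  have h : ∑ g' ∈ Icc (g - G.R) (g + G.R), G.Kc g g' = 1 := by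
    unfold Kc
    rw [Finset.sum_comm, ← G.crit']
    refine Finset.sum_congr rfl fun i _ => ?_
    rw [← Finset.mul_sum]
    congr 1
    unfold tot
    have e : Icc (g - (G.R : ℤ)) (g + G.R) = (Icc (-(G.R : ℤ)) G.R).image (fun d => g + d) := by
      ext x
      simp only [Finset.mem_Icc, Finset.mem_image]
      constructor
      · intro h
        exact ⟨x - g, by omega, by ring⟩
      · rintro ⟨d, h, rfl⟩
        omega
    rw [e, Finset.sum_image (by intro a _ b _ h; simpa using h)]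
    refine Finset.sum_congr rfl fun d hd => ?_
    rw [Finset.mem_Icc] at hd
    rw [G.K_eq i g (g + d) (by omega) (by omega) hg]
    congr 1
    ring
  linarith

end GapKernel

/-- convolution bound -/
lemma conv_bound (N R : ℕ) (u : ℤ → ℝ) :
    ∑ g ∈ Icc (1 : ℤ) N, (∑ g' ∈ (Icc (1 : ℤ) N).filter (fun g' => |g' - g| ≤ (R : ℤ)), u g') ^ 2
      ≤ (2 * R + 1) ^ 2 * ∑ g ∈ Icc (1 : ℤ) N, u g ^ 2 := by
  have h1 : ∀ g : ℤ, (∑ g' ∈ (Icc (1 : ℤ) N).filter (fun g' => |g' - g| ≤ (R : ℤ)), u g') ^ 2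
      ≤ (2 * R + 1) * ∑ g' ∈ (Icc (1 : ℤ) N).filter (fun g' => |g' - g| ≤ (R : ℤ)), u g' ^ 2 := by
    intro g
    refine sq_sum_le_card_mul_sum_sq.trans ?_
    refine mul_le_mul_of_nonneg_right ?_ (Finset.sum_nonneg fun _ _ => sq_nonneg _)
    have h2 : ((Icc (1 : ℤ) N).filter (fun g' => |g' - g| ≤ (R : ℤ))) ⊆ Icc (g - R) (g + R) := by
      intro x hx
      rw [Finset.mem_filter] at hx
      have := abs_le.mp hx.2
      rw [Finset.mem_Icc]
      omega
    have h3 := Finset.card_le_card h2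
    rw [Int.card_Icc] at h3
    have h4 : (g + (R : ℤ) + 1 - (g - R)).toNat = 2 * R + 1 := by omega
    rw [h4] at h3
    exact_mod_cast h3
  calc _ ≤ ∑ g ∈ Icc (1 : ℤ) N, ((2 * R + 1) *
        ∑ g' ∈ (Icc (1 : ℤ) N).filter (fun g' => |g' - g| ≤ (R : ℤ)), u g' ^ 2 : ℝ) :=
        Finset.sum_le_sum fun g _ => h1 g
    _ = (2 * R + 1) * ∑ g' ∈ Icc (1 : ℤ) N,
        ∑ g ∈ (Icc (1 : ℤ) N).filter (fun g => |g' - g| ≤ (R : ℤ)), u g' ^ 2 := by
        rw [← Finset.mul_sum]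
        congr 1
        simp_rw [Finset.sum_filter]
        rw [Finset.sum_comm]
    _ ≤ (2 * R + 1) * ∑ g' ∈ Icc (1 : ℤ) N, (2 * R + 1) * u g' ^ 2 := by
        refine mul_le_mul_of_nonneg_left (Finset.sum_le_sum fun g' _ => ?_) (by positivity)
        rw [Finset.sum_const, nsmul_eq_mul]
        refine mul_le_mul_of_nonneg_right ?_ (sq_nonneg _)
        have h2 : ((Icc (1 : ℤ) N).filter (fun g => |g' - g| ≤ (R : ℤ))) ⊆ Icc (g' - R) (g' + R) := by
          intro x hx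
          rw [Finset.mem_filter] at hx
          have := abs_le.mp hx.2
          rw [Finset.mem_Icc]
          omega
        have h3 := Finset.card_le_card h2
        rw [Int.card_Icc] at h3
        have h4 : (g' + (R : ℤ) + 1 - (g' - R)).toNat = 2 * R + 1 := by omega
        rw [h4] at h3
        exact_mod_cast h3
    _ = _ := by
        rw [← Finset.mul_sum]
        ring

end Pool.Agent.KCG
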