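import Mathlib
import Pool.Agent.KCG.OJ1

/-! MODULE B1: evaluating the exact polynomial solution gives the truncated arrays. -/

set_option autoImplicit false

open Finset Filter Topology

namespace Pool.Agent.KCG

open Pool.Agent.Gap

/-- the gap grows at most by `R` per unit of length -/
lemma arr_supp {G : GapKernel} {C0 : ℕ} {s : ℕ → ℤ → ℝ} (hs : IsCap C0 s) {eps : ℝ} {N : ℕ}
    {b : ℕ → ℤ → ℝ} (hb : IsArr G s eps N b) (n : ℕ) :
    ∀ g : ℤ, (C0 : ℤ) + G.R * n < g → b n g = 0 := by
  induction n using Nat.strong_induction_on with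
  | _ n ih =>
    intro g hg
    have hRn : (0 : ℤ) ≤ G.R * n := by positivity
    by_cases hgN : 1 ≤ g ∧ g ≤ (N : ℤ)
    · rw [hb.step n g hgN.1 hgN.2, hs.supp_g n g (Or.inr (by omega)), zero_add]
      refine sum_eq_zero fun i hi => ?_
      have hi1 := (G.pos_mem i hi).1
      split_ifs with h
      · refine sum_eq_zero fun g' _ => ?_
        by_cases hgg : (G.R : ℤ) < |g' - g|
        · rw [G.K_range i g g' hgg, zero_mul, zero_mul]
        · rw [not_lt, abs_le] at hgg
          rw [ih (n - i.1) (by omega) g' ?_, mul_zero]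
          have h1 : (G.R : ℤ) * ((n - i.1 : ℕ) : ℤ) + G.R ≤ G.R * n := by
            have h2 : (((n - i.1 : ℕ) : ℤ)) + 1 ≤ n := by omega
            calc (G.R : ℤ) * ((n - i.1 : ℕ) : ℤ) + G.R = G.R * (((n - i.1 : ℕ) : ℤ) + 1) := by ring
              _ ≤ G.R * n := mul_le_mul_of_nonneg_left h2 (by positivity)
          omega
      · rfl
    · exact hb.zero n g (by omega)

lemma sol_supp {G : GapKernel} {C0 : ℕ} {s : ℕ → ℤ → ℝ} (hs : IsCap C0 s)
    {B : ℕ → ℤ → Polynomial ℝ} (hB : IsSol G s B) (n : ℕ) :
    ∀ g : ℤ, (C0 : ℤ) + G.R * n < g → B n g = 0 := by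
  induction n using Nat.strong_induction_on with
  | _ n ih =>
    intro g hg
    have hRn : (0 : ℤ) ≤ G.R * n := by positivity
    by_cases hg1 : 1 ≤ g
    · rw [hB.step n g hg1, hs.supp_g n g (Or.inr (by omega)), map_zero, zero_add]
      refine sum_eq_zero fun i hi => ?_
      have hi1 := (G.pos_mem i hi).1
      split_ifs with h
      · refine sum_eq_zero fun g' hg' => ?_
        rw [mem_Icc] at hg'
        rw [ih (n - i.1) (by omega) g' ?_, mul_zero]
        have h1 : (G.R : ℤ) * ((n - i.1 : ℕ) : ℤ) + G.R ≤ G.R * n := by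
          have h2 : (((n - i.1 : ℕ) : ℤ)) + 1 ≤ n := by omega
          calc (G.R : ℤ) * ((n - i.1 : ℕ) : ℤ) + G.R = G.R * (((n - i.1 : ℕ) : ℤ) + 1) := by ring
            _ ≤ G.R * n := mul_le_mul_of_nonneg_left h2 (by positivity)
        omega
      · rfl
    · exact hB.zero n g (by omega)

/-- B1. -/
theorem B1 : B1_Stmt := by
  intro G C0 s hs B hB N eps b heps hb n
  induction n using Nat.strong_induction_on with
  | _ n ih =>
    intro hN g
    have hN' : (C0 : ℤ) + (G.R + 1) * (n + 1) ≤ N := by exact_mod_cast hN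
    have hRn : (0 : ℤ) ≤ G.R * n := by positivity
    have hN2 : (C0 : ℤ) + G.R * n + G.R ≤ N := by nlinarith
    by_cases hg1 : 1 ≤ g
    swap
    · rw [hb.zero n g (by omega), hB.zero n g (by omega), Polynomial.eval_zero]
    by_cases hgN : g ≤ (N : ℤ)
    swap
    · rw [hb.zero n g (by omega), sol_supp hs hB n g (by omega), Polynomial.eval_zero]
    rw [hb.step n g hg1 hgN, hB.step n g hg1, Polynomial.eval_add, Polynomial.eval_C,
      Polynomial.eval_finsetSum]
    congr 1
    refine sum_congr rfl fun i hi => ?_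
    have hi1 := (G.pos_mem i hi).1
    split_ifs with h
    · rw [Polynomial.eval_finsetSum]
      -- the common support
      have h0 : ∀ g' : ℤ, b (n - i.1) g' = (B (n - i.1) g').eval (Real.exp (-eps)) :=
        ih (n - i.1) (by omega) (by
          refine le_trans ?_ hN
          have : (n - i.1 : ℕ) + 1 ≤ n + 1 := by omega
          exact Nat.add_le_add_left (Nat.mul_le_mul_left _ this) _)
      have hterm : ∀ g' : ℤ, Polynomial.eval (Real.exp (-eps)) (Polynomial.C (G.K i g g') *
          Polynomial.X ^ ((i.2 : ℤ) * (g + g')).toNat * B (n - i.1) g') =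
          G.K i g g' * GapKernel.wt eps i g g' * b (n - i.1) g' := by
        intro g'
        rw [Polynomial.eval_mul, Polynomial.eval_mul, Polynomial.eval_C, Polynomial.eval_pow,
          Polynomial.eval_X, ← h0 g']
        by_cases hg' : g' ≤ 0
        · rw [G.K_out' i g g' hg', zero_mul, zero_mul, zero_mul, zero_mul]
        · congr 2
          unfold GapKernel.wt
          rw [← Real.exp_nat_mul]
          congr 1
          have h1 : (((((i.2 : ℤ) * (g + g')).toNat : ℕ) : ℤ) : ℝ) = (((i.2 : ℤ) * (g + g') : ℤ) : ℝ) := by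
            rw [Int.toNat_of_nonneg]
            have : (0 : ℤ) ≤ g + g' := by omega
            positivity
          rw [Int.cast_natCast] at h1
          rw [h1]
          push_cast
          ring
      rw [sum_congr rfl (fun g' _ => hterm g')]
      -- both sums equal the sum over the union
      have hU1 : Icc (1 : ℤ) N ⊆ Icc (1 : ℤ) N ∪ Icc (g - G.R) (g + G.R) := subset_union_left
      have hU2 : Icc (g - G.R) (g + G.R) ⊆ Icc (1 : ℤ) N ∪ Icc (g - G.R) (g + G.R) :=
        subset_union_right
      rw [sum_subset hU1, sum_subset hU2]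
      · intro g' _ hg'
        rw [mem_Icc, not_and_or, not_le, not_le] at hg'
        rw [G.K_range i g g' (by rw [lt_abs]; omega), zero_mul, zero_mul]
      · intro g' _ hg'
        rw [mem_Icc, not_and_or, not_le, not_le] at hg'
        rcases hg' with hg' | hg'
        · rw [G.K_out' i g g' (by omega), zero_mul, zero_mul]
        · rw [hb.zero _ g' (Or.inr hg'), mul_zero]
    · rw [Polynomial.eval_zero]

end Pool.Agent.KCG
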