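import Pool.Agent.KCG.OC
import Pool.Agent.KCG.GSum

/-!
# MP_f6626d_co, module GC: coercivity uniform over the class `Cls C θ`
-/

set_option autoImplicit false

open Finset Filter Topology

namespace Pool.Agent.KCG.GC

open Pool.Agent.Gap

open Pool.Agent.Gap Pool.Agent.KCG.H62

/-- powers near the critical point, explicit constant -/
lemma pow_bd {rho : ℝ} (hr : 0 < rho) {z : ℂ} (hz : ‖z‖ ≤ rho) (m : ℕ) :
    rho * ‖z ^ m - (rho : ℂ) ^ m‖ ≤ (m : ℝ) * rho ^ m * ‖(rho : ℂ) - z‖ := by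
  induction m with
  | zero => simp
  | succ m ih =>
    have e : z ^ (m + 1) - (rho : ℂ) ^ (m + 1)
        = (z ^ m - (rho : ℂ) ^ m) * z - (rho : ℂ) ^ m * ((rho : ℂ) - z) := by ring
    have h1 : ‖z ^ (m + 1) - (rho : ℂ) ^ (m + 1)‖
        ≤ ‖z ^ m - (rho : ℂ) ^ m‖ * rho + rho ^ m * ‖(rho : ℂ) - z‖ := by
      rw [e]
      refine (norm_sub_le _ _).trans ?_
      rw [norm_mul, norm_mul, norm_pow, Complex.norm_real, Real.norm_of_nonneg hr.le]
      have := mul_le_mul_of_nonneg_left hz (norm_nonneg (z ^ m - (rho : ℂ) ^ m))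
      linarith
    calc rho * ‖z ^ (m + 1) - (rho : ℂ) ^ (m + 1)‖
        ≤ rho * (‖z ^ m - (rho : ℂ) ^ m‖ * rho + rho ^ m * ‖(rho : ℂ) - z‖) :=
          mul_le_mul_of_nonneg_left h1 hr.le
      _ = (rho * ‖z ^ m - (rho : ℂ) ^ m‖) * rho + rho ^ (m + 1) * ‖(rho : ℂ) - z‖ := by ring
      _ ≤ ((m : ℝ) * rho ^ m * ‖(rho : ℂ) - z‖) * rho + rho ^ (m + 1) * ‖(rho : ℂ) - z‖ := by
          have := mul_le_mul_of_nonneg_right ih hr.le
          linarith
      _ = _ := by push_cast; ring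

/-- imaginary parts of powers, explicit constant -/
lemma im_pow_bd {rho : ℝ} (hr : 0 < rho) {z : ℂ} (hz : ‖z‖ ≤ rho) (m : ℕ) :
    rho ^ 2 * |(z ^ m).im - (m : ℝ) * rho ^ (m - 1) * z.im|
      ≤ ((m : ℝ) * ((m : ℝ) - 1)) * rho ^ m * (|z.im| * ‖(rho : ℂ) - z‖) := by
  induction m with
  | zero => simp
  | succ m ih =>
    have him : (z ^ (m + 1)).im = (z ^ m).im * z.re + (z ^ m).re * z.im := by
      rw [pow_succ, Complex.mul_im]
      ring
    have hre : |z.re| ≤ rho := (Complex.abs_re_le_norm z).trans hz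
    have hd : |z.re - rho| ≤ ‖(rho : ℂ) - z‖ := by
      have := Complex.abs_re_le_norm ((rho : ℂ) - z)
      rw [Complex.sub_re, Complex.ofReal_re] at this
      rw [abs_sub_comm]
      exact this
    have hrm : rho * |(z ^ m).re - rho ^ m| ≤ (m : ℝ) * rho ^ m * ‖(rho : ℂ) - z‖ := by
      refine le_trans ?_ (pow_bd hr hz m)
      apply mul_le_mul_of_nonneg_left _ hr.le
      have := Complex.abs_re_le_norm (z ^ m - (rho : ℂ) ^ m)
      rw [Complex.sub_re, ← Complex.ofReal_pow, Complex.ofReal_re] at this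
      rw [← Complex.ofReal_pow]
      exact this
    have hmul : (m : ℝ) * rho ^ (m - 1) * rho = m * rho ^ m := by
      rcases m with _ | m
      · simp
      · rw [Nat.add_sub_cancel, pow_succ]
        ring
    have e : (z ^ (m + 1)).im - ((m + 1 : ℕ) : ℝ) * rho ^ (m + 1 - 1) * z.im
        = ((z ^ m).im - (m : ℝ) * rho ^ (m - 1) * z.im) * z.re
          + (m : ℝ) * rho ^ (m - 1) * z.im * (z.re - rho) + ((z ^ m).re - rho ^ m) * z.im := by
      rw [him, Nat.add_sub_cancel]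
      push_cast
      linear_combination z.im * hmul
    set a := |(z ^ m).im - (m : ℝ) * rho ^ (m - 1) * z.im| with ha
    set y := |z.im| with hy
    set del := ‖(rho : ℂ) - z‖ with hdel
    have hy0 : 0 ≤ y := abs_nonneg _
    have hdel0 : 0 ≤ del := norm_nonneg _
    have ha0 : 0 ≤ a := abs_nonneg _
    have h1 : |(z ^ (m + 1)).im - ((m + 1 : ℕ) : ℝ) * rho ^ (m + 1 - 1) * z.im|
        ≤ a * rho + (m : ℝ) * rho ^ (m - 1) * y * del + |(z ^ m).re - rho ^ m| * y := by
      rw [e]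
      refine (abs_add_le _ _).trans ?_
      refine (add_le_add (abs_add_le _ _) le_rfl).trans ?_
      rw [abs_mul ((z ^ m).im - (m : ℝ) * rho ^ (m - 1) * z.im) z.re,
        abs_mul ((m : ℝ) * rho ^ (m - 1) * z.im) (z.re - rho),
        abs_mul ((m : ℝ) * rho ^ (m - 1)) z.im, abs_mul ((z ^ m).re - rho ^ m) z.im]
      have hm0 : (0:ℝ) ≤ m * rho ^ (m - 1) := by positivity
      rw [abs_of_nonneg hm0]
      have t1 : a * |z.re| ≤ a * rho := mul_le_mul_of_nonneg_left hre ha0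
      have t2 : (m : ℝ) * rho ^ (m - 1) * y * |z.re - rho| ≤ (m : ℝ) * rho ^ (m - 1) * y * del :=
        mul_le_mul_of_nonneg_left hd (by positivity)
      linarith
    calc rho ^ 2 * |(z ^ (m + 1)).im - ((m + 1 : ℕ) : ℝ) * rho ^ (m + 1 - 1) * z.im|
        ≤ rho ^ 2 * (a * rho + (m : ℝ) * rho ^ (m - 1) * y * del
            + |(z ^ m).re - rho ^ m| * y) := mul_le_mul_of_nonneg_left h1 (by positivity)
      _ = (rho ^ 2 * a) * rho + ((m : ℝ) * rho ^ (m - 1) * rho) * rho * (y * del)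
            + (rho * |(z ^ m).re - rho ^ m|) * (rho * y) := by ring
      _ ≤ (((m : ℝ) * ((m : ℝ) - 1)) * rho ^ m * (y * del)) * rho
            + ((m : ℝ) * rho ^ m) * rho * (y * del)
            + ((m : ℝ) * rho ^ m * del) * (rho * y) := by
          rw [hmul]
          have t1 := mul_le_mul_of_nonneg_right ih hr.le
          have t3 := mul_le_mul_of_nonneg_right hrm (show 0 ≤ rho * y by positivity)
          linarith
      _ = _ := by push_cast; ring

/-- the form is controlled from below, uniformly over the class -/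
lemma coercive (h2 : GC2_Stmt) {Cc θ : ℝ} (hCc : 0 < Cc) (ht : 0 < θ) (ht1 : θ < 1) :
    ∃ c : ℝ, 0 < c ∧ ∀ G : GapKernel, Cls Cc θ G →
  ∀ (N : ℕ) (eps : ℝ) (z : ℂ) (f : ℤ → ℂ), 0 ≤ eps → ‖z‖ ≤ G.rho → Supp N f →
    c * (‖(G.rho : ℂ) - z‖ * nsq N f + En N f + Pot eps N f)
      ≤ ‖form N f (G.Lop eps z N f)‖ := by
  classical
  obtain ⟨C2, hC2, hC2'⟩ := h2
  obtain ⟨K2, hK2, hK2'⟩ := GSum.sum_pow hCc ht ht1 2
  obtain ⟨K4, hK4, hK4'⟩ := GSum.sum_pow hCc ht ht1 4
  -- the constants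
  set C3 : ℝ := K2 * Cc ^ 2 with hC3
  set C4 : ℝ := C2 * K4 * Cc with hC4
  have hC3n : 0 ≤ C3 := by positivity
  have hC4n : 0 ≤ C4 := by positivity
  have hr0 : 0 < Cc⁻¹ := inv_pos.2 hCc
  set eta : ℝ := min (Cc⁻¹ / 4) (1 / (8 * (1 + C3 ^ 2))) with heta
  have hden : 0 < 8 * (1 + C3 ^ 2) := by positivity
  have heta0 : 0 < eta := lt_min (by linarith) (by positivity)
  set th : ℝ := Cc⁻¹ / (224 * (1 + C4)) with hth
  have hth0 : 0 < th := by positivity
  have hth1 : th ≤ Cc⁻¹ / 224 := by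
    rw [hth]
    apply div_le_div_of_nonneg_left hr0.le (by norm_num)
    nlinarith
  have hth2 : th * C4 ≤ Cc⁻¹ / 224 := by
    rw [hth, div_mul_eq_mul_div, div_le_div_iff₀ (by positivity) (by norm_num)]
    nlinarith
  set c : ℝ := min (eta / 6) (min (th / 4) (Cc⁻¹ ^ 2 / 448)) with hc
  have hc0 : 0 < c := lt_min (by positivity) (lt_min (by positivity) (by positivity))
  refine ⟨c, hc0, ?_⟩
  intro G hG
  have hr := G.rho_pos
  have hrho : Cc⁻¹ ≤ G.rho := hG.rho_ge
  have hrho4 : G.rho ≤ 1 / 2 := GSum.rho_le G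
  have hrinv : 1 ≤ Cc * G.rho := by
    have := mul_le_mul_of_nonneg_left hrho hCc.le
    rwa [mul_inv_cancel₀ hCc.ne'] at this
  set c2 : ℝ := ∑ i ∈ G.S, (i.1 : ℝ) * G.rho ^ (i.1 - 1) * G.tot i with hc2
  have hc2n : 1 ≤ c2 := by
    have := Finset.single_le_sum (f := fun i : ℕ × ℕ => (i.1 : ℝ) * G.rho ^ (i.1 - 1) * G.tot i)
      (fun i _ => mul_nonneg (by positivity) (tot_nonneg G i)) G.a_mem
    have h1 := G.one_le_tot
    norm_num at this
    exact h1.trans this
  have heta1 : eta ≤ G.rho / 4 := (min_le_left _ _).trans (by linarith)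
  have heta2 : eta * (G.rho * C3 ^ 2) ≤ 1 / 8 := by
    have h1 : eta ≤ 1 / (8 * (1 + C3 ^ 2)) := min_le_right _ _
    have h3 : eta * (8 * (1 + C3 ^ 2)) ≤ 1 := by
      rw [le_div_iff₀ hden] at h1
      exact h1
    have h4 : G.rho * C3 ^ 2 ≤ 1 + C3 ^ 2 := by nlinarith [sq_nonneg C3]
    have h5 := mul_le_mul_of_nonneg_left h4 heta0.le
    linarith
  have hc_1 : c ≤ eta / 6 := min_le_left _ _
  have hc_2 : c ≤ th / 4 := (min_le_right _ _).trans (min_le_left _ _)
  have hc_3 : c ≤ G.rho ^ 2 / 448 := by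
    refine (min_le_right _ _).trans ((min_le_right _ _).trans ?_)
    have := pow_le_pow_left₀ hr0.le hrho 2
    linarith
  -- sums
  have hS3 : ∑ i ∈ G.S, ((i.1 : ℝ) ^ 2 * G.rho ^ i.1 / G.rho ^ 2) * G.tot i ≤ C3 := by
    have e : ∑ i ∈ G.S, ((i.1 : ℝ) ^ 2 * G.rho ^ i.1 / G.rho ^ 2) * G.tot i
        = (∑ i ∈ G.S, (i.1 : ℝ) ^ 2 * (G.rho ^ i.1 * G.tot i)) / G.rho ^ 2 := by
      rw [Finset.sum_div]
      exact Finset.sum_congr rfl fun i _ => by ring
    rw [e, div_le_iff₀ (by positivity)]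
    refine (hK2' G hG).trans ?_
    have h1 : 1 ≤ (Cc * G.rho) ^ 2 := one_le_pow₀ hrinv
    calc K2 = K2 * 1 := (mul_one _).symm
      _ ≤ K2 * (Cc * G.rho) ^ 2 := mul_le_mul_of_nonneg_left h1 hK2.le
      _ = _ := by rw [hC3]; ring
  have hS4 : ∑ i ∈ G.S, (i.1 : ℝ) * G.rho ^ (i.1 - 1) * (C2 * (i.1 : ℝ) ^ 3 * G.tot i) ≤ C4 := by
    have e : (∑ i ∈ G.S, (i.1 : ℝ) * G.rho ^ (i.1 - 1) * (C2 * (i.1 : ℝ) ^ 3 * G.tot i)) * G.rho
        = C2 * ∑ i ∈ G.S, (i.1 : ℝ) ^ 4 * (G.rho ^ i.1 * G.tot i) := by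
      rw [Finset.sum_mul, Finset.mul_sum]
      refine Finset.sum_congr rfl fun i hi => ?_
      have h1 := (G.pos_mem i hi).1
      have h2 : G.rho ^ i.1 = G.rho ^ (i.1 - 1) * G.rho := by
        rw [← pow_succ]
        congr 1
        omega
      rw [h2]
      ring
    have h3 : (∑ i ∈ G.S, (i.1 : ℝ) * G.rho ^ (i.1 - 1) * (C2 * (i.1 : ℝ) ^ 3 * G.tot i)) * G.rho
        ≤ C4 * G.rho := by
      rw [e]
      calc C2 * ∑ i ∈ G.S, (i.1 : ℝ) ^ 4 * (G.rho ^ i.1 * G.tot i) ≤ C2 * K4 :=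
            mul_le_mul_of_nonneg_left (hK4' G hG) hC2.le
        _ = C2 * K4 * 1 := (mul_one _).symm
        _ ≤ C2 * K4 * (Cc * G.rho) := mul_le_mul_of_nonneg_left hrinv (by positivity)
        _ = _ := by rw [hC4]; ring
    exact le_of_mul_le_mul_right h3 hr
  intro N eps z f he hz hf
  set del := ‖(G.rho : ℂ) - z‖ with hdel
  set n2 := nsq N f with hn2
  set D := En N f + Pot eps N f with hD
  have hn2n : 0 ≤ n2 := nsq_nonneg N f
  have hDn : 0 ≤ D := add_nonneg (En_nonneg N f) (Pot_nonneg he N f)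
  have hdeln : 0 ≤ del := norm_nonneg _
  rw [add_assoc, ← hD]
  set A := form N f (G.Lop eps z N f) with hA
  have hAeq : A = (n2 : ℂ) - ∑ i ∈ G.S, z ^ i.1 * B G eps N i f := form_eq G eps z N f
  set b : ℕ × ℕ → ℝ := fun i => (B G eps N i f).re with hb
  have hBb : ∀ i, B G eps N i f = (b i : ℂ) := by
    intro i
    apply Complex.ext
    · simp [b]
    · rw [B_im, Complex.ofReal_im]
  have hbn : ∀ i, |b i| ≤ G.tot i * n2 := by
    intro i
    exact (Complex.abs_re_le_norm _).trans (B_norm G he i hf)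
  have hbl : ∀ i ∈ G.S, G.tot i * n2 - C2 * (i.1 : ℝ) ^ 3 * G.tot i * D ≤ b i := by
    intro i hi
    have hcs : Supp N (fun g => (starRingEnd ℂ) (f g)) := fun g hg => by simp [hf g hg]
    have h1 := hC2' G hG.loc N eps i (fun g => (starRingEnd ℂ) (f g)) f hi he hcs hf
    have e1 : En N (fun g => (starRingEnd ℂ) (f g)) = En N f := by
      unfold En
      refine Finset.sum_congr rfl fun g _ => ?_
      rw [← map_sub, RCLike.norm_conj]
    have e2 : Pot eps N (fun g => (starRingEnd ℂ) (f g)) = Pot eps N f := by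
      unfold Pot
      refine Finset.sum_congr rfl fun g _ => ?_
      rw [RCLike.norm_conj]
    rw [e1, e2, ← hD, Real.mul_self_sqrt hDn] at h1
    have e3 : ∑ g ∈ Icc (1 : ℤ) N, (starRingEnd ℂ) (f g) * f g = (n2 : ℂ) := by
      rw [hn2]
      unfold nsq
      push_cast
      exact Finset.sum_congr rfl fun g _ => Complex.conj_mul' _
    rw [e3] at h1
    have e4 : ∑ g ∈ Icc (1 : ℤ) N, ∑ g' ∈ Icc (1 : ℤ) N,
        ((G.K i g g' * GapKernel.wt eps i g g' : ℝ) : ℂ) * (starRingEnd ℂ) (f g) * f g'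
        = (b i : ℂ) := hBb i
    rw [e4, ← Complex.ofReal_mul, ← Complex.ofReal_sub, Complex.norm_real, Real.norm_eq_abs] at h1
    have := (abs_le.1 h1).2
    linarith
  have hre : A.re = n2 - ∑ i ∈ G.S, (z ^ i.1).re * b i := by
    rw [hAeq, Complex.sub_re, Complex.ofReal_re, Complex.re_sum]
    congr 1
    refine Finset.sum_congr rfl fun i _ => ?_
    rw [hBb, Complex.re_mul_ofReal]
  have him : A.im = - ∑ i ∈ G.S, (z ^ i.1).im * b i := by
    rw [hAeq, Complex.sub_im, Complex.ofReal_im, Complex.im_sum, zero_sub]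
    congr 1
    refine Finset.sum_congr rfl fun i _ => ?_
    rw [hBb, Complex.im_mul_ofReal]
  -- real part
  set x := z.re with hx
  set y := z.im with hy
  set n2u := nsq N (damp eps f) with hn2u
  set Eu := En N (damp eps f) with hEu
  have hR := G.R_pos
  have hEun : 0 ≤ Eu := En_nonneg N (damp eps f)
  have hEu4 : Eu ≤ 4 * n2u := En_le (damp_supp eps hf)
  have hnu : n2u ≤ n2 := nsq_damp_le he f
  have hnun : 0 ≤ n2u := nsq_nonneg N _
  -- the diagonal part of the type (1, 1)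
  have hba : |b (1, 1) - n2u| ≤ (G.tot (1, 1) - 1) * n2 := by
    have h1 := perturb G (i := (1, 1)) rfl (T0 := fun d => if d = 0 then 1 else 0)
      (fun d => by split_ifs <;> norm_num) (fun g g' hg hg' => by
        show (if g' - g = 0 then (1 : ℝ) else 0) ≤ _
        split_ifs with h
        · rw [show g' = g by omega]
          exact G.K_a g hg
        · exact G.K_nonneg _ _ _) he hf
    rw [B0_diag] at h1
    have h2 : ∑ d ∈ Icc (-(G.R : ℤ)) G.R, (if d = 0 then (1 : ℝ) else 0) = 1 := by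
      rw [Finset.sum_ite_eq' (Icc (-(G.R : ℤ)) G.R) 0 (fun _ => (1 : ℝ)), if_pos]
      rw [Finset.mem_Icc]
      omega
    rw [h2] at h1
    exact h1
  -- the nearest neighbour part of the type (2, 1)
  have hbb : |b (2, 1) - (2 * n2u - Eu)| ≤ (G.tot (2, 1) - 2) * n2 := by
    have h1 := perturb G (i := (2, 1)) rfl (T0 := fun d => if |d| = 1 then 1 else 0)
      (fun d => by split_ifs <;> norm_num) (fun g g' hg hg' => by
        show (if |g' - g| = 1 then (1 : ℝ) else 0) ≤ _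
        split_ifs with h
        · rcases (abs_eq (by norm_num : (0 : ℤ) ≤ 1)).1 h with h | h
          · rw [show g' = g + 1 by omega]
            exact G.K_b g hg
          · rw [show g = g' + 1 by omega, G.K_symm]
            exact G.K_b g' hg'
        · exact G.K_nonneg _ _ _) he hf
    rw [B0_nn hf] at h1
    have h2 : ∑ d ∈ Icc (-(G.R : ℤ)) G.R, (if |d| = 1 then (1 : ℝ) else 0) = 2 := by
      have hsub : ({-1, 1} : Finset ℤ) ⊆ Icc (-(G.R : ℤ)) G.R := by
        intro d hd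
        simp only [Finset.mem_insert, Finset.mem_singleton] at hd
        rw [Finset.mem_Icc]
        omega
      rw [← Finset.sum_subset hsub]
      · rw [Finset.sum_insert (by decide), Finset.sum_singleton]
        norm_num
      · intro d _ hd
        simp only [Finset.mem_insert, Finset.mem_singleton, not_or] at hd
        rw [if_neg]
        intro h
        rcases (abs_eq (by norm_num : (0 : ℤ) ≤ 1)).1 h with h | h
        · exact hd.2 h
        · exact hd.1 h
    rw [h2] at h1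
    exact h1
  have hxr : |x| ≤ G.rho := (Complex.abs_re_le_norm z).trans hz
  have hyr : |y| ≤ G.rho := (Complex.abs_im_le_norm z).trans hz
  have hxr' := abs_le.1 hxr
  have hnormz : x ^ 2 + y ^ 2 ≤ G.rho ^ 2 := by
    have : ‖z‖ ^ 2 = x ^ 2 + y ^ 2 := by
      rw [← Complex.normSq_eq_norm_sq, Complex.normSq_apply]
      ring
    rw [← this]
    exact pow_le_pow_left₀ (norm_nonneg _) hz 2
  have hz2 : (z ^ 2).re = x ^ 2 - y ^ 2 := by
    rw [pow_two, Complex.mul_re]
    ring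
  have hw2 : |x ^ 2 - y ^ 2| ≤ G.rho ^ 2 := by
    rw [abs_le]
    constructor
    · nlinarith [sq_nonneg x]
    · nlinarith [sq_nonneg y]
  have hreal : (G.rho + 2 * G.rho ^ 2) * n2 - x * n2u - (x ^ 2 - y ^ 2) * (2 * n2u - Eu)
      ≤ A.re := by
    have hb' : (2, 1) ∈ G.S.erase (1, 1) := Finset.mem_erase.2 ⟨by decide, G.b_mem⟩
    rw [hre, ← Finset.add_sum_erase _ _ G.a_mem, ← Finset.add_sum_erase _ _ hb']
    have hcrit := G.crit
    rw [← Finset.add_sum_erase _ _ G.a_mem, ← Finset.add_sum_erase _ _ hb'] at hcrit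
    have h5 : ∑ i ∈ (G.S.erase (1, 1)).erase (2, 1), (z ^ i.1).re * b i
        ≤ ∑ i ∈ (G.S.erase (1, 1)).erase (2, 1),
          (G.rho ^ i.1 * ∑ d ∈ Icc (-(G.R : ℤ)) G.R, G.T i d) * n2 := by
      refine Finset.sum_le_sum fun i _ => ?_
      have h6 : |(z ^ i.1).re| ≤ G.rho ^ i.1 := by
        refine (Complex.abs_re_le_norm _).trans ?_
        rw [norm_pow]
        exact pow_le_pow_left₀ (norm_nonneg _) hz _
      calc (z ^ i.1).re * b i ≤ |(z ^ i.1).re * b i| := le_abs_self _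
        _ = |(z ^ i.1).re| * |b i| := abs_mul _ _
        _ ≤ G.rho ^ i.1 * (G.tot i * n2) := mul_le_mul h6 (hbn i) (abs_nonneg _) (by positivity)
        _ = _ := by unfold GapKernel.tot; ring
    rw [← Finset.sum_mul] at h5
    have ea : ∑ d ∈ Icc (-(G.R : ℤ)) G.R, G.T (1, 1) d = G.tot (1, 1) := rfl
    have eb : ∑ d ∈ Icc (-(G.R : ℤ)) G.R, G.T (2, 1) d = G.tot (2, 1) := rfl
    rw [ea, eb] at hcrit
    simp only [pow_one] at hcrit ⊢
    have h7 : ∑ i ∈ (G.S.erase (1, 1)).erase (2, 1),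
        G.rho ^ i.1 * ∑ d ∈ Icc (-(G.R : ℤ)) G.R, G.T i d
        = 1 - G.rho * G.tot (1, 1) - G.rho ^ 2 * G.tot (2, 1) := by linarith
    rw [h7] at h5
    rw [hz2, ← hx]
    have h8 : x * b (1, 1) ≤ x * n2u + G.rho * ((G.tot (1, 1) - 1) * n2) := by
      have e : x * b (1, 1) = x * n2u + x * (b (1, 1) - n2u) := by ring
      rw [e]
      have h9 : x * (b (1, 1) - n2u) ≤ |x| * |b (1, 1) - n2u| := by
        rw [← abs_mul]
        exact le_abs_self _
      have h10 : |x| * |b (1, 1) - n2u| ≤ G.rho * ((G.tot (1, 1) - 1) * n2) :=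
        mul_le_mul hxr hba (abs_nonneg _) hr.le
      linarith
    have h9 : (x ^ 2 - y ^ 2) * b (2, 1) ≤ (x ^ 2 - y ^ 2) * (2 * n2u - Eu)
        + G.rho ^ 2 * ((G.tot (2, 1) - 2) * n2) := by
      have e : (x ^ 2 - y ^ 2) * b (2, 1) = (x ^ 2 - y ^ 2) * (2 * n2u - Eu)
          + (x ^ 2 - y ^ 2) * (b (2, 1) - (2 * n2u - Eu)) := by ring
      rw [e]
      have h9 : (x ^ 2 - y ^ 2) * (b (2, 1) - (2 * n2u - Eu))
          ≤ |x ^ 2 - y ^ 2| * |b (2, 1) - (2 * n2u - Eu)| := by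
        rw [← abs_mul]
        exact le_abs_self _
      have h10 : |x ^ 2 - y ^ 2| * |b (2, 1) - (2 * n2u - Eu)|
          ≤ G.rho ^ 2 * ((G.tot (2, 1) - 2) * n2) :=
        mul_le_mul hw2 hbb (abs_nonneg _) (by positivity)
      linarith
    linarith
  set Q := 2 * n2 - 2 * n2u + Eu with hQ
  have hQn : 0 ≤ Q := by linarith
  have hDQ : D ≤ 14 * Q := by
    have h1 : D ≤ 7 * (4 * n2 - 4 * n2u + Eu) := D_le_Q he hf
    rw [hQ]
    linarith
  have hAre : A.re ≤ ‖A‖ := Complex.re_le_norm A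
  have hAim : |A.im| ≤ ‖A‖ := Complex.abs_im_le_norm A
  have hD5 : D ≤ 5 * n2 := by
    have h1 := En_le hf
    have h2 := Pot_le (eps := eps) (N := N) f
    rw [hD]
    linarith
  rcases le_or_gt eta (G.rho - x) with hcase | hcase
  · -- away from the real axis point
    have hmain : eta * n2 ≤ ‖A‖ := by
      have h1 : x * n2u ≤ (G.rho - eta) * n2 := by
        rcases le_total 0 x with hx0 | hx0
        · calc x * n2u ≤ x * n2 := mul_le_mul_of_nonneg_left hnu hx0
            _ ≤ (G.rho - eta) * n2 := mul_le_mul_of_nonneg_right (by linarith) hn2n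
        · have h2 : x * n2u ≤ 0 := mul_nonpos_of_nonpos_of_nonneg hx0 hnun
          have h3 : 0 ≤ (G.rho - eta) * n2 := mul_nonneg (by linarith) hn2n
          linarith
      have h2 : (x ^ 2 - y ^ 2) * (2 * n2u - Eu) ≤ G.rho ^ 2 * (2 * n2) := by
        have h3 : |2 * n2u - Eu| ≤ 2 * n2 := by
          rw [abs_le]
          constructor <;> linarith
        calc (x ^ 2 - y ^ 2) * (2 * n2u - Eu) ≤ |(x ^ 2 - y ^ 2) * (2 * n2u - Eu)| :=
              le_abs_self _
          _ = |x ^ 2 - y ^ 2| * |2 * n2u - Eu| := abs_mul _ _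
          _ ≤ _ := mul_le_mul hw2 h3 (abs_nonneg _) (by positivity)
      linarith
    have hdel2 : del ≤ 2 * G.rho := by
      have h1 := norm_sub_le (G.rho : ℂ) z
      rw [Complex.norm_real, Real.norm_of_nonneg hr.le] at h1
      linarith
    have hD5 : D ≤ 5 * n2 := by
      have h1 := En_le hf
      have h2 := Pot_le (eps := eps) (N := N) f
      rw [hD]
      linarith
    have h1 : del * n2 + D ≤ 6 * n2 := by
      have := mul_le_mul_of_nonneg_right hdel2 hn2n
      have := mul_le_mul_of_nonneg_right hrho4 hn2n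
      linarith
    calc c * (del * n2 + D) ≤ (eta / 6) * (6 * n2) := by
          apply mul_le_mul hc_1 h1 _ (by positivity)
          positivity
      _ = eta * n2 := by ring
      _ ≤ ‖A‖ := hmain
  · -- near the critical point
    have hx0 : 3 / 4 * G.rho ≤ x := by linarith
    have hx0' : 0 ≤ x := by linarith
    have hw2l : G.rho ^ 2 / 8 ≤ x ^ 2 - y ^ 2 := by
      have h2 : (3 / 4 * G.rho) ^ 2 ≤ x ^ 2 := pow_le_pow_left₀ (by positivity) hx0 2
      nlinarith
    have hw2u : x ^ 2 - y ^ 2 ≤ G.rho ^ 2 := (abs_le.1 hw2).2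
    have h1 : (G.rho - x) * n2 + G.rho ^ 2 / 8 * Q ≤ A.re := by
      have h2 : 0 ≤ x * (n2 - n2u) := mul_nonneg hx0' (by linarith)
      have h3 : (x ^ 2 - y ^ 2) * (2 * n2) ≤ G.rho ^ 2 * (2 * n2) :=
        mul_le_mul_of_nonneg_right hw2u (by linarith)
      have h4 : G.rho ^ 2 / 8 * Q ≤ (x ^ 2 - y ^ 2) * Q := mul_le_mul_of_nonneg_right hw2l hQn
      have h5 : (x ^ 2 - y ^ 2) * Q = (x ^ 2 - y ^ 2) * (2 * n2)
          - (x ^ 2 - y ^ 2) * (2 * n2u - Eu) := by rw [hQ]; ring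
      linarith
    have hdelsq : del ^ 2 = (G.rho - x) ^ 2 + y ^ 2 := by
      rw [hdel, ← Complex.normSq_eq_norm_sq, Complex.normSq_apply, Complex.sub_re, Complex.sub_im,
        Complex.ofReal_re, Complex.ofReal_im]
      ring
    have hdel3 : C3 * del ≤ 1 / 2 := by
      have h2 : del ^ 2 ≤ 2 * G.rho * eta := by
        rw [hdelsq]
        have e : (G.rho - x) ^ 2 + (G.rho ^ 2 - x ^ 2) = 2 * G.rho * (G.rho - x) := by ring
        have e' : 2 * G.rho * (G.rho - x) ≤ 2 * G.rho * eta :=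
          mul_le_mul_of_nonneg_left hcase.le (by positivity)
        linarith
      have h3 : (C3 * del) ^ 2 ≤ (1 / 2) ^ 2 := by
        rw [mul_pow]
        have e : C3 ^ 2 * del ^ 2 ≤ C3 ^ 2 * (2 * G.rho * eta) :=
          mul_le_mul_of_nonneg_left h2 (by positivity)
        have e' : C3 ^ 2 * (2 * G.rho * eta) = 2 * (eta * (G.rho * C3 ^ 2)) := by ring
        linarith
      exact (abs_le_of_sq_le_sq' h3 (by norm_num)).2
    have hdel4 : del ≤ (G.rho - x) + |y| := by
      have h2 : del ^ 2 ≤ ((G.rho - x) + |y|) ^ 2 := by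
        rw [hdelsq]
        have e : |y| ^ 2 = y ^ 2 := sq_abs y
        have e' := mul_nonneg (show 0 ≤ G.rho - x by linarith) (abs_nonneg y)
        have e'' : ((G.rho - x) + |y|) ^ 2
            = (G.rho - x) ^ 2 + |y| ^ 2 + 2 * ((G.rho - x) * |y|) := by ring
        linarith
      exact (abs_le_of_sq_le_sq' h2 (add_nonneg (by linarith) (abs_nonneg _))).2
    -- imaginary part
    have him2 : |y| * (n2 / 2 - C4 * D) ≤ |A.im| := by
      have e1 : A.im = - (y * ∑ i ∈ G.S, (i.1 : ℝ) * G.rho ^ (i.1 - 1) * b i)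
          - ∑ i ∈ G.S, ((z ^ i.1).im - (i.1 : ℝ) * G.rho ^ (i.1 - 1) * y) * b i := by
        rw [him, Finset.mul_sum]
        have : ∑ i ∈ G.S, (z ^ i.1).im * b i
            = ∑ i ∈ G.S, y * ((i.1 : ℝ) * G.rho ^ (i.1 - 1) * b i)
              + ∑ i ∈ G.S, ((z ^ i.1).im - (i.1 : ℝ) * G.rho ^ (i.1 - 1) * y) * b i := by
          rw [← Finset.sum_add_distrib]
          exact Finset.sum_congr rfl fun i _ => by ring
        rw [this]
        ring
      have im_le : ∀ m : ℕ, |(z ^ m).im - (m : ℝ) * G.rho ^ (m - 1) * y|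
          ≤ ((m : ℝ) ^ 2 * G.rho ^ m / G.rho ^ 2) * (|y| * del) := by
        intro m
        have h1 := im_pow_bd hr hz m
        have h2 : ((m : ℝ) * ((m : ℝ) - 1)) * G.rho ^ m * (|z.im| * ‖(G.rho : ℂ) - z‖)
            ≤ (m : ℝ) ^ 2 * G.rho ^ m * (|z.im| * ‖(G.rho : ℂ) - z‖) := by
          have hm : (0:ℝ) ≤ m := Nat.cast_nonneg m
          have hp : (0:ℝ) ≤ G.rho ^ m := by positivity
          apply mul_le_mul_of_nonneg_right _ (by positivity)
          apply mul_le_mul_of_nonneg_right _ hp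
          nlinarith
        rw [div_mul_eq_mul_div, le_div_iff₀ (by positivity)]
        calc _ = G.rho ^ 2 * |(z ^ m).im - (m : ℝ) * G.rho ^ (m - 1) * z.im| := by
              rw [mul_comm]
          _ ≤ _ := h1.trans h2
      have e2 : |∑ i ∈ G.S, ((z ^ i.1).im - (i.1 : ℝ) * G.rho ^ (i.1 - 1) * y) * b i|
          ≤ C3 * del * |y| * n2 := by
        refine (Finset.abs_sum_le_sum_abs _ _).trans ?_
        calc _ ≤ ∑ i ∈ G.S, (((i.1 : ℝ) ^ 2 * G.rho ^ i.1 / G.rho ^ 2) * (|y| * del))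
                * (G.tot i * n2) := by
              refine Finset.sum_le_sum fun i _ => ?_
              rw [abs_mul]
              refine mul_le_mul (im_le i.1) (hbn i) (abs_nonneg _) (by positivity)
          _ = (∑ i ∈ G.S, ((i.1 : ℝ) ^ 2 * G.rho ^ i.1 / G.rho ^ 2) * G.tot i)
                * (del * |y| * n2) := by
              rw [Finset.sum_mul]
              exact Finset.sum_congr rfl fun i _ => by ring
          _ ≤ C3 * (del * |y| * n2) := mul_le_mul_of_nonneg_right hS3 (by positivity)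
          _ = _ := by ring
      have e3 : c2 * n2 - C4 * D ≤ ∑ i ∈ G.S, (i.1 : ℝ) * G.rho ^ (i.1 - 1) * b i := by
        have h4 := mul_le_mul_of_nonneg_right hS4 hDn
        refine le_trans (sub_le_sub_left h4 _) ?_
        rw [hc2, Finset.sum_mul, Finset.sum_mul, ← Finset.sum_sub_distrib]
        refine Finset.sum_le_sum fun i hi => ?_
        have := mul_le_mul_of_nonneg_left (hbl i hi)
          (show (0:ℝ) ≤ (i.1 : ℝ) * G.rho ^ (i.1 - 1) by positivity)
        calc _ = (i.1 : ℝ) * G.rho ^ (i.1 - 1)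
                * (G.tot i * n2 - C2 * (i.1 : ℝ) ^ 3 * G.tot i * D) := by ring
          _ ≤ _ := this
      set S1 := ∑ i ∈ G.S, (i.1 : ℝ) * G.rho ^ (i.1 - 1) * b i with hS1
      set S2 := ∑ i ∈ G.S, ((z ^ i.1).im - (i.1 : ℝ) * G.rho ^ (i.1 - 1) * y) * b i with hS2
      have e4 : |y| * S1 ≤ |A.im| + |S2| := by
        have : y * S1 = -A.im - S2 := by rw [e1]; ring
        calc |y| * S1 ≤ |y| * |S1| := mul_le_mul_of_nonneg_left (le_abs_self _) (abs_nonneg _)
          _ = |y * S1| := (abs_mul _ _).symm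
          _ = |-A.im - S2| := by rw [this]
          _ ≤ |-A.im| + |S2| := abs_sub _ _
          _ = _ := by rw [abs_neg]
      have hyn := abs_nonneg y
      have e5 : |y| * (c2 * n2 - C4 * D) ≤ |y| * S1 := mul_le_mul_of_nonneg_left e3 hyn
      have e6 : C3 * del * |y| * n2 ≤ 1 / 2 * |y| * n2 := by
        apply mul_le_mul_of_nonneg_right _ hn2n
        exact mul_le_mul_of_nonneg_right hdel3 hyn
      have e7 : |y| * (1 * n2) ≤ |y| * (c2 * n2) :=
        mul_le_mul_of_nonneg_left (mul_le_mul_of_nonneg_right hc2n hn2n) hyn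
      linarith
    have hyn := abs_nonneg y
    -- combine
    have k1 : G.rho ^ 2 / 112 * D ≤ G.rho ^ 2 / 8 * Q := by
      have : (G.rho ^ 2 / 8) * (D / 14) ≤ G.rho ^ 2 / 8 * Q :=
        mul_le_mul_of_nonneg_left (by linarith) (by positivity)
      linarith
    have hthr : th ≤ G.rho / 224 := hth1.trans (by linarith)
    have hthr1 : th ≤ 1 := by linarith
    have k2 : th * (|y| * (n2 / 2 - C4 * D)) ≤ th * ‖A‖ :=
      mul_le_mul_of_nonneg_left (him2.trans hAim) hth0.le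
    have k3 : th * (|y| * (C4 * D)) ≤ G.rho ^ 2 / 224 * D := by
      have h2 : (th * C4) * |y| ≤ G.rho / 224 * G.rho :=
        mul_le_mul (hth2.trans (by linarith)) hyr hyn (by positivity)
      have := mul_le_mul_of_nonneg_right h2 hDn
      have e : G.rho / 224 * G.rho = G.rho ^ 2 / 224 := by ring
      rw [e] at this
      linarith
    have k4 : (G.rho - x) * n2 + G.rho ^ 2 / 8 * Q ≤ ‖A‖ := h1.trans hAre
    have k5 : (G.rho - x) * n2 + th / 2 * |y| * n2 + G.rho ^ 2 / 224 * D ≤ 2 * ‖A‖ := by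
      have hAn := norm_nonneg A
      have : th * ‖A‖ ≤ 1 * ‖A‖ := mul_le_mul_of_nonneg_right hthr1 hAn
      linarith
    have k6 : th / 2 * del * n2 ≤ (G.rho - x) * n2 + th / 2 * |y| * n2 := by
      have : th / 2 * del ≤ (G.rho - x) + th / 2 * |y| := by
        have h3 : th / 2 * del ≤ th / 2 * ((G.rho - x) + |y|) :=
          mul_le_mul_of_nonneg_left hdel4 (by linarith)
        have h4 : 0 ≤ G.rho - x := by linarith
        have h5 : th / 2 * (G.rho - x) ≤ 1 * (G.rho - x) :=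
          mul_le_mul_of_nonneg_right (by linarith) h4
        have h6 : th / 2 * ((G.rho - x) + |y|) = th / 2 * (G.rho - x) + th / 2 * |y| := by ring
        linarith
      have := mul_le_mul_of_nonneg_right this hn2n
      linarith
    have k7 : c * (del * n2) ≤ th / 4 * (del * n2) :=
      mul_le_mul_of_nonneg_right hc_2 (mul_nonneg hdeln hn2n)
    have k8 : c * D ≤ G.rho ^ 2 / 448 * D := mul_le_mul_of_nonneg_right hc_3 hDn
    rw [mul_add]
    linarith

end Pool.Agent.KCG.GC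

namespace Pool.Agent.KCG

open Pool.Agent.Gap

/-- MODULE GC -/
theorem GC.gc (h : GC2_Stmt) : GC_Stmt := fun _ _ hC ht ht1 => GC.coercive h hC ht ht1

end Pool.Agent.KCG
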