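import Mathlib
import Pool.Agent.KCG.Stmts0
import Pool.Agent.Lib_helper2.Gap.EB

set_option autoImplicit false

open Finset Filter Topology

namespace Pool.Agent.KCG

open Pool.Agent.Gap

open Pool.Agent.KCG.GapKernel
open Pool.Agent.Gap.EBaux (stair_eq)

namespace EBaux

/-! ### real l2 seminorm -/

noncomputable def nr (s : Finset ℤ) (a : ℤ → ℝ) : ℝ := Real.sqrt (∑ g ∈ s, a g ^ 2)

theorem nr_nonneg (s : Finset ℤ) (a : ℤ → ℝ) : 0 ≤ nr s a := Real.sqrt_nonneg _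

theorem nr_add (s : Finset ℤ) (a b : ℤ → ℝ) : nr s (fun g => a g + b g) ≤ nr s a + nr s b := by
  unfold nr
  have h := Real.sum_mul_le_sqrt_mul_sqrt s a b
  have hA : 0 ≤ ∑ g ∈ s, a g ^ 2 := Finset.sum_nonneg fun _ _ => sq_nonneg _
  have hB : 0 ≤ ∑ g ∈ s, b g ^ 2 := Finset.sum_nonneg fun _ _ => sq_nonneg _
  rw [Real.sqrt_le_iff]
  refine ⟨by positivity, ?_⟩
  have e : ∑ g ∈ s, (a g + b g) ^ 2
      = ∑ g ∈ s, a g ^ 2 + 2 * ∑ g ∈ s, a g * b g + ∑ g ∈ s, b g ^ 2 := by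
    rw [Finset.mul_sum, ← Finset.sum_add_distrib, ← Finset.sum_add_distrib]
    exact Finset.sum_congr rfl fun g _ => by ring
  rw [e]
  nlinarith [Real.sq_sqrt hA, Real.sq_sqrt hB]

theorem nr_mul (s : Finset ℤ) (c : ℝ) (hc : 0 ≤ c) (a : ℤ → ℝ) :
    nr s (fun g => c * a g) = c * nr s a := by
  unfold nr
  have : ∑ g ∈ s, (c * a g) ^ 2 = c ^ 2 * ∑ g ∈ s, a g ^ 2 := by
    rw [Finset.mul_sum]
    exact Finset.sum_congr rfl fun g _ => by ring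
  rw [this, Real.sqrt_mul (sq_nonneg c), Real.sqrt_sq hc]

theorem nr_mono (s : Finset ℤ) (a b : ℤ → ℝ) (h : ∀ g ∈ s, 0 ≤ a g) (h' : ∀ g ∈ s, a g ≤ b g) :
    nr s a ≤ nr s b := by
  unfold nr
  apply Real.sqrt_le_sqrt
  refine Finset.sum_le_sum fun g hg => ?_
  have h1 := h g hg
  have h2 := h' g hg
  exact pow_le_pow_left₀ h1 h2 2

theorem nr_sum {ι : Type} (s : Finset ℤ) (t : Finset ι) (a : ι → ℤ → ℝ) :
    nr s (fun g => ∑ i ∈ t, a i g) ≤ ∑ i ∈ t, nr s (a i) := by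
  classical
  induction t using Finset.induction_on with
  | empty => simp [nr]
  | insert i t hi ih =>
    simp only [Finset.sum_insert hi]
    exact (nr_add s _ _).trans (by linarith)

theorem nr_shift (s B : Finset ℤ) (a : ℤ → ℝ) (j : ℤ) (h : ∀ x, x ∉ B → a x = 0) :
    nr s (fun g => a (g + j)) ≤ nr B a := by
  unfold nr
  apply Real.sqrt_le_sqrt
  have e1 : ∑ g ∈ s, a (g + j) ^ 2 = ∑ x ∈ s.map (addRightEmbedding j), a x ^ 2 := by
    rw [Finset.sum_map]; rfl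
  have e2 : ∑ x ∈ s.map (addRightEmbedding j), a x ^ 2
      = ∑ x ∈ (s.map (addRightEmbedding j)).filter (· ∈ B), a x ^ 2 := by
    rw [Finset.sum_filter]
    refine Finset.sum_congr rfl fun x _ => ?_
    split_ifs with hx
    · rfl
    · rw [h x hx]; ring
  rw [e1, e2]
  refine Finset.sum_le_sum_of_subset_of_nonneg ?_ fun _ _ _ => sq_nonneg _
  intro x hx
  exact (Finset.mem_filter.mp hx).2

theorem sum_eq_of_supp {E : Type} [AddCommMonoid E] (A B : Finset ℤ) (φ : ℤ → E)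
    (h : ∀ x, x ∉ A → φ x = 0) (h' : ∀ x, x ∉ B → φ x = 0) :
    ∑ x ∈ A, φ x = ∑ x ∈ B, φ x := by
  classical
  have h1 : ∑ x ∈ A, φ x = ∑ x ∈ A ∪ B, φ x :=
    Finset.sum_subset Finset.subset_union_left fun x _ hx => h x hx
  have h2 : ∑ x ∈ B, φ x = ∑ x ∈ A ∪ B, φ x :=
    Finset.sum_subset Finset.subset_union_right fun x _ hx => h' x hx
  rw [h1, h2]

/-! ### elementary estimates -/

theorem exp_est (t : ℝ) (ht : 0 ≤ t) : |1 - Real.exp (-t) - t| ≤ t ^ 2 := by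
  have h1 : -t + 1 ≤ Real.exp (-t) := Real.add_one_le_exp (-t)
  rw [abs_le]
  constructor
  · by_cases h : t ≤ 1
    · have h2 : |(-t)| ≤ 1 := by rw [abs_neg, abs_of_nonneg ht]; exact h
      have := Real.abs_exp_sub_one_sub_id_le h2
      rw [abs_le] at this
      linarith [this.2, neg_sq t]
    · push Not at h
      have : Real.exp (-t) ≤ 1 := by rw [Real.exp_le_one_iff]; linarith
      nlinarith
  · nlinarith

theorem pow_est (ζ : ℂ) (hζ : ‖ζ‖ ≤ 1) (m : ℕ) :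
    ‖1 - ζ ^ m - m * (1 - ζ)‖ ≤ (m : ℝ) ^ 2 * ‖1 - ζ‖ ^ 2 := by
  induction m with
  | zero => simp
  | succ m ih =>
    have e : 1 - ζ ^ (m + 1) - ((m + 1 : ℕ) : ℂ) * (1 - ζ)
        = ζ * (1 - ζ ^ m - m * (1 - ζ)) - m * (1 - ζ) ^ 2 := by
      push_cast; ring
    rw [e]
    have h1 : ‖ζ * (1 - ζ ^ m - m * (1 - ζ))‖ ≤ (m : ℝ) ^ 2 * ‖1 - ζ‖ ^ 2 := by
      rw [norm_mul]
      calc ‖ζ‖ * ‖1 - ζ ^ m - m * (1 - ζ)‖ ≤ 1 * ‖1 - ζ ^ m - m * (1 - ζ)‖ :=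
            mul_le_mul_of_nonneg_right hζ (norm_nonneg _)
        _ ≤ _ := by rw [one_mul]; exact ih
    have h2 : ‖(m : ℂ) * (1 - ζ) ^ 2‖ = (m : ℝ) * ‖1 - ζ‖ ^ 2 := by
      rw [norm_mul, norm_pow]; simp
    refine (norm_sub_le _ _).trans ?_
    rw [h2]
    have h3 : (0 : ℝ) ≤ m := by positivity
    have h4 : 0 ≤ ‖1 - ζ‖ ^ 2 := by positivity
    push_cast
    nlinarith [mul_nonneg h3 h4]

theorem pow_est1 (ζ : ℂ) (hζ : ‖ζ‖ ≤ 1) (m : ℕ) :
    ‖ζ ^ m - 1‖ ≤ (m : ℝ) * ‖1 - ζ‖ := by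
  induction m with
  | zero => simp
  | succ m ih =>
    have e : ζ ^ (m + 1) - 1 = ζ * (ζ ^ m - 1) - (1 - ζ) := by ring
    rw [e]
    refine (norm_sub_le _ _).trans ?_
    rw [norm_mul]
    have h1 : ‖ζ‖ * ‖ζ ^ m - 1‖ ≤ 1 * ‖ζ ^ m - 1‖ :=
      mul_le_mul_of_nonneg_right hζ (norm_nonneg _)
    push_cast
    linarith

theorem tele (f : ℤ → ℂ) (g : ℤ) (n : ℕ) (j : ℤ) (hj : |j| ≤ n) :
    ‖f (g + j) - f g‖ ≤ ∑ i ∈ Icc (-(n : ℤ)) n, ‖f (g + i + 1) - f (g + i)‖ := by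
  rw [abs_le] at hj
  rcases le_or_gt 0 j with h0 | h0
  · obtain ⟨k, rfl⟩ := Int.eq_ofNat_of_zero_le h0
    have h1 : f (g + k) - f g = ∑ i ∈ range k, (f (g + i + 1) - f (g + i)) := by
      have := Finset.sum_range_sub (fun i : ℕ => f (g + i)) k
      rw [show f g = f (g + ((0 : ℕ) : ℤ)) by simp, ← this]
      refine Finset.sum_congr rfl fun i _ => ?_
      push_cast
      rw [add_assoc]
    rw [h1]
    refine (norm_sum_le _ _).trans ?_
    have h2 : ∑ i ∈ range k, ‖f (g + i + 1) - f (g + i)‖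
        = ∑ i ∈ (range k).map Nat.castEmbedding, ‖f (g + i + 1) - f (g + i)‖ := by
      rw [Finset.sum_map]; rfl
    rw [h2]
    refine Finset.sum_le_sum_of_subset_of_nonneg ?_ fun _ _ _ => norm_nonneg _
    intro x hx
    rw [Finset.mem_map] at hx
    obtain ⟨i, hi, rfl⟩ := hx
    rw [Finset.mem_range] at hi
    rw [Finset.mem_Icc]
    simp only [Nat.castEmbedding_apply]
    omega
  · obtain ⟨k, hk⟩ := Int.eq_ofNat_of_zero_le (by omega : (0 : ℤ) ≤ -j)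
    have hj' : j = -(k : ℤ) := by omega
    subst hj'
    have h1 : f g - f (g + -(k : ℤ)) = ∑ i ∈ range k, (f (g + (-(k : ℤ) + i) + 1)
        - f (g + (-(k : ℤ) + i))) := by
      have := Finset.sum_range_sub (fun i : ℕ => f (g + (-(k : ℤ) + i))) k
      rw [show f g = f (g + (-(k : ℤ) + (k : ℤ))) by simp,
        show f (g + -(k : ℤ)) = f (g + (-(k : ℤ) + ((0 : ℕ) : ℤ))) by simp, ← this]
      refine Finset.sum_congr rfl fun i _ => ?_
      push_cast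
      congr 2
      ring
    rw [← norm_neg, neg_sub, h1]
    refine (norm_sum_le _ _).trans ?_
    have h2 : ∑ i ∈ range k, ‖f (g + (-(k : ℤ) + i) + 1) - f (g + (-(k : ℤ) + i))‖
        = ∑ i ∈ (range k).map (Nat.castEmbedding.trans (addLeftEmbedding (-(k : ℤ)))),
          ‖f (g + i + 1) - f (g + i)‖ := by
      rw [Finset.sum_map]; rfl
    rw [h2]
    refine Finset.sum_le_sum_of_subset_of_nonneg ?_ fun _ _ _ => norm_nonneg _
    intro x hx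
    rw [Finset.mem_map] at hx
    obtain ⟨i, hi, rfl⟩ := hx
    rw [Finset.mem_range] at hi
    rw [Finset.mem_Icc]
    simp only [Function.Embedding.trans_apply, Nat.castEmbedding_apply, addLeftEmbedding_apply]
    omega

/-- second difference -/
noncomputable def L2 (v : ℤ → ℂ) (x : ℤ) : ℂ := v (x + 1) + v (x - 1) - 2 * v x

theorem second_diff (v : ℤ → ℂ) (g : ℤ) (q : ℂ) (M : ℝ) (n : ℕ)
    (h : ∀ j : ℤ, |j| < n → ‖L2 v (g + j) - q‖ ≤ M) (d : ℕ) (hd : d ≤ n) :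
    ‖v (g + d) + v (g - d) - 2 * v g - (d : ℂ) ^ 2 * q‖ ≤ (d : ℝ) ^ 2 * M := by
  rcases Nat.eq_zero_or_pos n with hn | hn
  · have : d = 0 := by omega
    subst this
    simp
    ring_nf
  -- two step induction
  have key : ∀ d : ℕ, d + 1 ≤ n →
      ‖(v (g + (d + 1 : ℕ)) + v (g - (d + 1 : ℕ)) - 2 * v g - ((d + 1 : ℕ) : ℂ) ^ 2 * q)
        - (v (g + d) + v (g - d) - 2 * v g - (d : ℂ) ^ 2 * q)‖ ≤ (2 * d + 1) * M := by
    intro d
    induction d with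
    | zero =>
      intro _
      have h0 := h 0 (by simp; omega)
      have e : (v (g + (0 + 1 : ℕ)) + v (g - (0 + 1 : ℕ)) - 2 * v g - ((0 + 1 : ℕ) : ℂ) ^ 2 * q)
        - (v (g + (0 : ℕ)) + v (g - (0 : ℕ)) - 2 * v g - ((0 : ℕ) : ℂ) ^ 2 * q)
          = L2 v (g + 0) - q := by
        unfold L2
        simp
        ring
      rw [e]
      simpa using h0
    | succ d ih =>
      intro hd'
      have h1 := ih (by omega)
      have hp := h (d + 1 : ℕ) (by rw [abs_of_nonneg (by positivity)]; omega)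
      have hm := h (-(d + 1 : ℕ)) (by rw [abs_neg, abs_of_nonneg (by positivity)]; omega)
      have e : (v (g + (d + 1 + 1 : ℕ)) + v (g - (d + 1 + 1 : ℕ)) - 2 * v g
            - ((d + 1 + 1 : ℕ) : ℂ) ^ 2 * q)
          - (v (g + (d + 1 : ℕ)) + v (g - (d + 1 : ℕ)) - 2 * v g - ((d + 1 : ℕ) : ℂ) ^ 2 * q)
          = ((v (g + (d + 1 : ℕ)) + v (g - (d + 1 : ℕ)) - 2 * v g - ((d + 1 : ℕ) : ℂ) ^ 2 * q)
            - (v (g + d) + v (g - d) - 2 * v g - (d : ℂ) ^ 2 * q))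
            + (L2 v (g + (d + 1 : ℕ)) - q) + (L2 v (g + -((d + 1 : ℕ) : ℤ)) - q) := by
        unfold L2
        push_cast
        rw [show g + ((d : ℤ) + 1 + 1) = g + (d + 1) + 1 by ring,
          show g - ((d : ℤ) + 1 + 1) = g + -((d : ℤ) + 1) - 1 by ring,
          show g + ((d : ℤ) + 1) - 1 = g + d by ring,
          show g + -((d : ℤ) + 1) + 1 = g - d by ring,
          show g + -((d : ℤ) + 1) = g - (d + 1) by ring]
        ring
      rw [e]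
      refine (norm_add_le _ _).trans ?_
      refine (add_le_add (norm_add_le _ _) le_rfl).trans ?_
      push_cast at *
      linarith
  induction d with
  | zero =>
    simp
    ring_nf
  | succ d ih =>
    have h1 := ih (by omega)
    have h2 := key d hd
    have e : v (g + (d + 1 : ℕ)) + v (g - (d + 1 : ℕ)) - 2 * v g - ((d + 1 : ℕ) : ℂ) ^ 2 * q
        = ((v (g + (d + 1 : ℕ)) + v (g - (d + 1 : ℕ)) - 2 * v g - ((d + 1 : ℕ) : ℂ) ^ 2 * q)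
        - (v (g + d) + v (g - d) - 2 * v g - (d : ℂ) ^ 2 * q))
        + (v (g + d) + v (g - d) - 2 * v g - (d : ℂ) ^ 2 * q) := by ring
    rw [e]
    refine (norm_add_le _ _).trans ?_
    push_cast at *
    have h5 : ((d : ℝ) + 1) ^ 2 * M = (d : ℝ) ^ 2 * M + (2 * d + 1) * M := by ring
    linarith


/-! ### the error functional -/

noncomputable def F0 (N : ℕ) (D e : ℝ) (v : ℤ → ℂ) (x : ℤ) : ℝ :=
  D * ‖v (x + 1) - v x‖ + e * (‖mulg 1 v (x + 1) - mulg 1 v x‖ + ‖v x‖) + D ^ 2 * ‖v x‖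
    + e ^ 2 * ‖mulg 2 v x‖ + (if x = N then ‖v N‖ else 0)

noncomputable def FS (R N : ℕ) (D e : ℝ) (v : ℤ → ℂ) (g : ℤ) : ℝ :=
  ∑ j ∈ Icc (-((R + 1 : ℕ) : ℤ)) ((R + 1 : ℕ) : ℤ), F0 N D e v (g + j)

section

variable {R N : ℕ} {D e : ℝ} {v : ℤ → ℂ} {g : ℤ}

theorem F0_nonneg (hD : 0 ≤ D) (he : 0 ≤ e) (x : ℤ) : 0 ≤ F0 N D e v x := by
  unfold F0
  have : (0 : ℝ) ≤ if x = N then ‖v N‖ else 0 := by split_ifs <;> positivity
  positivity

theorem F0_le (hD : 0 ≤ D) (he : 0 ≤ e) {j : ℤ} (hj : |j| ≤ ((R + 1 : ℕ) : ℤ)) :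
    F0 N D e v (g + j) ≤ FS R N D e v g := by
  unfold FS
  refine Finset.single_le_sum (f := fun j => F0 N D e v (g + j))
    (fun i _ => F0_nonneg hD he _) ?_
  rw [Finset.mem_Icc]
  rw [abs_le] at hj
  exact hj

theorem FS_nonneg (hD : 0 ≤ D) (he : 0 ≤ e) : 0 ≤ FS R N D e v g :=
  Finset.sum_nonneg fun _ _ => F0_nonneg hD he _

theorem FS_e1 (hD : 0 ≤ D) (he : 0 ≤ e) {j : ℤ} (hj : |j| ≤ ((R + 1 : ℕ) : ℤ)) :
    e * ‖v (g + j)‖ ≤ FS R N D e v g := by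
  refine le_trans ?_ (F0_le hD he hj)
  unfold F0
  have : (0 : ℝ) ≤ if g + j = N then ‖v N‖ else 0 := by split_ifs <;> positivity
  have h1 : 0 ≤ D * ‖v (g + j + 1) - v (g + j)‖ := by positivity
  have h2 : 0 ≤ e * ‖mulg 1 v (g + j + 1) - mulg 1 v (g + j)‖ := by positivity
  have h3 : 0 ≤ D ^ 2 * ‖v (g + j)‖ := by positivity
  have h4 : 0 ≤ e ^ 2 * ‖mulg 2 v (g + j)‖ := by positivity
  linarith [mul_add e ‖mulg 1 v (g + j + 1) - mulg 1 v (g + j)‖ ‖v (g + j)‖]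

theorem FS_e2 (hD : 0 ≤ D) (he : 0 ≤ e) {j : ℤ} (hj : |j| ≤ ((R + 1 : ℕ) : ℤ)) :
    e ^ 2 * ‖mulg 2 v (g + j)‖ ≤ FS R N D e v g := by
  refine le_trans ?_ (F0_le hD he hj)
  unfold F0
  have : (0 : ℝ) ≤ if g + j = N then ‖v N‖ else 0 := by split_ifs <;> positivity
  have h1 : 0 ≤ D * ‖v (g + j + 1) - v (g + j)‖ := by positivity
  have h2 : 0 ≤ e * ‖mulg 1 v (g + j + 1) - mulg 1 v (g + j)‖ := by positivity
  have h3 : 0 ≤ D ^ 2 * ‖v (g + j)‖ := by positivity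
  have h4 : 0 ≤ e * ‖v (g + j)‖ := by positivity
  linarith [mul_add e ‖mulg 1 v (g + j + 1) - mulg 1 v (g + j)‖ ‖v (g + j)‖]

theorem FS_D2 (hD : 0 ≤ D) (he : 0 ≤ e) {j : ℤ} (hj : |j| ≤ ((R + 1 : ℕ) : ℤ)) :
    D ^ 2 * ‖v (g + j)‖ ≤ FS R N D e v g := by
  refine le_trans ?_ (F0_le hD he hj)
  unfold F0
  have : (0 : ℝ) ≤ if g + j = N then ‖v N‖ else 0 := by split_ifs <;> positivity
  have h1 : 0 ≤ D * ‖v (g + j + 1) - v (g + j)‖ := by positivity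
  have h2 : 0 ≤ e * (‖mulg 1 v (g + j + 1) - mulg 1 v (g + j)‖ + ‖v (g + j)‖) := by positivity
  have h4 : 0 ≤ e ^ 2 * ‖mulg 2 v (g + j)‖ := by positivity
  linarith [mul_add e ‖mulg 1 v (g + j + 1) - mulg 1 v (g + j)‖ ‖v (g + j)‖]

theorem FS_d1 (hD : 0 ≤ D) (he : 0 ≤ e) {j : ℤ} (hj : |j| ≤ ((R + 1 : ℕ) : ℤ)) :
    e * ‖mulg 1 v (g + j + 1) - mulg 1 v (g + j)‖ ≤ FS R N D e v g := by
  refine le_trans ?_ (F0_le hD he hj)
  unfold F0
  have : (0 : ℝ) ≤ if g + j = N then ‖v N‖ else 0 := by split_ifs <;> positivity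
  have h1 : 0 ≤ D * ‖v (g + j + 1) - v (g + j)‖ := by positivity
  have h2 : 0 ≤ e * ‖v (g + j)‖ := by positivity
  have h3 : 0 ≤ D ^ 2 * ‖v (g + j)‖ := by positivity
  have h4 : 0 ≤ e ^ 2 * ‖mulg 2 v (g + j)‖ := by positivity
  linarith [mul_add e ‖mulg 1 v (g + j + 1) - mulg 1 v (g + j)‖ ‖v (g + j)‖]

theorem FS_N (hD : 0 ≤ D) (he : 0 ≤ e) {j : ℤ} (hj : |j| ≤ ((R + 1 : ℕ) : ℤ)) (h : g + j = N) :
    ‖v N‖ ≤ FS R N D e v g := by
  refine le_trans ?_ (F0_le hD he hj)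
  unfold F0
  rw [if_pos h]
  have h1 : 0 ≤ D * ‖v (g + j + 1) - v (g + j)‖ := by positivity
  have h2 : 0 ≤ e * (‖mulg 1 v (g + j + 1) - mulg 1 v (g + j)‖ + ‖v (g + j)‖) := by positivity
  have h3 : 0 ≤ D ^ 2 * ‖v (g + j)‖ := by positivity
  have h4 : 0 ≤ e ^ 2 * ‖mulg 2 v (g + j)‖ := by positivity
  linarith

theorem FS_De (hD : 0 ≤ D) (he : 0 ≤ e) {j : ℤ} (hj : |j| ≤ ((R + 1 : ℕ) : ℤ)) :
    D * e * ‖mulg 1 v (g + j)‖ ≤ FS R N D e v g := by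
  have h1 := FS_D2 (N := N) (v := v) (g := g) hD he hj
  have h2 := FS_e2 (N := N) (v := v) (g := g) hD he hj
  have h3 : ‖mulg 1 v (g + j)‖ = |((g + j : ℤ) : ℝ)| * ‖v (g + j)‖ := by
    unfold mulg
    rw [pow_one, norm_mul, Complex.norm_intCast]
  have h4 : ‖mulg 2 v (g + j)‖ = |((g + j : ℤ) : ℝ)| ^ 2 * ‖v (g + j)‖ := by
    unfold mulg
    rw [norm_mul, norm_pow, Complex.norm_intCast]
  rw [h4] at h2
  rw [h3]
  set a := |((g + j : ℤ) : ℝ)|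
  set u := ‖v (g + j)‖
  have hu : 0 ≤ u := norm_nonneg _
  have h5 := mul_nonneg hu (sq_nonneg (D - e * a))
  have h6 : u * (D - e * a) ^ 2 = D ^ 2 * u - 2 * (D * e * (a * u)) + e ^ 2 * (a ^ 2 * u) := by ring
  linarith

theorem FS_tele (hD : 0 ≤ D) (he : 0 ≤ e) {j : ℤ} (hj : |j| ≤ ((R + 1 : ℕ) : ℤ)) :
    D * ‖v (g + j) - v g‖ + e * ‖mulg 1 v (g + j) - mulg 1 v g‖ ≤ FS R N D e v g := by
  have h1 := tele v g (R + 1) j hj
  have h2 := tele (mulg 1 v) g (R + 1) j hj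
  have h3 : D * ‖v (g + j) - v g‖ + e * ‖mulg 1 v (g + j) - mulg 1 v g‖
      ≤ ∑ i ∈ Icc (-((R + 1 : ℕ) : ℤ)) ((R + 1 : ℕ) : ℤ), (D * ‖v (g + i + 1) - v (g + i)‖
        + e * ‖mulg 1 v (g + i + 1) - mulg 1 v (g + i)‖) := by
    rw [Finset.sum_add_distrib, ← Finset.mul_sum, ← Finset.mul_sum]
    exact add_le_add (mul_le_mul_of_nonneg_left h1 hD) (mul_le_mul_of_nonneg_left h2 he)
  refine h3.trans ?_
  unfold FS
  refine Finset.sum_le_sum fun i _ => ?_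
  unfold F0
  have : (0 : ℝ) ≤ if g + i = N then ‖v N‖ else 0 := by split_ifs <;> positivity
  have h2 : 0 ≤ e * ‖v (g + i)‖ := by positivity
  have h3 : 0 ≤ D ^ 2 * ‖v (g + i)‖ := by positivity
  have h4 : 0 ≤ e ^ 2 * ‖mulg 2 v (g + i)‖ := by positivity
  linarith [mul_add e ‖mulg 1 v (g + i + 1) - mulg 1 v (g + i)‖ ‖v (g + i)‖]

end

/-! ### the staircase equation -/

theorem rb1 (a n D u F : ℝ) (ha0 : 0 ≤ a) (ha : a ≤ D) (hn : 1 / 8 ≤ n) (hu : 0 ≤ u)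
    (W : D ^ 2 * u ≤ F) : (4 * a) ^ 2 / n * u ≤ 128 * F := by
  have h5 : (4 * a) ^ 2 / n ≤ 128 * D ^ 2 := by
    rw [div_le_iff₀ (by linarith)]
    have h7 := pow_le_pow_left₀ ha0 ha 2
    have h8 := mul_le_mul_of_nonneg_left hn (sq_nonneg D)
    linarith [mul_pow (4 : ℝ) a 2]
  calc (4 * a) ^ 2 / n * u ≤ 128 * D ^ 2 * u := mul_le_mul_of_nonneg_right h5 hu
    _ ≤ 128 * F := by linarith

theorem rb2 (n eps e y x' u F K : ℝ) (hn : n ≤ (eps * y) ^ 2) (heps : 0 ≤ eps) (he : eps ≤ e)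
    (hy0 : 0 ≤ y) (hK : 0 ≤ K) (hy : y ^ 2 ≤ K * x' ^ 2) (hu : 0 ≤ u)
    (U : e ^ 2 * (x' ^ 2 * u) ≤ F) : n * u ≤ K * F := by
  have h1 : n ≤ e ^ 2 * (K * x' ^ 2) := by
    refine hn.trans ?_
    rw [mul_pow]
    have h2 := pow_le_pow_left₀ heps he 2
    exact mul_le_mul h2 hy (sq_nonneg _) (sq_nonneg _)
  calc n * u ≤ e ^ 2 * (K * x' ^ 2) * u := mul_le_mul_of_nonneg_right h1 hu
    _ = K * (e ^ 2 * (x' ^ 2 * u)) := by ring
    _ ≤ K * F := mul_le_mul_of_nonneg_left U hK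

/-- estimate of the second difference in the bulk -/
theorem L2_est {R N : ℕ} {D e eps' : ℝ} {z' : ℂ} {v : ℤ → ℂ} {g : ℤ}
    (h : stair.Solves eps' z' N v (src1 z')) (hD : ‖(1 / 4 : ℂ) - z'‖ ≤ D)
    (he' : 0 ≤ eps') (he : eps' ≤ e) (hz : ‖(1 / 4 : ℂ) - z'‖ ≤ 1 / 8)
    (hg : (R : ℤ) + 1 ≤ g) {j : ℤ} (hj : |j| < R) :
    ‖L2 v (g + j) - (4 * (1 - 4 * z') + 8 * (eps' : ℂ) * ((g + j : ℤ) : ℂ)) * v (g + j)‖
      ≤ 155 * FS R N D e v g := by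
  have hD0 : 0 ≤ D := le_trans (norm_nonneg _) hD
  have he0 : 0 ≤ e := he'.trans he
  have hFS := FS_nonneg (R := R) (N := N) (v := v) (g := g) hD0 he0
  rw [abs_lt] at hj
  rcases lt_trichotomy (g + j) (N + 1) with hlt | heq | hgt
  · -- the stair equation
    have hx2 : 2 ≤ g + j := by omega
    have hxN : g + j ≤ N := by omega
    have E := stair_eq h (g + j) hx2 hxN
    have z0 : z' ≠ 0 := by
      rintro rfl
      rw [sub_zero] at hz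
      norm_num at hz
    have hz8 : 1 / 8 ≤ ‖z'‖ := by
      have h1 : ‖(1 / 4 : ℂ)‖ ≤ ‖(1 / 4 : ℂ) - z'‖ + ‖z'‖ := by
        calc ‖(1 / 4 : ℂ)‖ = ‖((1 / 4 : ℂ) - z') + z'‖ := by rw [sub_add_cancel]
          _ ≤ _ := norm_add_le _ _
      have h2 : ‖(1 / 4 : ℂ)‖ = 1 / 4 := by simp
      rw [h2] at h1
      linarith
    have hx0 : (0 : ℝ) ≤ ((g + j : ℤ) : ℝ) - 2 := by
      have : ((2 : ℤ) : ℝ) ≤ ((g + j : ℤ) : ℝ) := by exact_mod_cast hx2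
      push_cast at *
      linarith
    have T0 := FS_e1 (R := R) (N := N) (v := v) (g := g) hD0 he0 (j := j)
      (by rw [abs_le]; push_cast; omega)
    have Tp := FS_e1 (R := R) (N := N) (v := v) (g := g) hD0 he0 (j := j + 1)
      (by rw [abs_le]; push_cast; omega)
    have Tm := FS_e1 (R := R) (N := N) (v := v) (g := g) hD0 he0 (j := j - 1)
      (by rw [abs_le]; push_cast; omega)
    have U0 := FS_e2 (R := R) (N := N) (v := v) (g := g) hD0 he0 (j := j)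
      (by rw [abs_le]; push_cast; omega)
    have Up := FS_e2 (R := R) (N := N) (v := v) (g := g) hD0 he0 (j := j + 1)
      (by rw [abs_le]; push_cast; omega)
    have Um := FS_e2 (R := R) (N := N) (v := v) (g := g) hD0 he0 (j := j - 1)
      (by rw [abs_le]; push_cast; omega)
    have W0 := FS_D2 (R := R) (N := N) (v := v) (g := g) hD0 he0 (j := j)
      (by rw [abs_le]; push_cast; omega)
    have X0 := FS_d1 (R := R) (N := N) (v := v) (g := g) hD0 he0 (j := j)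
      (by rw [abs_le]; push_cast; omega)
    have Xm := FS_d1 (R := R) (N := N) (v := v) (g := g) hD0 he0 (j := j - 1)
      (by rw [abs_le]; push_cast; omega)
    rw [show g + (j + 1) = g + j + 1 by ring] at Tp Up
    rw [show g + (j - 1) = g + j - 1 by ring] at Tm Um Xm
    rw [show g + j - 1 + 1 = g + j by ring] at Xm
    generalize g + j = x at *
    set F := FS R N D e v g with hF
    have hx1 : (2 : ℝ) ≤ (x : ℝ) := by linarith
    -- norms of mulg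
    have n2 : ∀ y : ℤ, ‖mulg 2 v y‖ = (y : ℝ) ^ 2 * ‖v y‖ := by
      intro y
      unfold mulg
      rw [norm_mul, norm_pow, Complex.norm_intCast, sq_abs]
    rw [n2] at U0 Up Um
    -- exponentials
    have e0 := exp_est (eps' * (2 * x)) (by positivity)
    have ep := exp_est (eps' * (2 * x + 1)) (by positivity)
    have em := exp_est (eps' * (2 * x - 1)) (mul_nonneg he' (by linarith))
    have c0 : ‖(1 : ℂ) - (Real.exp (-(eps' * (2 * x))) : ℂ) - ((eps' * (2 * x) : ℝ) : ℂ)‖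
        ≤ (eps' * (2 * x)) ^ 2 := by
      rw [← Complex.ofReal_one, ← Complex.ofReal_sub, ← Complex.ofReal_sub, Complex.norm_real]
      exact e0
    have cp : ‖(1 : ℂ) - (Real.exp (-(eps' * (2 * x + 1))) : ℂ) - ((eps' * (2 * x + 1) : ℝ) : ℂ)‖
        ≤ (eps' * (2 * x + 1)) ^ 2 := by
      rw [← Complex.ofReal_one, ← Complex.ofReal_sub, ← Complex.ofReal_sub, Complex.norm_real]
      exact ep
    have cm : ‖(1 : ℂ) - (Real.exp (-(eps' * (2 * x - 1))) : ℂ) - ((eps' * (2 * x - 1) : ℝ) : ℂ)‖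
        ≤ (eps' * (2 * x - 1)) ^ 2 := by
      rw [← Complex.ofReal_one, ← Complex.ofReal_sub, ← Complex.ofReal_sub, Complex.norm_real]
      exact em
    generalize (Real.exp (-(eps' * (2 * (x : ℝ)))) : ℂ) = E0 at *
    generalize (Real.exp (-(eps' * (2 * (x : ℝ) + 1))) : ℂ) = Ep at *
    generalize (Real.exp (-(eps' * (2 * (x : ℝ) - 1))) : ℂ) = Em at *
    have key : L2 v x - (4 * (1 - 4 * z') + 8 * (eps' : ℂ) * (x : ℂ)) * v x
        = ((1 - 4 * z') ^ 2 / z') * v x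
          + 2 * (1 - E0 - ((eps' * (2 * x) : ℝ) : ℂ)) * v x
          + (1 - Ep - ((eps' * (2 * x + 1) : ℝ) : ℂ)) * v (x + 1)
          + (1 - Em - ((eps' * (2 * x - 1) : ℝ) : ℂ)) * v (x - 1)
          + (eps' : ℂ) * (2 * (mulg 1 v (x + 1) - mulg 1 v x) - 2 * (mulg 1 v x - mulg 1 v (x - 1))
            - v (x + 1) + v (x - 1)) := by
      have E' : v x / z' = 2 * E0 * v x + Ep * v (x + 1) + Em * v (x - 1) := by
        rw [div_eq_iff z0]
        linear_combination E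
      have E'' : ((1 - 4 * z') ^ 2 / z') * v x = v x / z' - 4 * v x - 4 * (1 - 4 * z') * v x := by
        rw [div_mul_eq_mul_div, div_eq_iff z0, sub_mul, sub_mul, div_mul_cancel₀ _ z0]
        ring
      rw [E'', E']
      unfold L2 mulg
      push_cast
      ring
    rw [key]
    refine (norm_add_le _ _).trans ?_
    refine (add_le_add (norm_add_le _ _) le_rfl).trans ?_
    refine (add_le_add (add_le_add (norm_add_le _ _) le_rfl) le_rfl).trans ?_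
    refine (add_le_add (add_le_add (add_le_add (norm_add_le _ _) le_rfl) le_rfl) le_rfl).trans ?_
    have b1 : ‖((1 - 4 * z') ^ 2 / z') * v x‖ ≤ 128 * F := by
      have h1 : (1 - 4 * z') = 4 * ((1 / 4 : ℂ) - z') := by ring
      rw [norm_mul, norm_div, norm_pow, h1, norm_mul]
      have h4 : ‖(4 : ℂ)‖ = 4 := by simp
      rw [h4]
      exact rb1 _ _ D _ _ (norm_nonneg _) hD hz8 (norm_nonneg _) W0
    have b2 : ‖2 * (1 - E0 - ((eps' * (2 * x) : ℝ) : ℂ)) * v x‖ ≤ 8 * F := by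
      rw [norm_mul, norm_mul]
      have h2 : ‖(2 : ℂ)‖ = 2 := by simp
      rw [h2]
      have := rb2 _ eps' e (2 * x) x _ F 4 c0 he' he (by linarith) (by norm_num)
        (le_of_eq (by ring)) (norm_nonneg _) U0
      linarith
    have b3 : ‖(1 - Ep - ((eps' * (2 * x + 1) : ℝ) : ℂ)) * v (x + 1)‖ ≤ 4 * F := by
      rw [norm_mul]
      refine rb2 _ eps' e (2 * x + 1) ((x + 1 : ℤ) : ℝ) _ F 4 cp he' he (by linarith) (by norm_num)
        ?_ (norm_nonneg _) Up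
      push_cast
      have h8 : 4 * ((x : ℝ) + 1) ^ 2 - (2 * (x : ℝ) + 1) ^ 2 = 4 * x + 3 := by ring
      linarith
    have b4 : ‖(1 - Em - ((eps' * (2 * x - 1) : ℝ) : ℂ)) * v (x - 1)‖ ≤ 9 * F := by
      rw [norm_mul]
      refine rb2 _ eps' e (2 * x - 1) ((x - 1 : ℤ) : ℝ) _ F 9 cm he' he (by linarith) (by norm_num)
        ?_ (norm_nonneg _) Um
      push_cast
      have h8 : 9 * ((x : ℝ) - 1) ^ 2 - (2 * (x : ℝ) - 1) ^ 2
        = ((x : ℝ) - 2) * (5 * x - 4) := by ring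
      have h9 : 0 ≤ ((x : ℝ) - 2) * (5 * x - 4) := mul_nonneg (by linarith) (by linarith)
      linarith
    have b5 : ‖(eps' : ℂ) * (2 * (mulg 1 v (x + 1) - mulg 1 v x)
        - 2 * (mulg 1 v x - mulg 1 v (x - 1)) - v (x + 1) + v (x - 1))‖ ≤ 6 * F := by
      rw [norm_mul, Complex.norm_real, Real.norm_of_nonneg he']
      have h1 : ‖2 * (mulg 1 v (x + 1) - mulg 1 v x)
        - 2 * (mulg 1 v x - mulg 1 v (x - 1)) - v (x + 1) + v (x - 1)‖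
          ≤ 2 * ‖mulg 1 v (x + 1) - mulg 1 v x‖ + 2 * ‖mulg 1 v x - mulg 1 v (x - 1)‖
            + ‖v (x + 1)‖ + ‖v (x - 1)‖ := by
        refine (norm_add_le _ _).trans (add_le_add ?_ le_rfl)
        refine (norm_sub_le _ _).trans (add_le_add ?_ le_rfl)
        refine (norm_sub_le _ _).trans ?_
        rw [norm_mul, norm_mul]
        simp only [Complex.norm_ofNat, le_refl]
      calc eps' * ‖2 * (mulg 1 v (x + 1) - mulg 1 v x)
        - 2 * (mulg 1 v x - mulg 1 v (x - 1)) - v (x + 1) + v (x - 1)‖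
          ≤ e * (2 * ‖mulg 1 v (x + 1) - mulg 1 v x‖ + 2 * ‖mulg 1 v x - mulg 1 v (x - 1)‖
            + ‖v (x + 1)‖ + ‖v (x - 1)‖) := by gcongr
        _ ≤ 6 * F := by linarith
    linarith
  · -- x = N + 1
    have h1 : v (g + j) = 0 := h.1 _ (by omega)
    have h2 : v (g + j + 1) = 0 := h.1 _ (by omega)
    have h3 : v (g + j - 1) = v N := by congr 1; omega
    have h4 := FS_N (R := R) (N := N) (v := v) (g := g) hD0 he0 (j := j - 1)
      (by rw [abs_le]; push_cast; omega) (by omega)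
    unfold L2
    rw [h1, h2, h3]
    simp only [mul_zero, zero_add, sub_zero]
    linarith
  · have h1 : v (g + j) = 0 := h.1 _ (by omega)
    have h2 : v (g + j + 1) = 0 := h.1 _ (by omega)
    have h3 : v (g + j - 1) = 0 := h.1 _ (by omega)
    unfold L2
    rw [h1, h2, h3]
    simp only [mul_zero, zero_add, sub_zero, norm_zero]
    positivity


theorem L2_est' {R N : ℕ} {D e eps' : ℝ} {z' : ℂ} {v : ℤ → ℂ} {g : ℤ}
    (h : stair.Solves eps' z' N v (src1 z')) (hD : ‖(1 / 4 : ℂ) - z'‖ ≤ D)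
    (he' : 0 ≤ eps') (he : eps' ≤ e) (hz : ‖(1 / 4 : ℂ) - z'‖ ≤ 1 / 8)
    (hg : (R : ℤ) + 1 ≤ g) {j : ℤ} (hj : |j| < R) :
    ‖L2 v (g + j) - (4 * (1 - 4 * z') + 8 * (eps' : ℂ) * (g : ℂ)) * v g‖
      ≤ 171 * FS R N D e v g := by
  have hD0 : 0 ≤ D := le_trans (norm_nonneg _) hD
  have he0 : 0 ≤ e := he'.trans he
  have h1 := L2_est h hD he' he hz hg hj
  have h2 := FS_tele (R := R) (N := N) (v := v) (g := g) hD0 he0 (j := j)
    (by push_cast; omega)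
  have e1 : L2 v (g + j) - (4 * (1 - 4 * z') + 8 * (eps' : ℂ) * (g : ℂ)) * v g
      = (L2 v (g + j) - (4 * (1 - 4 * z') + 8 * (eps' : ℂ) * ((g + j : ℤ) : ℂ)) * v (g + j))
        + 16 * ((1 / 4 : ℂ) - z') * (v (g + j) - v g)
        + 8 * (eps' : ℂ) * (mulg 1 v (g + j) - mulg 1 v g) := by
    unfold mulg
    ring
  rw [e1]
  refine (norm_add_le _ _).trans ?_
  refine (add_le_add (norm_add_le _ _) le_rfl).trans ?_
  have h3 : ‖16 * ((1 / 4 : ℂ) - z') * (v (g + j) - v g)‖ ≤ 16 * (D * ‖v (g + j) - v g‖) := by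
    rw [norm_mul, norm_mul]
    simp only [Complex.norm_ofNat]
    rw [mul_assoc]
    gcongr
  have h4 : ‖8 * (eps' : ℂ) * (mulg 1 v (g + j) - mulg 1 v g)‖
      ≤ 8 * (e * ‖mulg 1 v (g + j) - mulg 1 v g‖) := by
    rw [norm_mul, norm_mul]
    simp only [Complex.norm_ofNat]
    rw [Complex.norm_real, Real.norm_of_nonneg he', mul_assoc]
    gcongr
  have h5 : 0 ≤ D * ‖v (g + j) - v g‖ := by positivity
  have h6 : 0 ≤ e * ‖mulg 1 v (g + j) - mulg 1 v g‖ := by positivity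
  linarith

theorem sum_neg_Icc {E : Type} [AddCommMonoid E] (R : ℕ) (φ : ℤ → E) :
    ∑ d ∈ Icc (-(R : ℤ)) R, φ (-d) = ∑ d ∈ Icc (-(R : ℤ)) R, φ d := by
  refine Finset.sum_nbij' (fun d => -d) (fun d => -d) ?_ ?_ ?_ ?_ ?_
  · intro a ha; simp only [Finset.mem_Icc] at *; omega
  · intro a ha; simp only [Finset.mem_Icc] at *; omega
  · intro a _; simp
  · intro a _; simp
  · intro a _; rfl

theorem part_b (R : ℕ) (T : ℤ → ℝ) (hT : ∀ d, T (-d) = T d) (hT0 : ∀ d, 0 ≤ T d) (v : ℤ → ℂ)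
    (g : ℤ) (q : ℂ) (M : ℝ) (h : ∀ j : ℤ, |j| < R → ‖L2 v (g + j) - q‖ ≤ M) :
    ‖∑ d ∈ Icc (-(R : ℤ)) R, (T d : ℂ) * (v g - v (g + d))
      + (1 / 2) * ((∑ d ∈ Icc (-(R : ℤ)) R, (d : ℝ) ^ 2 * T d : ℝ) : ℂ) * q‖
      ≤ (1 / 2) * (∑ d ∈ Icc (-(R : ℤ)) R, (d : ℝ) ^ 2 * T d) * M := by
  have e1 : ∑ d ∈ Icc (-(R : ℤ)) R, (T d : ℂ) * v (g - d)
      = ∑ d ∈ Icc (-(R : ℤ)) R, (T d : ℂ) * v (g + d) := by
    rw [← sum_neg_Icc R (fun d => (T d : ℂ) * v (g + d))]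
    refine Finset.sum_congr rfl fun d _ => ?_
    rw [hT, sub_eq_add_neg]
  have e2 : ∑ d ∈ Icc (-(R : ℤ)) R, (T d : ℂ) * (v g - v (g + d))
      + (1 / 2) * ((∑ d ∈ Icc (-(R : ℤ)) R, (d : ℝ) ^ 2 * T d : ℝ) : ℂ) * q
      = -(1 / 2) * ∑ d ∈ Icc (-(R : ℤ)) R,
          (T d : ℂ) * (v (g + d) + v (g - d) - 2 * v g - (d : ℂ) ^ 2 * q) := by
    have e3 : ∑ d ∈ Icc (-(R : ℤ)) R,
          (T d : ℂ) * (v (g + d) + v (g - d) - 2 * v g - (d : ℂ) ^ 2 * q)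
        = ∑ d ∈ Icc (-(R : ℤ)) R, (T d : ℂ) * v (g + d)
          + ∑ d ∈ Icc (-(R : ℤ)) R, (T d : ℂ) * v (g - d)
          - 2 * ∑ d ∈ Icc (-(R : ℤ)) R, (T d : ℂ) * v g
          - (∑ d ∈ Icc (-(R : ℤ)) R, (d : ℂ) ^ 2 * (T d : ℂ)) * q := by
      rw [Finset.mul_sum, Finset.sum_mul, ← Finset.sum_add_distrib, ← Finset.sum_sub_distrib,
        ← Finset.sum_sub_distrib]
      exact Finset.sum_congr rfl fun d _ => by ring
    rw [e3, e1]
    push_cast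
    simp only [mul_sub, Finset.sum_sub_distrib]
    ring
  rw [e2, norm_mul]
  have h2 : ‖(-(1 / 2) : ℂ)‖ = 1 / 2 := by simp
  rw [h2, mul_assoc]
  refine mul_le_mul_of_nonneg_left ?_ (by norm_num)
  refine (norm_sum_le _ _).trans ?_
  rw [Finset.sum_mul]
  refine Finset.sum_le_sum fun d hd => ?_
  rw [Finset.mem_Icc] at hd
  rw [norm_mul, Complex.norm_real, Real.norm_of_nonneg (hT0 d)]
  have key : ‖v (g + d) + v (g - d) - 2 * v g - (d : ℂ) ^ 2 * q‖ ≤ (d : ℝ) ^ 2 * M := by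
    rcases le_or_gt 0 d with h0 | h0
    · obtain ⟨k, rfl⟩ := Int.eq_ofNat_of_zero_le h0
      have := second_diff v g q M R h k (by omega)
      simpa using this
    · obtain ⟨k, hk⟩ := Int.eq_ofNat_of_zero_le (by omega : (0 : ℤ) ≤ -d)
      have hk' : d = -(k : ℤ) := by omega
      subst hk'
      have := second_diff v g q M R h k (by omega)
      have e4 : v (g + -(k : ℤ)) + v (g - -(k : ℤ)) - 2 * v g - ((-(k : ℤ) : ℤ) : ℂ) ^ 2 * q
          = v (g + k) + v (g - k) - 2 * v g - (k : ℂ) ^ 2 * q := by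
        rw [sub_neg_eq_add, ← sub_eq_add_neg]
        push_cast
        ring
      rw [e4]
      refine this.trans (le_of_eq ?_)
      push_cast
      ring
  calc T d * ‖v (g + d) + v (g - d) - 2 * v g - (d : ℂ) ^ 2 * q‖
      ≤ T d * ((d : ℝ) ^ 2 * M) := mul_le_mul_of_nonneg_left key (hT0 d)
    _ = _ := by ring

theorem ra1 (n a m D rho u F : ℝ) (hn : n ≤ m ^ 2 * a ^ 2) (ha0 : 0 ≤ a) (ha : a ≤ D / rho)
    (hu : 0 ≤ u) (W : D ^ 2 * u ≤ F) : n * u ≤ m ^ 2 / rho ^ 2 * F := by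
  have h1 : n ≤ m ^ 2 * (D / rho) ^ 2 := hn.trans (by gcongr)
  calc n * u ≤ m ^ 2 * (D / rho) ^ 2 * u := mul_le_mul_of_nonneg_right h1 hu
    _ = m ^ 2 / rho ^ 2 * (D ^ 2 * u) := by rw [div_pow]; ring
    _ ≤ _ := mul_le_mul_of_nonneg_left W (by positivity)

theorem ra2 (n1 n2 θ eps e h R X u F : ℝ) (h1 : n1 ≤ 1) (h2 : n2 ≤ θ ^ 2) (h20 : 0 ≤ n2)
    (hθ0 : 0 ≤ θ) (hθ : θ ≤ eps * h * (2 + R) * X) (heps : 0 ≤ eps) (he : eps ≤ e)
    (hh : 0 ≤ h) (hR : 0 ≤ R) (hX : 0 ≤ X) (hu : 0 ≤ u) (U : e ^ 2 * (X ^ 2 * u) ≤ F) :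
    n1 * n2 * u ≤ h ^ 2 * (2 + R) ^ 2 * F := by
  have h3 : n1 * n2 ≤ n2 := by nlinarith
  have h4 : θ ≤ e * h * (2 + R) * X := hθ.trans (by gcongr)
  have h5 : n1 * n2 ≤ (e * h * (2 + R) * X) ^ 2 :=
    (h3.trans h2).trans (pow_le_pow_left₀ hθ0 h4 2)
  calc n1 * n2 * u ≤ (e * h * (2 + R) * X) ^ 2 * u := mul_le_mul_of_nonneg_right h5 hu
    _ = h ^ 2 * (2 + R) ^ 2 * (e ^ 2 * (X ^ 2 * u)) := by ring
    _ ≤ _ := mul_le_mul_of_nonneg_left U (by positivity)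

theorem ra3 (n θ m a D rho eps e h R X u F : ℝ) (hn : n ≤ m * a) (hn0 : 0 ≤ n) (ha0 : 0 ≤ a)
    (ha : a ≤ D / rho) (hθ0 : 0 ≤ θ) (hθ : θ ≤ eps * h * (2 + R) * X) (heps : 0 ≤ eps)
    (he : eps ≤ e) (hh : 0 ≤ h) (hR : 0 ≤ R) (hX : 0 ≤ X) (hu : 0 ≤ u) (hm : 0 ≤ m)
    (hrho : 0 < rho) (hD : 0 ≤ D) (Y : D * e * (X * u) ≤ F) :
    n * θ * u ≤ m * h * (2 + R) / rho * F := by
  have h4 : θ ≤ e * h * (2 + R) * X := hθ.trans (by gcongr)
  have h5 : n ≤ m * (D / rho) := hn.trans (by gcongr)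
  have h6 : n * θ ≤ m * (D / rho) * (e * h * (2 + R) * X) :=
    mul_le_mul h5 h4 hθ0 (by positivity)
  calc n * θ * u ≤ m * (D / rho) * (e * h * (2 + R) * X) * u := mul_le_mul_of_nonneg_right h6 hu
    _ = m * h * (2 + R) / rho * (D * e * (X * u)) := by ring
    _ ≤ _ := mul_le_mul_of_nonneg_left Y (by positivity)

theorem ra4 (eps e h d R u F k : ℝ) (heps : 0 ≤ eps) (he : eps ≤ e) (hh : 0 ≤ h)
    (hd0 : 0 ≤ d) (hd : d ≤ R) (hu : 0 ≤ u) (hk : 0 ≤ k) (T : e * u ≤ F) :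
    k * h * eps * d * u ≤ k * h * R * F := by
  have he0 : 0 ≤ e := heps.trans he
  have h1 : k * h * eps * d ≤ k * h * e * R := by gcongr
  calc k * h * eps * d * u ≤ k * h * e * R * u := mul_le_mul_of_nonneg_right h1 hu
    _ = k * h * R * (e * u) := by ring
    _ ≤ _ := mul_le_mul_of_nonneg_left T (by have := hd0.trans hd; positivity)

theorem ra5 (m a D rho u w F : ℝ) (ha : a ≤ D / rho) (hm : 0 ≤ m) (hrho : 0 < rho)
    (hu : 0 ≤ u) (hw : 0 ≤ w) (Z : D * u + w ≤ F) : m * a * u ≤ m / rho * F := by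
  have h1 : m * a ≤ m * (D / rho) := mul_le_mul_of_nonneg_left ha hm
  calc m * a * u ≤ m * (D / rho) * u := mul_le_mul_of_nonneg_right h1 hu
    _ = m / rho * (D * u) := by ring
    _ ≤ _ := mul_le_mul_of_nonneg_left (by linarith) (by positivity)

theorem ra6 (h eps e u w F : ℝ) (he : eps ≤ e) (hh : 0 ≤ h) (hu : 0 ≤ u) (hw : 0 ≤ w)
    (Z : w + e * u ≤ F) : 2 * h * eps * u ≤ 2 * h * F := by
  have h1 : 2 * h * eps ≤ 2 * h * e := by gcongr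
  calc 2 * h * eps * u ≤ 2 * h * e * u := mul_le_mul_of_nonneg_right h1 hu
    _ = 2 * h * (e * u) := by ring
    _ ≤ _ := mul_le_mul_of_nonneg_left (by linarith) (by positivity)

theorem final_sum (n1 n2 n3 n4 n5 n6 n7 c1 c2 c3 c4 c5 c6 c7 F : ℝ) (b1 : n1 ≤ c1 * F)
    (b2 : n2 ≤ c2 * F) (b3 : n3 ≤ c3 * F) (b4 : n4 ≤ c4 * F) (b5 : n5 ≤ c5 * F)
    (b6 : n6 ≤ c6 * F) (b7 : n7 ≤ c7 * F) :
    n1 + n2 + n3 + n4 + n5 + n6 + n7 ≤ (c1 + c2 + c3 + c4 + c5 + c6 + c7) * F := by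
  have : (c1 + c2 + c3 + c4 + c5 + c6 + c7) * F
      = c1 * F + c2 * F + c3 * F + c4 * F + c5 * F + c6 * F + c7 * F := by ring
  linarith

/-- constant of the first order part -/
noncomputable def C1 (R : ℕ) (rho : ℝ) (i : ℕ × ℕ) : ℝ :=
  (i.1 : ℝ) ^ 2 / rho ^ 2 + (i.2 : ℝ) ^ 2 * (2 + R) ^ 2 + (i.1 : ℝ) * i.2 * (2 + R) / rho
    + i.2 * R + i.1 / rho + 2 * i.2 + 2 * i.2 * R

theorem part_a {R N : ℕ} {D e eps rho : ℝ} {z : ℂ} {v : ℤ → ℂ} {g : ℤ} (hrho : 0 < rho)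
    (hD : ‖(rho : ℂ) - z‖ ≤ D)
    (heps : 0 ≤ eps) (he : eps ≤ e) (hz : ‖z‖ ≤ rho) (hg : (R : ℤ) + 1 ≤ g)
    (i : ℕ × ℕ) {d : ℤ} (hd : |d| ≤ R) :
    ‖(1 - (z / rho) ^ i.1 * (Real.exp (-(eps * i.2 * (2 * g + d))) : ℂ)) * v (g + d)
      - ((i.1 : ℂ) * (1 - z / rho) + 2 * i.2 * eps * g) * v g‖ ≤ C1 R rho i * FS R N D e v g := by
  have hD0 : 0 ≤ D := le_trans (norm_nonneg _) hD
  have he0 : 0 ≤ e := heps.trans he
  have hFS := FS_nonneg (R := R) (N := N) (v := v) (g := g) hD0 he0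
  have hrc : (rho : ℂ) ≠ 0 := by exact_mod_cast hrho.ne'
  have hd1 : |d| ≤ ((R + 1 : ℕ) : ℤ) := by push_cast; omega
  have T0 := FS_e1 (N := N) (v := v) (g := g) hD0 he0 hd1
  have U0 := FS_e2 (N := N) (v := v) (g := g) hD0 he0 hd1
  have W0 := FS_D2 (N := N) (v := v) (g := g) hD0 he0 hd1
  have Y0 := FS_De (N := N) (v := v) (g := g) hD0 he0 hd1
  have Z0 := FS_tele (N := N) (v := v) (g := g) hD0 he0 hd1
  have hζ : ‖z / rho‖ ≤ 1 := by
    rw [norm_div, Complex.norm_real, Real.norm_of_nonneg hrho.le, div_le_one hrho]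
    exact hz
  have ha : ‖1 - z / (rho : ℂ)‖ ≤ D / rho := by
    have : 1 - z / (rho : ℂ) = ((rho : ℂ) - z) / rho := by field_simp
    rw [this, norm_div, Complex.norm_real, Real.norm_of_nonneg hrho.le]
    gcongr
  have P2 := pow_est (z / rho) hζ i.1
  have P1 := pow_est1 (z / rho) hζ i.1
  have hζm : ‖(z / rho) ^ i.1‖ ≤ 1 := by
    rw [norm_pow]
    exact pow_le_one₀ (norm_nonneg _) hζ
  have hdR : |(d : ℝ)| ≤ R := by
    have : ((|d| : ℤ) : ℝ) ≤ ((R : ℤ) : ℝ) := by exact_mod_cast hd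
    simpa using this
  rw [abs_le] at hd
  have hgd : (0 : ℝ) ≤ 2 * (g : ℝ) + d := by
    have : ((0 : ℤ) : ℝ) ≤ ((2 * g + d : ℤ) : ℝ) := by exact_mod_cast (by omega : (0 : ℤ) ≤ 2 * g + d)
    push_cast at this
    linarith
  set θ : ℝ := eps * i.2 * (2 * g + d) with hθ
  have hθ0 : 0 ≤ θ := by positivity
  have ee := exp_est θ hθ0
  have ce : ‖(1 : ℂ) - (Real.exp (-θ) : ℂ) - (θ : ℂ)‖ ≤ θ ^ 2 := by
    rw [← Complex.ofReal_one, ← Complex.ofReal_sub, ← Complex.ofReal_sub, Complex.norm_real]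
    exact ee
  -- θ ‖v x‖ ≤ eps h (2+R) ‖x v x‖
  have n1 : ‖mulg 1 v (g + d)‖ = |((g + d : ℤ) : ℝ)| * ‖v (g + d)‖ := by
    unfold mulg
    rw [pow_one, norm_mul, Complex.norm_intCast]
  have n2 : ‖mulg 2 v (g + d)‖ = |((g + d : ℤ) : ℝ)| ^ 2 * ‖v (g + d)‖ := by
    unfold mulg
    rw [norm_mul, norm_pow, Complex.norm_intCast]
  have hx1 : (1 : ℝ) ≤ |((g + d : ℤ) : ℝ)| := by
    have : ((1 : ℤ) : ℝ) ≤ ((g + d : ℤ) : ℝ) := by exact_mod_cast (by omega : (1 : ℤ) ≤ g + d)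
    refine le_trans ?_ (le_abs_self _)
    simpa using this
  have hθx : θ ≤ eps * i.2 * (2 + R) * |((g + d : ℤ) : ℝ)| := by
    rw [hθ]
    have h1 : 2 * (g : ℝ) + d ≤ (2 + R) * |((g + d : ℤ) : ℝ)| := by
      have h2 : ((g + d : ℤ) : ℝ) ≤ |((g + d : ℤ) : ℝ)| := le_abs_self _
      have h3 : -(d : ℝ) ≤ R := by
        have := neg_abs_le (d : ℝ)
        linarith
      have hR0 : (0 : ℝ) ≤ R := by positivity
      push_cast at *
      have h5 := mul_le_mul_of_nonneg_left hx1 hR0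
      linarith
    calc eps * i.2 * (2 * g + d) ≤ eps * i.2 * ((2 + R) * |((g + d : ℤ) : ℝ)|) := by gcongr
      _ = _ := by ring
  set X : ℝ := |((g + d : ℤ) : ℝ)| with hX
  set u : ℂ := v (g + d) with hu
  set F := FS R N D e v g with hF
  have key : (1 - (z / rho) ^ i.1 * (Real.exp (-θ) : ℂ)) * u
      - ((i.1 : ℂ) * (1 - z / rho) + 2 * i.2 * eps * g) * v g
      = (1 - (z / rho) ^ i.1 - i.1 * (1 - z / rho)) * u
        + (z / rho) ^ i.1 * (1 - (Real.exp (-θ) : ℂ) - (θ : ℂ)) * u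
        + ((z / rho) ^ i.1 - 1) * θ * u
        + (eps : ℂ) * i.2 * d * u
        + i.1 * (1 - z / rho) * (u - v g)
        + 2 * i.2 * eps * (mulg 1 v (g + d) - mulg 1 v g)
        - 2 * i.2 * eps * d * u := by
    have hθc : (θ : ℂ) = eps * i.2 * (2 * g + d) := by rw [hθ]; push_cast; ring
    unfold mulg
    rw [hθc, ← hu]
    push_cast
    ring
  rw [key]
  have hR0 : (0 : ℝ) ≤ R := by positivity
  have hi2 : (0 : ℝ) ≤ i.2 := by positivity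
  have hi1 : (0 : ℝ) ≤ i.1 := by positivity
  have hu0 : 0 ≤ ‖u‖ := norm_nonneg _
  have hX0 : 0 ≤ X := abs_nonneg _
  have ha0 : 0 ≤ ‖1 - z / (rho : ℂ)‖ := norm_nonneg _
  rw [n1] at Y0
  rw [n2] at U0
  have b1 : ‖(1 - (z / rho) ^ i.1 - i.1 * (1 - z / rho)) * u‖ ≤ (i.1 : ℝ) ^ 2 / rho ^ 2 * F := by
    rw [norm_mul]
    exact ra1 _ _ _ _ _ _ _ P2 ha0 ha hu0 W0
  have b2 : ‖(z / rho) ^ i.1 * (1 - (Real.exp (-θ) : ℂ) - (θ : ℂ)) * u‖
      ≤ (i.2 : ℝ) ^ 2 * (2 + R) ^ 2 * F := by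
    rw [norm_mul, norm_mul]
    exact ra2 _ _ θ eps e _ _ X _ _ hζm ce (norm_nonneg _) hθ0 hθx heps he hi2 hR0 hX0 hu0 U0
  have b3 : ‖((z / rho) ^ i.1 - 1) * θ * u‖ ≤ (i.1 : ℝ) * i.2 * (2 + R) / rho * F := by
    rw [norm_mul, norm_mul, Complex.norm_real, Real.norm_of_nonneg hθ0]
    exact ra3 _ θ _ _ D rho eps e _ _ X _ _ P1 (norm_nonneg _) ha0 ha hθ0 hθx heps he hi2 hR0 hX0
      hu0 hi1 hrho hD0 Y0
  have b4 : ‖(eps : ℂ) * i.2 * d * u‖ ≤ i.2 * R * F := by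
    rw [norm_mul, norm_mul, norm_mul, Complex.norm_real, Real.norm_of_nonneg heps,
      Complex.norm_natCast, Complex.norm_intCast]
    have := ra4 eps e _ _ _ _ _ 1 heps he hi2 (abs_nonneg (d : ℝ)) hdR hu0 zero_le_one T0
    rw [one_mul, mul_comm (i.2 : ℝ) eps] at this
    exact this
  have b5 : ‖(i.1 : ℂ) * (1 - z / rho) * (u - v g)‖ ≤ i.1 / rho * F := by
    rw [norm_mul, norm_mul, Complex.norm_natCast]
    exact ra5 _ _ D _ _ _ _ ha hi1 hrho (norm_nonneg _) (mul_nonneg he0 (norm_nonneg _)) Z0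
  have b6 : ‖2 * (i.2 : ℂ) * eps * (mulg 1 v (g + d) - mulg 1 v g)‖ ≤ 2 * i.2 * F := by
    rw [norm_mul, norm_mul, norm_mul, Complex.norm_real, Real.norm_of_nonneg heps,
      Complex.norm_natCast, Complex.norm_ofNat]
    exact ra6 _ _ e _ _ _ he hi2 (norm_nonneg _) (mul_nonneg hD0 (norm_nonneg _)) Z0
  have b7 : ‖2 * (i.2 : ℂ) * eps * d * u‖ ≤ 2 * i.2 * R * F := by
    rw [norm_mul, norm_mul, norm_mul, norm_mul, Complex.norm_real, Real.norm_of_nonneg heps,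
      Complex.norm_natCast, Complex.norm_intCast, Complex.norm_ofNat]
    exact ra4 eps e _ _ _ _ _ 2 heps he hi2 (abs_nonneg (d : ℝ)) hdR hu0 (by norm_num) T0
  refine (norm_sub_le _ _).trans ?_
  refine (add_le_add (norm_add_le _ _) le_rfl).trans ?_
  refine (add_le_add (add_le_add (norm_add_le _ _) le_rfl) le_rfl).trans ?_
  refine (add_le_add (add_le_add (add_le_add (norm_add_le _ _) le_rfl) le_rfl) le_rfl).trans ?_
  refine (add_le_add (add_le_add (add_le_add (add_le_add (norm_add_le _ _) le_rfl) le_rfl) le_rfl)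
    le_rfl).trans ?_
  refine (add_le_add (add_le_add (add_le_add (add_le_add (add_le_add (norm_add_le _ _) le_rfl)
    le_rfl) le_rfl) le_rfl) le_rfl).trans ?_
  unfold C1
  exact final_sum _ _ _ _ _ _ _ _ _ _ _ _ _ _ _ b1 b2 b3 b4 b5 b6 b7


theorem Lop_formula (G : GapKernel) {eps : ℝ} {z : ℂ} {N : ℕ} {v : ℤ → ℂ} {g : ℤ}
    (hs : ∀ x : ℤ, (x < 1 ∨ (N : ℤ) < x) → v x = 0) (hg : (G.R : ℤ) + 1 ≤ g) :
    G.Lop eps z N v g = v g - ∑ i ∈ G.S, ∑ d ∈ Icc (-(G.R : ℤ)) G.R,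
      z ^ i.1 * ((G.T i d * Real.exp (-(eps * i.2 * (2 * g + d))) : ℝ) : ℂ) * v (g + d) := by
  unfold GapKernel.Lop GapKernel.Kap GapKernel.Kz
  congr 1
  simp only [Finset.sum_mul]
  rw [Finset.sum_comm]
  refine Finset.sum_congr rfl fun i _ => ?_
  have e1 : ∑ y ∈ Icc (1 : ℤ) N, ((i.1 : ℂ)) ^ 0 * z ^ i.1
        * ((G.K i g y * wt eps i g y : ℝ) : ℂ) * v y
      = ∑ y ∈ Icc (1 : ℤ) N, z ^ i.1 * ((G.T i (y - g)
          * Real.exp (-(eps * i.2 * (g + y))) : ℝ) : ℂ) * v y := by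
    refine Finset.sum_congr rfl fun y hy => ?_
    rw [Finset.mem_Icc] at hy
    rw [G.K_eq i g y (by omega) hy.1 (by omega)]
    unfold wt
    rw [pow_zero, one_mul]
  rw [e1]
  have e2 : ∑ d ∈ Icc (-(G.R : ℤ)) G.R,
      z ^ i.1 * ((G.T i d * Real.exp (-(eps * i.2 * (2 * g + d))) : ℝ) : ℂ) * v (g + d)
      = ∑ y ∈ (Icc (-(G.R : ℤ)) G.R).map (addLeftEmbedding g), z ^ i.1 * ((G.T i (y - g)
          * Real.exp (-(eps * i.2 * (g + y))) : ℝ) : ℂ) * v y := by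
    rw [Finset.sum_map]
    refine Finset.sum_congr rfl fun d _ => ?_
    simp only [addLeftEmbedding_apply]
    rw [show g + d - g = d by ring]
    have : (2 * (g : ℝ) + d) = g + ((g + d : ℤ) : ℝ) := by push_cast; ring
    rw [this]
  rw [e2]
  apply sum_eq_of_supp
  · intro y hy
    rw [hs y (by rw [Finset.mem_Icc] at hy; omega), mul_zero]
  · intro y hy
    have : G.T i (y - g) = 0 := by
      apply G.T_range
      by_contra hcon
      push Not at hcon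
      rw [abs_le] at hcon
      apply hy
      rw [Finset.mem_map]
      refine ⟨y - g, ?_, ?_⟩
      · rw [Finset.mem_Icc]; exact hcon
      · simp
    rw [this]
    simp

/-- second moment of a piece type -/
noncomputable def s2 (G : GapKernel) (i : ℕ × ℕ) : ℝ :=
  ∑ d ∈ Icc (-(G.R : ℤ)) G.R, (d : ℝ) ^ 2 * G.T i d

/-- total constant -/
noncomputable def CT (G : GapKernel) : ℝ :=
  ∑ i ∈ G.S, G.rho ^ i.1 * (G.tot i * C1 G.R G.rho i + 1 / 2 * s2 G i * 171)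

theorem C1_nonneg (R : ℕ) (rho : ℝ) (hr : 0 < rho) (i : ℕ × ℕ) : 0 ≤ C1 R rho i := by
  unfold C1
  positivity

theorem tot_nonneg (G : GapKernel) (i : ℕ × ℕ) : 0 ≤ G.tot i :=
  Finset.sum_nonneg fun _ _ => G.T_nonneg _ _

theorem s2_nonneg (G : GapKernel) (i : ℕ × ℕ) : 0 ≤ s2 G i :=
  Finset.sum_nonneg fun _ _ => mul_nonneg (sq_nonneg _) (G.T_nonneg _ _)

theorem CT_nonneg (G : GapKernel) : 0 ≤ CT G := by
  refine Finset.sum_nonneg fun i _ => ?_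
  have h1 := C1_nonneg G.R G.rho G.rho_pos i
  have h2 := tot_nonneg G i
  have h3 := s2_nonneg G i
  have h4 := G.rho_pos
  positivity

/-- the pointwise estimate -/
theorem pointwise (G : GapKernel) {N : ℕ} {D e eps eps' : ℝ} {z z' : ℂ} {v : ℤ → ℂ} {g : ℤ}
    (h : stair.Solves eps' z' N v (src1 z'))
    (hD : ‖(G.rho : ℂ) - z‖ ≤ D) (hD' : ‖(1 / 4 : ℂ) - z'‖ ≤ D)
    (heps : 0 ≤ eps) (he : eps ≤ e) (heps' : 0 ≤ eps') (he' : eps' ≤ e)
    (hz : ‖z‖ ≤ G.rho) (hz' : ‖(1 / 4 : ℂ) - z'‖ ≤ 1 / 8)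
    (hg : (G.R : ℤ) + 1 ≤ g) :
    ‖G.Lop eps z N v g - (((G.mbar : ℂ) * (1 - z / (G.rho : ℂ)) - 2 * (G.sig2 : ℂ) * (1 - 4 * z'))
        * v g + 2 * ((G.hbar * eps - 2 * G.sig2 * eps' : ℝ) : ℂ) * mulg 1 v g)‖
      ≤ CT G * FS G.R N D e v g := by
  set q : ℂ := (4 * (1 - 4 * z') + 8 * (eps' : ℂ) * (g : ℂ)) * v g with hq
  set F := FS G.R N D e v g with hF
  have hrc : (G.rho : ℂ) ≠ 0 := by exact_mod_cast G.rho_pos.ne'
  rw [Lop_formula G h.1 hg]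
  -- decomposition
  have crit' : ∑ i ∈ G.S, (G.rho : ℂ) ^ i.1 * (G.tot i : ℂ) = 1 := by
    have := G.crit
    have h2 : ((∑ i ∈ G.S, G.rho ^ i.1 * G.tot i : ℝ) : ℂ) = ((1 : ℝ) : ℂ) := by
      congr 1
    push_cast at h2
    exact h2
  have tot' : ∀ i, (G.tot i : ℂ) = ∑ d ∈ Icc (-(G.R : ℤ)) G.R, (G.T i d : ℂ) := by
    intro i; unfold GapKernel.tot; push_cast; rfl
  have dec : v g - ∑ i ∈ G.S, ∑ d ∈ Icc (-(G.R : ℤ)) G.R,
      z ^ i.1 * ((G.T i d * Real.exp (-(eps * i.2 * (2 * g + d))) : ℝ) : ℂ) * v (g + d)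
      - (((G.mbar : ℂ) * (1 - z / (G.rho : ℂ)) - 2 * (G.sig2 : ℂ) * (1 - 4 * z'))
        * v g + 2 * ((G.hbar * eps - 2 * G.sig2 * eps' : ℝ) : ℂ) * mulg 1 v g)
      = ∑ i ∈ G.S, (G.rho : ℂ) ^ i.1 * ((∑ d ∈ Icc (-(G.R : ℤ)) G.R, (G.T i d : ℂ) *
          ((1 - (z / G.rho) ^ i.1 * (Real.exp (-(eps * i.2 * (2 * g + d))) : ℂ)) * v (g + d)
          - ((i.1 : ℂ) * (1 - z / G.rho) + 2 * i.2 * eps * g) * v g))
        + (∑ d ∈ Icc (-(G.R : ℤ)) G.R, (G.T i d : ℂ) * (v g - v (g + d))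
          + (1 / 2) * ((s2 G i : ℝ) : ℂ) * q)) := by
    have h1 : v g = ∑ i ∈ G.S, (G.rho : ℂ) ^ i.1 * (G.tot i : ℂ) * v g := by
      rw [← Finset.sum_mul, crit', one_mul]
    have h2 : ((G.mbar : ℂ) * (1 - z / (G.rho : ℂ)) - 2 * (G.sig2 : ℂ) * (1 - 4 * z'))
        * v g + 2 * ((G.hbar * eps - 2 * G.sig2 * eps' : ℝ) : ℂ) * mulg 1 v g
        = ∑ i ∈ G.S, (G.rho : ℂ) ^ i.1 * ((G.tot i : ℂ)
            * ((i.1 : ℂ) * (1 - z / G.rho) + 2 * i.2 * eps * g) * v g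
            - (1 / 2) * ((s2 G i : ℝ) : ℂ) * q) := by
      have m1 : (G.mbar : ℂ) = ∑ i ∈ G.S, (i.1 : ℂ) * (G.rho : ℂ) ^ i.1 * (G.tot i : ℂ) := by
        unfold GapKernel.mbar; push_cast; rfl
      have m2 : (G.hbar : ℂ) = ∑ i ∈ G.S, (i.2 : ℂ) * (G.rho : ℂ) ^ i.1 * (G.tot i : ℂ) := by
        unfold GapKernel.hbar; push_cast; rfl
      have m3 : (G.sig2 : ℂ) = ∑ i ∈ G.S, (G.rho : ℂ) ^ i.1 * ((s2 G i : ℝ) : ℂ) := by
        unfold GapKernel.sig2 s2; push_cast; rfl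
      have e1 : ∑ i ∈ G.S, (G.rho : ℂ) ^ i.1 * ((G.tot i : ℂ)
            * ((i.1 : ℂ) * (1 - z / G.rho) + 2 * i.2 * eps * g) * v g
            - (1 / 2) * ((s2 G i : ℝ) : ℂ) * q)
          = (∑ i ∈ G.S, (i.1 : ℂ) * (G.rho : ℂ) ^ i.1 * (G.tot i : ℂ)) * ((1 - z / G.rho) * v g)
            + (∑ i ∈ G.S, (i.2 : ℂ) * (G.rho : ℂ) ^ i.1 * (G.tot i : ℂ)) * (2 * eps * g * v g)
            - (∑ i ∈ G.S, (G.rho : ℂ) ^ i.1 * ((s2 G i : ℝ) : ℂ)) * ((1 / 2) * q) := by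
        rw [Finset.sum_mul, Finset.sum_mul, Finset.sum_mul, ← Finset.sum_add_distrib,
          ← Finset.sum_sub_distrib]
        exact Finset.sum_congr rfl fun i _ => by ring
      rw [e1, ← m1, ← m2, ← m3, hq]
      unfold mulg
      push_cast
      ring
    have h1' : ∀ A B : ℂ, v g - A - B
        = (∑ i ∈ G.S, (G.rho : ℂ) ^ i.1 * (G.tot i : ℂ) * v g) - A - B := by
      intro A B; rw [← h1]
    rw [h2, h1', ← Finset.sum_sub_distrib, ← Finset.sum_sub_distrib]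
    refine Finset.sum_congr rfl fun i _ => ?_
    have e2 : ∑ d ∈ Icc (-(G.R : ℤ)) G.R, (G.T i d : ℂ) *
          ((1 - (z / G.rho) ^ i.1 * (Real.exp (-(eps * i.2 * (2 * g + d))) : ℂ)) * v (g + d)
          - ((i.1 : ℂ) * (1 - z / G.rho) + 2 * i.2 * eps * g) * v g)
        = ∑ d ∈ Icc (-(G.R : ℤ)) G.R, (G.T i d : ℂ) * v (g + d)
          - ∑ d ∈ Icc (-(G.R : ℤ)) G.R, (z / G.rho) ^ i.1
              * ((G.T i d : ℂ) * (Real.exp (-(eps * i.2 * (2 * g + d))) : ℂ)) * v (g + d)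
          - (G.tot i : ℂ) * (((i.1 : ℂ) * (1 - z / G.rho) + 2 * i.2 * eps * g) * v g) := by
      rw [tot', Finset.sum_mul, ← Finset.sum_sub_distrib, ← Finset.sum_sub_distrib]
      exact Finset.sum_congr rfl fun i _ => by ring
    have e3 : ∑ d ∈ Icc (-(G.R : ℤ)) G.R, (G.T i d : ℂ) * (v g - v (g + d))
        = (G.tot i : ℂ) * v g - ∑ d ∈ Icc (-(G.R : ℤ)) G.R, (G.T i d : ℂ) * v (g + d) := by
      rw [tot', Finset.sum_mul, ← Finset.sum_sub_distrib]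
      exact Finset.sum_congr rfl fun i _ => by ring
    have e4 : ∑ d ∈ Icc (-(G.R : ℤ)) G.R,
        z ^ i.1 * ((G.T i d * Real.exp (-(eps * i.2 * (2 * g + d))) : ℝ) : ℂ) * v (g + d)
        = (G.rho : ℂ) ^ i.1 * ∑ d ∈ Icc (-(G.R : ℤ)) G.R, (z / G.rho) ^ i.1
              * ((G.T i d : ℂ) * (Real.exp (-(eps * i.2 * (2 * g + d))) : ℂ)) * v (g + d) := by
      rw [Finset.mul_sum]
      refine Finset.sum_congr rfl fun d _ => ?_
      rw [div_pow, Complex.ofReal_mul]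
      field_simp
    rw [e2, e3, e4]
    ring
  rw [dec]
  refine (norm_sum_le _ _).trans ?_
  unfold CT
  rw [Finset.sum_mul]
  refine Finset.sum_le_sum fun i _ => ?_
  rw [norm_mul, norm_pow, Complex.norm_real, Real.norm_of_nonneg G.rho_pos.le,
    mul_assoc (G.rho ^ i.1)]
  refine mul_le_mul_of_nonneg_left ?_ (pow_nonneg G.rho_pos.le _)
  refine (norm_add_le _ _).trans ?_
  rw [add_mul (G.tot i * C1 G.R G.rho i)]
  refine add_le_add ?_ ?_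
  · refine (norm_sum_le _ _).trans ?_
    unfold GapKernel.tot
    rw [Finset.sum_mul, Finset.sum_mul]
    refine Finset.sum_le_sum fun d hd => ?_
    rw [norm_mul, Complex.norm_real, Real.norm_of_nonneg (G.T_nonneg _ _), mul_assoc (G.T i d)]
    refine mul_le_mul_of_nonneg_left ?_ (G.T_nonneg _ _)
    rw [Finset.mem_Icc] at hd
    exact part_a G.rho_pos hD heps he hz hg i (abs_le.mpr hd)
  · have := part_b G.R (G.T i) (G.T_even i) (G.T_nonneg i) v g q (171 * F)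
      (fun j hj => L2_est' h hD' heps' he' hz' hg hj)
    unfold s2
    refine this.trans (le_of_eq ?_)
    ring


theorem F0_out {N : ℕ} {D e : ℝ} {v : ℤ → ℂ}
    (hs : ∀ x : ℤ, (x < 1 ∨ (N : ℤ) < x) → v x = 0) (x : ℤ) (hx : x ∉ Icc (0 : ℤ) N) :
    F0 N D e v x = 0 := by
  rw [Finset.mem_Icc] at hx
  have h1 : v x = 0 := hs x (by omega)
  have h2 : v (x + 1) = 0 := hs (x + 1) (by omega)
  unfold F0 mulg
  rw [h1, h2, if_neg (by omega)]
  simp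

theorem nr_F0 {N : ℕ} {D e : ℝ} {v : ℤ → ℂ} (hD : 0 ≤ D) (he : 0 ≤ e)
    (hs : ∀ x : ℤ, (x < 1 ∨ (N : ℤ) < x) → v x = 0) :
    nr (Icc (0 : ℤ) N) (F0 N D e v) ≤ D * Real.sqrt (En N v)
      + e * (Real.sqrt (En N (mulg 1 v)) + Real.sqrt (nsq N v))
      + D ^ 2 * Real.sqrt (nsq N v) + e ^ 2 * Real.sqrt (nsq N (mulg 2 v)) + ‖v N‖ := by
  have hv0 : v 0 = 0 := hs 0 (by omega)
  have split0 : ∀ φ : ℤ → ℝ, φ 0 = 0 → ∑ x ∈ Icc (0 : ℤ) N, φ x = ∑ x ∈ Icc (1 : ℤ) N, φ x := by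
    intro φ hφ
    symm
    refine Finset.sum_subset ?_ ?_
    · intro x hx; rw [Finset.mem_Icc] at *; omega
    · intro x hx hx'
      rw [Finset.mem_Icc] at hx hx'
      have : x = 0 := by omega
      rw [this, hφ]
  have a1 : nr (Icc (0 : ℤ) N) (fun x => ‖v (x + 1) - v x‖) = Real.sqrt (En N v) := rfl
  have a2 : nr (Icc (0 : ℤ) N) (fun x => ‖mulg 1 v (x + 1) - mulg 1 v x‖)
      = Real.sqrt (En N (mulg 1 v)) := rfl
  have a3 : nr (Icc (0 : ℤ) N) (fun x => ‖v x‖) = Real.sqrt (nsq N v) := by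
    unfold nr nsq
    rw [split0 (fun x => ‖v x‖ ^ 2) (by simp [hv0])]
  have a4 : nr (Icc (0 : ℤ) N) (fun x => ‖mulg 2 v x‖) = Real.sqrt (nsq N (mulg 2 v)) := by
    unfold nr nsq
    rw [split0 (fun x => ‖mulg 2 v x‖ ^ 2) (by simp [mulg, hv0])]
  have a5 : nr (Icc (0 : ℤ) N) (fun x => if x = N then ‖v N‖ else 0) = ‖v N‖ := by
    unfold nr
    have : ∑ g ∈ Icc (0 : ℤ) N, (if g = (N : ℤ) then ‖v N‖ else 0) ^ 2 = ‖v N‖ ^ 2 := by
      rw [Finset.sum_eq_single (N : ℤ)]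
      · simp
      · intro b _ hb; simp [hb]
      · intro hN
        exact absurd (by rw [Finset.mem_Icc]; omega) hN
    rw [this, Real.sqrt_sq (norm_nonneg _)]
  unfold F0
  refine (nr_add _ _ _).trans (add_le_add ?_ a5.le)
  refine (nr_add _ _ _).trans (add_le_add ?_ ?_)
  · refine (nr_add _ _ _).trans (add_le_add ?_ ?_)
    · refine (nr_add _ _ _).trans (add_le_add ?_ ?_)
      · rw [nr_mul _ _ hD, a1]
      · rw [nr_mul _ _ he]
        refine mul_le_mul_of_nonneg_left ?_ he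
        refine (nr_add _ _ _).trans ?_
        rw [a2, a3]
    · rw [nr_mul _ _ (sq_nonneg D), a3]
  · rw [nr_mul _ _ (sq_nonneg e), a4]

end EBaux

open Pool.Agent.KCG.EBaux in
theorem EB : EB_Stmt := by
  intro G
  set C : ℝ := CT G * (2 * (G.R + 1) + 1) + 1 with hC
  refine ⟨C, ?_, ?_⟩
  · have := CT_nonneg G
    rw [hC]
    positivity
  intro N eps eps' z z' v h1 _ h2 _ hz _ hz' hs
  set D : ℝ := ‖(G.rho : ℂ) - z‖ + ‖(1 / 4 : ℂ) - z'‖ with hD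
  set e : ℝ := eps + eps' with he
  have hD0 : 0 ≤ D := by positivity
  have he0 : 0 ≤ e := by positivity
  have hDa : ‖(G.rho : ℂ) - z‖ ≤ D := by rw [hD]; have := norm_nonneg ((1 / 4 : ℂ) - z'); linarith
  have hDb : ‖(1 / 4 : ℂ) - z'‖ ≤ D := by rw [hD]; have := norm_nonneg ((G.rho : ℂ) - z); linarith
  set s := Icc ((G.R : ℤ) + 1) N with hsdef
  set a : ℝ := ‖2 * (G.sig2 : ℂ) * (1 - 4 * z') - (G.mbar : ℂ) * (1 - z / (G.rho : ℂ))‖ with ha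
  set b : ℝ := 2 * |2 * G.sig2 * eps' - G.hbar * eps| with hb
  have pt : ∀ g ∈ s, ‖G.Lop eps z N v g‖
      ≤ (a * ‖v g‖ + b * ‖mulg 1 v g‖) + CT G * FS G.R N D e v g := by
    intro g hg
    rw [hsdef, Finset.mem_Icc] at hg
    have := pointwise G hs hDa hDb h1 (by linarith : eps ≤ e) h2 (by linarith : eps' ≤ e) hz hz'
      hg.1
    set m : ℂ := ((G.mbar : ℂ) * (1 - z / (G.rho : ℂ)) - 2 * (G.sig2 : ℂ) * (1 - 4 * z'))
        * v g + 2 * ((G.hbar * eps - 2 * G.sig2 * eps' : ℝ) : ℂ) * mulg 1 v g with hm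
    have h3 : ‖G.Lop eps z N v g‖ ≤ ‖m‖ + ‖G.Lop eps z N v g - m‖ := by
      calc ‖G.Lop eps z N v g‖ = ‖m + (G.Lop eps z N v g - m)‖ := by rw [add_sub_cancel]
        _ ≤ _ := norm_add_le _ _
    have h4 : ‖m‖ ≤ a * ‖v g‖ + b * ‖mulg 1 v g‖ := by
      rw [hm]
      refine (norm_add_le _ _).trans (add_le_add ?_ ?_)
      · rw [norm_mul, ha, norm_sub_rev]
      · rw [norm_mul, norm_mul, Complex.norm_ofNat, Complex.norm_real, hb, Real.norm_eq_abs,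
          abs_sub_comm]
    linarith
  have L : Real.sqrt (∑ g ∈ s, ‖G.Lop eps z N v g‖ ^ 2) = nr s (fun g => ‖G.Lop eps z N v g‖) := rfl
  rw [L]
  have sub1 : ∀ φ : ℤ → ℂ, nr s (fun g => ‖φ g‖) ≤ Real.sqrt (nsq N φ) := by
    intro φ
    unfold nr nsq
    apply Real.sqrt_le_sqrt
    refine Finset.sum_le_sum_of_subset_of_nonneg ?_ fun _ _ _ => sq_nonneg _
    intro x hx
    rw [hsdef, Finset.mem_Icc] at hx
    rw [Finset.mem_Icc]
    omega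
  have step1 : nr s (fun g => ‖G.Lop eps z N v g‖)
      ≤ (a * Real.sqrt (nsq N v) + b * Real.sqrt (nsq N (mulg 1 v)))
        + CT G * nr s (FS G.R N D e v) := by
    refine (nr_mono s _ _ (fun g _ => norm_nonneg _) pt).trans ?_
    refine (nr_add _ _ _).trans (add_le_add ?_ ?_)
    · refine (nr_add _ _ _).trans (add_le_add ?_ ?_)
      · rw [nr_mul _ _ (norm_nonneg _)]
        exact mul_le_mul_of_nonneg_left (sub1 v) (norm_nonneg _)
      · rw [nr_mul _ _ (by positivity)]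
        exact mul_le_mul_of_nonneg_left (sub1 _) (by positivity)
    · rw [nr_mul _ _ (CT_nonneg G)]
  set B : ℝ := D * Real.sqrt (En N v)
      + e * (Real.sqrt (En N (mulg 1 v)) + Real.sqrt (nsq N v))
      + D ^ 2 * Real.sqrt (nsq N v) + e ^ 2 * Real.sqrt (nsq N (mulg 2 v)) + ‖v N‖ with hB
  have step2 : nr s (FS G.R N D e v) ≤ (2 * (G.R + 1) + 1) * B := by
    unfold FS
    refine (nr_sum s _ _).trans ?_
    have h5 : ∀ j ∈ Icc (-((G.R + 1 : ℕ) : ℤ)) ((G.R + 1 : ℕ) : ℤ),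
        nr s (fun g => F0 N D e v (g + j)) ≤ B := by
      intro j _
      exact (nr_shift s (Icc (0 : ℤ) N) _ j (F0_out hs.1)).trans (nr_F0 hD0 he0 hs.1)
    refine (Finset.sum_le_sum h5).trans ?_
    rw [Finset.sum_const, nsmul_eq_mul, Int.card_Icc]
    apply le_of_eq
    congr 1
    have h6 : (((G.R + 1 : ℕ) : ℤ) + 1 - -((G.R + 1 : ℕ) : ℤ)).toNat = 2 * (G.R + 1) + 1 := by
      omega
    rw [h6]
    push_cast
    ring
  have hB0 : 0 ≤ B := by positivity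
  refine step1.trans ?_
  have h7 : CT G * nr s (FS G.R N D e v) ≤ C * B := by
    calc CT G * nr s (FS G.R N D e v) ≤ CT G * ((2 * (G.R + 1) + 1) * B) :=
          mul_le_mul_of_nonneg_left step2 (CT_nonneg G)
      _ ≤ C * B := by rw [hC]; linarith [(by ring : (CT G * (2 * ((G.R : ℝ) + 1) + 1) + 1) * B = CT G * ((2 * ((G.R : ℝ) + 1) + 1) * B) + B)]
  linarith

end Pool.Agent.KCG
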