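import Pool.Agent.KCG.Stmts
import Pool.Agent.KCG.OVLIM

/-! MODULE GVL : the critical solution tends to a positive constant, with a rate which is uniform
over the class of kernels. -/

set_option autoImplicit false

open Finset Filter Topology

namespace Pool.Agent.KCG

open Pool.Agent.Gap

open Pool.Agent.Gap Pool.Agent.KCG.VL

namespace GVL

lemma tot_nonneg (G : GapKernel) (i : ℕ × ℕ) : 0 ≤ G.tot i :=
  Finset.sum_nonneg fun d _ => G.T_nonneg i d

lemma T_le_tot (G : GapKernel) (i : ℕ × ℕ) (d : ℤ) : G.T i d ≤ G.tot i := by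
  by_cases h : (G.R : ℤ) < |d|
  · rw [G.T_range i d h]; exact tot_nonneg G i
  · refine Finset.single_le_sum (f := fun d : ℤ => G.T i d) (fun d _ => G.T_nonneg i d) ?_
    rw [Finset.mem_Icc, ← abs_le]
    omega

/-- tail of the masses of the kernel -/
lemma tail {C θ : ℝ} {G : GapKernel} (hC : 0 < C) (h0 : 0 < θ) (h1 : θ < 1) (hG : Cls C θ G)
    (n : ℕ) :
    ∑ i ∈ G.S.filter (fun i => n ≤ 2 * i.1), G.rho ^ i.1 * G.tot i
      ≤ C / (1 - √θ) * (√(√θ)) ^ n := by
  set ψ := √θ with hψ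
  set φ := √ψ with hφ
  have hψ0 : 0 < ψ := Real.sqrt_pos.2 h0
  have hψ1 : ψ < 1 := by rw [hψ, Real.sqrt_lt' one_pos]; simpa using h1
  have hφ0 : 0 < φ := Real.sqrt_pos.2 hψ0
  have hφ1 : φ < 1 := by rw [hφ, Real.sqrt_lt' one_pos]; simpa using hψ1
  have hψψ : ψ * ψ = θ := Real.mul_self_sqrt h0.le
  have hφφ : φ * φ = ψ := Real.mul_self_sqrt hψ0.le
  obtain ⟨N, hN⟩ : ∃ N : ℕ, ∀ i ∈ G.S, i.1 < N :=
    ⟨G.S.sup (fun i => i.1) + 1, fun i hi =>
      Nat.lt_succ_of_le (Finset.le_sup (f := fun i : ℕ × ℕ => i.1) hi)⟩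
  rw [← Finset.sum_fiberwise_of_maps_to (t := range N) (g := fun i : ℕ × ℕ => i.1)
    (fun i hi => Finset.mem_range.2 (hN i (Finset.mem_filter.1 hi).1))]
  have hm : ∀ m ∈ range N, ∑ i ∈ (G.S.filter (fun i => n ≤ 2 * i.1)).filter (fun i => i.1 = m),
      G.rho ^ i.1 * G.tot i ≤ C * φ ^ n * ψ ^ m := by
    intro m _
    by_cases hnm : n ≤ 2 * m
    · calc ∑ i ∈ (G.S.filter (fun i => n ≤ 2 * i.1)).filter (fun i => i.1 = m),
              G.rho ^ i.1 * G.tot i
          = ∑ i ∈ (G.S.filter (fun i => n ≤ 2 * i.1)).filter (fun i => i.1 = m),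
              G.rho ^ m * G.tot i := by
            refine Finset.sum_congr rfl fun i hi => ?_
            rw [(Finset.mem_filter.1 hi).2]
        _ ≤ ∑ i ∈ G.S.filter (fun i => i.1 = m), G.rho ^ m * G.tot i := by
            refine Finset.sum_le_sum_of_subset_of_nonneg ?_ fun i _ _ =>
              mul_nonneg (pow_nonneg G.rho_pos.le _) (tot_nonneg G i)
            intro i hi
            rw [Finset.mem_filter, Finset.mem_filter] at hi
            exact Finset.mem_filter.2 ⟨hi.1.1, hi.2⟩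
        _ ≤ C * θ ^ m := hG.dec m
        _ = C * φ ^ (2 * m) * ψ ^ m := by
            rw [← hψψ, pow_mul, sq, hφφ, mul_pow]; ring
        _ ≤ C * φ ^ n * ψ ^ m := by
            have : φ ^ (2 * m) ≤ φ ^ n := pow_le_pow_of_le_one hφ0.le hφ1.le hnm
            gcongr
    · have : (G.S.filter (fun i => n ≤ 2 * i.1)).filter (fun i => i.1 = m) = ∅ := by
        ext i
        simp only [Finset.mem_filter, Finset.notMem_empty, iff_false]
        rintro ⟨⟨_, h2⟩, h3⟩
        omega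
      rw [this, Finset.sum_empty]
      positivity
  refine (Finset.sum_le_sum hm).trans ?_
  rw [← Finset.mul_sum]
  have h2 : ∑ m ∈ range N, ψ ^ m ≤ (1 - ψ)⁻¹ := by
    rw [← tsum_geometric_of_lt_one hψ0.le hψ1]
    exact (summable_geometric_of_lt_one hψ0.le hψ1).sum_le_tsum _ (fun _ _ => by positivity)
  calc C * φ ^ n * ∑ m ∈ range N, ψ ^ m ≤ C * φ ^ n * (1 - ψ)⁻¹ := by gcongr
    _ = C / (1 - ψ) * φ ^ n := by rw [div_eq_mul_inv]; ring

/-- decay of the translation invariant kernel -/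
lemma kk_le {C θ : ℝ} {G : GapKernel} (hC : 0 < C) (h0 : 0 < θ) (h1 : θ < 1) (hG : Cls C θ G)
    (d : ℕ) : kk G d ≤ C / (1 - √θ) * (√(√θ)) ^ d := by
  refine le_trans ?_ (tail hC h0 h1 hG d)
  unfold kk
  rw [Finset.sum_filter]
  refine Finset.sum_le_sum fun i _ => ?_
  split_ifs with h
  · exact mul_le_mul_of_nonneg_left (T_le_tot G i d) (pow_nonneg G.rho_pos.le _)
  · rw [hG.loc.T_loc i d (by rw [Nat.abs_cast]; omega), mul_zero]

/-- the moment constant -/
noncomputable def P5 (C θ : ℝ) : ℝ :=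
  C / (1 - √θ) * ∑' d : ℕ, (d : ℝ) ^ 5 * (√(√θ)) ^ d

lemma root_bounds {θ : ℝ} (h0 : 0 < θ) (h1 : θ < 1) :
    0 < √θ ∧ √θ < 1 ∧ 0 < √(√θ) ∧ √(√θ) < 1 ∧ θ ≤ √(√θ) := by
  have hψ0 : 0 < √θ := Real.sqrt_pos.2 h0
  have hψ1 : √θ < 1 := by rw [Real.sqrt_lt' one_pos]; simpa using h1
  have hφ0 : 0 < √(√θ) := Real.sqrt_pos.2 hψ0
  have hφ1 : √(√θ) < 1 := by rw [Real.sqrt_lt' one_pos]; simpa using hψ1
  have hψψ : √θ * √θ = θ := Real.mul_self_sqrt h0.le
  have hφφ : √(√θ) * √(√θ) = √θ := Real.mul_self_sqrt hψ0.le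
  refine ⟨hψ0, hψ1, hφ0, hφ1, ?_⟩
  nlinarith

lemma moment {C θ : ℝ} {G : GapKernel} (hC : 0 < C) (h0 : 0 < θ) (h1 : θ < 1) (hG : Cls C θ G)
    (p : ℕ) (hp : p ≤ 5) :
    ∑ d ∈ Icc 1 G.R, kk G d * (d : ℝ) ^ p ≤ P5 C θ := by
  obtain ⟨a1, a2, a3, a4, -⟩ := root_bounds h0 h1
  have hs : Summable fun d : ℕ => (d : ℝ) ^ 5 * (√(√θ)) ^ d :=
    summable_pow_mul_geometric_of_norm_lt_one 5 (by rwa [Real.norm_of_nonneg a3.le])
  calc ∑ d ∈ Icc 1 G.R, kk G d * (d : ℝ) ^ p
      ≤ ∑ d ∈ Icc 1 G.R, C / (1 - √θ) * ((d : ℝ) ^ 5 * (√(√θ)) ^ d) := by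
        refine Finset.sum_le_sum fun d hd => ?_
        rw [Finset.mem_Icc] at hd
        have h2 : (1 : ℝ) ≤ d := by exact_mod_cast hd.1
        have h3 : (d : ℝ) ^ p ≤ (d : ℝ) ^ 5 := pow_le_pow_right₀ h2 hp
        have h4 := kk_le hC h0 h1 hG d
        have h5 := kk_nonneg G (d : ℤ)
        calc kk G d * (d : ℝ) ^ p ≤ kk G d * (d : ℝ) ^ 5 := by gcongr
          _ ≤ (C / (1 - √θ) * (√(√θ)) ^ d) * (d : ℝ) ^ 5 := by gcongr
          _ = _ := by ring
    _ = C / (1 - √θ) * ∑ d ∈ Icc 1 G.R, ((d : ℝ) ^ 5 * (√(√θ)) ^ d) := by rw [Finset.mul_sum]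
    _ ≤ P5 C θ := by
        unfold P5
        have h6 : ∑ d ∈ Icc 1 G.R, ((d : ℝ) ^ 5 * (√(√θ)) ^ d)
            ≤ ∑' d : ℕ, (d : ℝ) ^ 5 * (√(√θ)) ^ d :=
          hs.sum_le_tsum _ (fun _ _ => by positivity)
        have h7 : 0 ≤ C / (1 - √θ) := div_nonneg hC.le (by linarith)
        exact mul_le_mul_of_nonneg_left h6 h7

lemma rho_le_P5 {C θ : ℝ} {G : GapKernel} (hC : 0 < C) (h0 : 0 < θ) (h1 : θ < 1)
    (hG : Cls C θ G) : C⁻¹ ^ 2 ≤ c0 G ∧ c0 G ≤ P5 C θ := by
  refine ⟨?_, moment hC h0 h1 hG 2 (by norm_num)⟩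
  have h : kk G ((1 : ℕ) : ℤ) * ((1 : ℕ) : ℝ) ^ 2 ≤ c0 G :=
    Finset.single_le_sum (f := fun d : ℕ => kk G d * (d : ℝ) ^ 2)
      (fun d _ => mul_nonneg (kk_nonneg G _) (sq_nonneg _)) (Finset.mem_Icc.2 ⟨le_rfl, G.R_pos⟩)
  have h1 := kk_one G
  have h2 := pow_le_pow_left₀ (inv_pos.2 hC).le hG.rho_ge 2
  simp only [Nat.cast_one, one_pow, mul_one] at h
  linarith

/-- a bounded sequence with exponentially small second differences converges exponentially fast -/
lemma second_small {F : ℕ → ℝ} {B Q φ : ℝ} (hφ0 : 0 < φ) (hφ1 : φ < 1)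
    (hB : ∀ n, |F n| ≤ B)
    (h : ∀ n, |F (n + 2) + F n - 2 * F (n + 1)| ≤ Q * φ ^ n) :
    ∃ L : ℝ, |L| ≤ B ∧ ∀ n, |F n - L| ≤ Q / (1 - φ) ^ 2 * φ ^ n := by
  have h1φ : 0 < 1 - φ := by linarith
  set E : ℕ → ℝ := fun n => F (n + 1) - F n with hE
  have hEd : ∀ n, dist (E n) (E (n + 1)) ≤ Q * φ ^ n := by
    intro n
    rw [dist_comm, Real.dist_eq]
    have : E (n + 1) - E n = F (n + 2) + F n - 2 * F (n + 1) := by
      simp only [hE]; ring
    rw [this]
    exact h n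
  obtain ⟨e, he⟩ := cauchySeq_tendsto_of_complete (cauchySeq_of_le_geometric φ Q hφ1 hEd)
  have hEe : ∀ n, |E n - e| ≤ Q * φ ^ n / (1 - φ) := by
    intro n
    rw [← Real.dist_eq]
    exact dist_le_of_le_geometric_of_tendsto φ Q hφ1 hEd he n
  -- the limit of the differences vanishes
  have he0 : e = 0 := by
    have h2 : Tendsto (fun n : ℕ => (n : ℝ)⁻¹ * ∑ i ∈ range n, E i) atTop (𝓝 e) :=
      he.cesaro
    have h3 : ∀ n : ℕ, ∑ i ∈ range n, E i = F n - F 0 := by
      intro n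
      exact Finset.sum_range_sub F n
    have h4 : Tendsto (fun n : ℕ => (n : ℝ)⁻¹ * ∑ i ∈ range n, E i) atTop (𝓝 0) := by
      have h5 : Tendsto (fun n : ℕ => (n : ℝ)⁻¹ * (2 * B)) atTop (𝓝 0) := by
        have := (tendsto_inv_atTop_nhds_zero_nat (𝕜 := ℝ)).mul_const (2 * B)
        simpa using this
      refine squeeze_zero_norm (fun n => ?_) h5
      rw [h3, norm_mul, Real.norm_of_nonneg (by positivity : (0 : ℝ) ≤ (n : ℝ)⁻¹), Real.norm_eq_abs]
      have h6 : |F n - F 0| ≤ 2 * B := (abs_sub _ _).trans (by linarith [hB n, hB 0])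
      gcongr
    exact tendsto_nhds_unique h2 h4
  subst he0
  have hFd : ∀ n, dist (F n) (F (n + 1)) ≤ (Q / (1 - φ)) * φ ^ n := by
    intro n
    rw [dist_comm, Real.dist_eq]
    have := hEe n
    rw [sub_zero] at this
    simp only [hE] at this
    refine this.trans (le_of_eq ?_)
    ring
  obtain ⟨L, hL⟩ := cauchySeq_tendsto_of_complete (cauchySeq_of_le_geometric φ _ hφ1 hFd)
  refine ⟨L, ?_, fun n => ?_⟩
  · exact le_of_tendsto (hL.abs) (Eventually.of_forall hB)
  · have := dist_le_of_le_geometric_of_tendsto φ _ hφ1 hFd hL n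
    rw [Real.dist_eq] at this
    refine this.trans (le_of_eq ?_)
    field_simp

/-- the defect of harmonicity is exponentially small -/
lemma defect {C θ : ℝ} {G : GapKernel} (hC : 0 < C) (h0 : 0 < θ) (h1 : θ < 1) (hG : Cls C θ G)
    {R' : ℕ} {s v : ℤ → ℝ} (hs : CritSrc C θ R' s) (hv : CritSol C G s v) (n : ℕ) (hn : 1 ≤ n) :
    |(∑ d ∈ Icc (-(G.R : ℤ)) G.R, kk G d * v (n + d)) - v n|
      ≤ (C + C * (C / (1 - √θ))) * (√(√θ)) ^ n := by
  obtain ⟨a1, a2, a3, a4, a5⟩ := root_bounds h0 h1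
  have hvabs : ∀ g, |v g| ≤ C := by
    intro g
    rw [abs_le]
    refine ⟨?_, hv.up g⟩
    rcases le_or_gt g 0 with h | h
    · rw [hv.zero g h]; linarith
    · have := hv.low g h
      have := inv_pos.2 hC
      linarith
  have e1 : (∑ d ∈ Icc (-(G.R : ℤ)) G.R, kk G d * v (n + d)) - v n
      = -(s n) + ∑ d ∈ Icc (-(G.R : ℤ)) G.R, (kk G d - G.Kc n (n + d)) * v (n + d) := by
    have h2 := hv.eq n (by exact_mod_cast hn)
    rw [sum_Icc_shift] at h2
    have h3 : ∑ d ∈ Icc (-(G.R : ℤ)) G.R, (kk G d - G.Kc n (n + d)) * v (n + d)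
        = ∑ d ∈ Icc (-(G.R : ℤ)) G.R, kk G d * v (n + d)
          - ∑ d ∈ Icc (-(G.R : ℤ)) G.R, G.Kc n (n + d) * v (n + d) := by
      rw [← Finset.sum_sub_distrib]
      exact Finset.sum_congr rfl fun d _ => by ring
    rw [h3]
    linarith
  have e2 : |∑ d ∈ Icc (-(G.R : ℤ)) G.R, (kk G d - G.Kc n (n + d)) * v (n + d)|
      ≤ C * (C / (1 - √θ)) * (√(√θ)) ^ n := by
    calc |∑ d ∈ Icc (-(G.R : ℤ)) G.R, (kk G d - G.Kc n (n + d)) * v (n + d)|
        ≤ ∑ d ∈ Icc (-(G.R : ℤ)) G.R, |(kk G d - G.Kc n (n + d)) * v (n + d)| :=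
          Finset.abs_sum_le_sum_abs _ _
      _ ≤ ∑ d ∈ Icc (-(G.R : ℤ)) G.R, ∑ i ∈ G.S.filter (fun i => n ≤ 2 * i.1),
            C * (G.rho ^ i.1 * G.T i d) := by
          refine Finset.sum_le_sum fun d _ => ?_
          have e3 : (kk G d - G.Kc n (n + d)) * v (n + d)
              = ∑ i ∈ G.S, (G.rho ^ i.1 * (G.T i d - G.K i n (n + d))) * v (n + d) := by
            unfold kk GapKernel.Kc
            rw [← Finset.sum_sub_distrib, Finset.sum_mul]
            exact Finset.sum_congr rfl fun i _ => by ring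
          rw [e3, Finset.sum_filter]
          refine (Finset.abs_sum_le_sum_abs _ _).trans (Finset.sum_le_sum fun i _ => ?_)
          have h4 := G.K_nonneg i n (n + d)
          have h5 := G.K_le i n (n + d)
          rw [add_sub_cancel_left] at h5
          have h6 : 0 ≤ G.rho ^ i.1 := pow_nonneg G.rho_pos.le _
          split_ifs with h
          · rw [abs_mul, abs_of_nonneg (mul_nonneg h6 (by linarith)), mul_comm]
            refine mul_le_mul (hvabs _) ?_ (mul_nonneg h6 (by linarith)) hC.le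
            refine mul_le_mul_of_nonneg_left (by linarith) h6
          · rcases le_or_gt ((n : ℤ) + d) 0 with h7 | h7
            · rw [hv.zero _ h7, mul_zero, abs_zero]
            · rw [hG.loc.K_loc i n (n + d) (by exact_mod_cast hn) h7 (by omega),
                add_sub_cancel_left, sub_self, mul_zero, zero_mul, abs_zero]
      _ = C * ∑ i ∈ G.S.filter (fun i => n ≤ 2 * i.1), G.rho ^ i.1 * G.tot i := by
          rw [Finset.sum_comm, Finset.mul_sum]
          refine Finset.sum_congr rfl fun i _ => ?_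
          unfold GapKernel.tot
          rw [← Finset.mul_sum, ← Finset.mul_sum]
      _ ≤ C * (C / (1 - √θ) * (√(√θ)) ^ n) :=
          mul_le_mul_of_nonneg_left (tail hC h0 h1 hG n) hC.le
      _ = _ := by ring
  have e3 : |s n| ≤ C * (√(√θ)) ^ n := by
    rw [abs_of_nonneg (hs.nonneg _)]
    refine (hs.dec n).trans ?_
    have : θ ^ n ≤ (√(√θ)) ^ n := pow_le_pow_left₀ h0.le a5 n
    gcongr
  rw [e1]
  calc |-(s n) + ∑ d ∈ Icc (-(G.R : ℤ)) G.R, (kk G d - G.Kc n (n + d)) * v (n + d)|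
      ≤ |-(s n)| + |∑ d ∈ Icc (-(G.R : ℤ)) G.R, (kk G d - G.Kc n (n + d)) * v (n + d)| :=
        abs_add_le _ _
    _ ≤ C * (√(√θ)) ^ n + C * (C / (1 - √θ)) * (√(√θ)) ^ n := by
        rw [abs_neg]; exact add_le_add e3 e2
    _ = _ := by ring

/-- the commutator estimate -/
lemma key (G : GapKernel) (y : ℤ → ℝ) (z : ℤ → ℝ)
    (hz : (Function.support z).Finite) (F : ℕ → ℝ) (X : ℝ)
    (hX : ∑' g, z g ^ 2 * (y g * Phi G y g) ≤ X)
    (hF : ∀ (d : ℕ) (j : ℤ), 1 ≤ d → |j| ≤ d →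
      -(F d) ≤ ∑' g : ℤ, (z g - z (g + j)) ^ 2 * (y g * y (g + j))) :
    G.rho ^ 2 * ∑' g, (z g * y g) ^ 2 ≤ X + (∑ d ∈ Icc 1 G.R, kk G d * (d : ℝ) ^ 2 * F d) / 2 := by
  have hzy : (Function.support fun x => z x * y x).Finite := by
    refine hz.subset fun g hg => ?_
    rw [Function.mem_support] at hg ⊢
    exact left_ne_zero_of_mul hg
  have h1 : ∀ d ∈ Icc 1 G.R, -((d : ℝ) ^ 2 * F d) ≤ 2 * ∑' g, z g ^ 2 * (y g * S d y g)
      - 2 * ∑' g, (z g * y g) * S d (fun x => z x * y x) g := by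
    intro d hd
    rw [← S_comm d z y hz]
    have : -((d : ℝ) ^ 2 * F d) = ∑ t ∈ range d, ∑ t' ∈ range d, (-(F d)) := by
      simp; ring
    rw [this]
    refine Finset.sum_le_sum fun t ht => Finset.sum_le_sum fun t' ht' => ?_
    rw [Finset.mem_Icc] at hd
    refine hF d _ hd.1 ?_
    rw [Finset.mem_range] at ht ht'
    rw [abs_le]
    omega
  have hzs : ∀ (F : ℤ → ℝ), Summable fun g => z g ^ 2 * F g := by
    intro F
    refine sm (hz.subset fun g hg => ?_)
    rw [Function.mem_support] at hg ⊢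
    intro h0
    rw [h0] at hg
    simp at hg
  -- the first term
  have h2 : ∑ d ∈ Icc 1 G.R, kk G d * ∑' g, z g ^ 2 * (y g * S d y g)
      = ∑' g, z g ^ 2 * (y g * Phi G y g) := by
    have e : ∀ d : ℕ, kk G d * ∑' g, z g ^ 2 * (y g * S d y g)
        = ∑' g, z g ^ 2 * (kk G d * (y g * S d y g)) := by
      intro d
      rw [← tsum_mul_left]
      exact tsum_congr fun g => by ring
    simp only [e]
    rw [← Summable.tsum_finsetSum (fun d _ => hzs _)]
    refine tsum_congr fun g => ?_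
    unfold Phi
    rw [Finset.mul_sum, Finset.mul_sum]
    exact Finset.sum_congr rfl fun d _ => by ring
  have h3 : kk G 1 * ∑' g, (z g * y g) ^ 2
      ≤ ∑ d ∈ Icc 1 G.R, kk G d * ∑' g, (z g * y g) * S d (fun x => z x * y x) g := by
    have e : kk G 1 * ∑' g, (z g * y g) ^ 2
        = kk G ((1 : ℕ) : ℤ) * ∑' g, (z g * y g) * S 1 (fun x => z x * y x) g := by
      rw [Nat.cast_one]
      congr 1
      refine tsum_congr fun g => ?_
      unfold S
      simp
      ring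
    rw [e]
    exact Finset.single_le_sum
      (f := fun d : ℕ => kk G d * ∑' g, (z g * y g) * S d (fun x => z x * y x) g)
      (fun d _ => mul_nonneg (kk_nonneg G _) (S_posdef d _ hzy))
      (Finset.mem_Icc.2 ⟨le_rfl, G.R_pos⟩)
  have h4 : -(∑ d ∈ Icc 1 G.R, kk G d * (d : ℝ) ^ 2 * F d)
      ≤ 2 * (∑ d ∈ Icc 1 G.R, kk G d * ∑' g, z g ^ 2 * (y g * S d y g))
      - 2 * ∑ d ∈ Icc 1 G.R, kk G d * ∑' g, (z g * y g) * S d (fun x => z x * y x) g := by
    rw [Finset.mul_sum, Finset.mul_sum, ← Finset.sum_sub_distrib, ← Finset.sum_neg_distrib]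
    refine Finset.sum_le_sum fun d hd => ?_
    have := mul_le_mul_of_nonneg_left (h1 d hd) (kk_nonneg G d)
    linarith
  have h5 : 0 ≤ ∑' g, (z g * y g) ^ 2 := tsum_nonneg fun _ => sq_nonneg _
  have h6 := mul_le_mul_of_nonneg_right (kk_one G) h5
  rw [h2] at h4
  linarith

/-- first step: square summability -/
lemma step1 (G : GapKernel) (y : ℤ → ℝ) (B X : ℝ) (hB : ∀ g, |y g| ≤ B)
    (hX : ∀ n : ℕ, ∑ g ∈ Icc (1 : ℤ) n, |y g * Phi G y g| ≤ X) (M : ℕ) (P : ℝ)
    (hP : ∀ p ≤ 5, ∑ d ∈ Icc 1 G.R, kk G d * (d : ℝ) ^ p ≤ P) :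
    G.rho ^ 2 * ∑ g ∈ Icc (1 : ℤ) M, y g ^ 2 ≤ X + 3 * B ^ 2 * P := by
  set z : ℤ → ℝ := fun g => if 1 ≤ g ∧ g ≤ M then 1 else 0 with hz
  have hz0 : ∀ g < 1, z g = 0 := by
    intro g hg
    simp only [hz]
    rw [if_neg]; omega
  have hzM : ∀ g, (M : ℤ) < g → z g = 0 := by
    intro g hg
    simp only [hz]
    rw [if_neg]; omega
  have hzf : (Function.support z).Finite :=
    fin_of_Icc (a := 1) (b := M) (fun g hg => by rcases hg with h | h; exacts [hz0 g h, hzM g h])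
  have hB0 : 0 ≤ B := (abs_nonneg _).trans (hB 0)
  have h := key G y z hzf (fun d => B ^ 2 * (2 * (2 * d + 1))) X ?_ ?_
  · have e : ∑' g, (z g * y g) ^ 2 = ∑ g ∈ Icc (1 : ℤ) M, y g ^ 2 := by
      rw [tsum_eq_Icc (a := 1) (b := M)]
      · refine Finset.sum_congr rfl fun g hg => ?_
        rw [Finset.mem_Icc] at hg
        simp only [hz]
        rw [if_pos hg, one_mul]
      · intro g hg
        rcases hg with h | h
        · rw [hz0 g h]; ring
        · rw [hzM g h]; ring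
    rw [e] at h
    refine h.trans ?_
    have h2 : ∑ d ∈ Icc 1 G.R, kk G d * (d : ℝ) ^ 2 * (B ^ 2 * (2 * (2 * d + 1)))
        ≤ 6 * B ^ 2 * P := by
      calc ∑ d ∈ Icc 1 G.R, kk G d * (d : ℝ) ^ 2 * (B ^ 2 * (2 * (2 * d + 1)))
          ≤ ∑ d ∈ Icc 1 G.R, 6 * B ^ 2 * (kk G d * (d : ℝ) ^ 3) := by
            refine Finset.sum_le_sum fun d hd => ?_
            rw [Finset.mem_Icc] at hd
            have h3 : (1 : ℝ) ≤ d := by exact_mod_cast hd.1
            have h4 := kk_nonneg G (d : ℤ)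
            have h5 : 0 ≤ kk G d * (d : ℝ) ^ 2 * B ^ 2 := by positivity
            nlinarith
        _ = 6 * B ^ 2 * ∑ d ∈ Icc 1 G.R, (kk G d * (d : ℝ) ^ 3) := by rw [Finset.mul_sum]
        _ ≤ 6 * B ^ 2 * P := mul_le_mul_of_nonneg_left (hP 3 (by norm_num)) (by positivity)
    linarith
  · refine le_trans ?_ (hX M)
    rw [tsum_eq_Icc (a := 1) (b := M)]
    · refine Finset.sum_le_sum fun g hg => ?_
      rw [Finset.mem_Icc] at hg
      simp only [hz]
      rw [if_pos hg, one_pow, one_mul]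
      exact le_abs_self _
    · intro g hg
      rcases hg with h | h
      · rw [hz0 g h]; ring
      · rw [hzM g h]; ring
  · intro d j hd hj
    set A : Finset ℤ := Icc (1 - (d : ℤ)) (1 + d) ∪ Icc ((M : ℤ) - d) (M + d) with hA
    have hzero : ∀ g, g ∉ A → (z g - z (g + j)) ^ 2 * (y g * y (g + j)) = 0 := by
      intro g hg
      have : z g = z (g + j) := by
        rw [hA, Finset.mem_union, Finset.mem_Icc, Finset.mem_Icc] at hg
        rw [abs_le] at hj
        simp only [hz]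
        have : (1 ≤ g ∧ g ≤ M) ↔ (1 ≤ g + j ∧ g + j ≤ M) := by omega
        simp only [this]
      rw [this]; ring
    rw [tsum_eq_sum (s := A) (fun g hg => hzero g hg)]
    have h1 : ∀ g ∈ A, -B ^ 2 ≤ (z g - z (g + j)) ^ 2 * (y g * y (g + j)) := by
      intro g _
      have h2 : (z g - z (g + j)) ^ 2 ≤ 1 := by
        simp only [hz]
        split_ifs <;> norm_num
      have h3 : |y g * y (g + j)| ≤ B ^ 2 := by
        rw [abs_mul, sq]
        exact mul_le_mul (hB _) (hB _) (abs_nonneg _) hB0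
      have h4 : -B ^ 2 ≤ y g * y (g + j) := (abs_le.mp h3).1
      nlinarith [sq_nonneg (z g - z (g + j)), sq_nonneg B]
    calc -(B ^ 2 * (2 * (2 * (d : ℝ) + 1))) ≤ ∑ g ∈ A, (-B ^ 2) := by
          rw [Finset.sum_const, nsmul_eq_mul]
          have hc : (A.card : ℝ) ≤ 2 * (2 * d + 1) := by
            have : A.card ≤ 2 * (2 * d + 1) := by
              refine (Finset.card_union_le _ _).trans ?_
              rw [Int.card_Icc, Int.card_Icc]
              omega
            exact_mod_cast this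
          nlinarith [sq_nonneg B]
      _ ≤ ∑ g ∈ A, (z g - z (g + j)) ^ 2 * (y g * y (g + j)) := Finset.sum_le_sum h1

/-- second step: weighted square summability -/
lemma step2 (G : GapKernel) (y : ℤ → ℝ) (B X : ℝ) (hB : ∀ g, |y g| ≤ B)
    (hX : ∀ n : ℕ, ∑ g ∈ Icc (1 : ℤ) n, (g : ℝ) ^ 2 * |y g * Phi G y g| ≤ X) (C1 : ℝ)
    (hC1 : ∀ M : ℕ, ∑ g ∈ Icc (1 : ℤ) M, y g ^ 2 ≤ C1) (M : ℕ) (P : ℝ)
    (hP : ∀ p ≤ 5, ∑ d ∈ Icc 1 G.R, kk G d * (d : ℝ) ^ p ≤ P) :
    G.rho ^ 2 * ∑ g ∈ Icc (1 : ℤ) M, (g : ℝ) ^ 2 * y g ^ 2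
      ≤ X + (P * C1 + 12 * B ^ 2 * P) / 2 := by
  set z : ℤ → ℝ := fun g => if 1 ≤ g then (if g ≤ M then (g : ℝ) else if g ≤ 2 * M then
    (2 * M - g : ℝ) else 0) else 0 with hz
  have hz0 : ∀ g < 1, z g = 0 := by
    intro g hg
    simp only [hz]
    rw [if_neg]; omega
  have hzM : ∀ g, 2 * (M : ℤ) < g → z g = 0 := by
    intro g hg
    simp only [hz]
    rw [if_pos (by omega), if_neg (by omega), if_neg (by omega)]
  have hzf : (Function.support z).Finite :=
    fin_of_Icc (a := 1) (b := 2 * M) (fun g hg => by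
      rcases hg with h | h; exacts [hz0 g h, hzM g h])
  have hB0 : 0 ≤ B := (abs_nonneg _).trans (hB 0)
  have hC10 : 0 ≤ C1 := le_trans (by simp) (hC1 0)
  -- `z` as a real function: tent
  have hz1 : ∀ g, 1 ≤ g → z g = max 0 (min (g : ℝ) (2 * M - g)) := by
    intro g hg
    have hg' : (1 : ℝ) ≤ g := by exact_mod_cast hg
    simp only [hz]
    rw [if_pos hg]
    split_ifs with h1 h2
    · have : (g : ℝ) ≤ M := by exact_mod_cast h1
      rw [min_eq_left (by linarith), max_eq_right (by linarith)]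
    · have h1' : (M : ℝ) < g := by exact_mod_cast (not_le.mp h1)
      have h2' : (g : ℝ) ≤ 2 * M := by exact_mod_cast h2
      rw [min_eq_right (by linarith), max_eq_right (by linarith)]
    · have h2' : (2 * M : ℝ) < g := by exact_mod_cast (not_le.mp h2)
      rw [max_eq_left]
      exact (min_le_right _ _).trans (by linarith)
  have hzle : ∀ g, 1 ≤ g → 0 ≤ z g ∧ z g ≤ g := by
    intro g h1
    have h1' : (1 : ℝ) ≤ g := by exact_mod_cast h1
    rw [hz1 g h1]
    exact ⟨le_max_left _ _, max_le (by linarith) (min_le_left _ _)⟩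
  have h := key G y z hzf (fun d => (d : ℝ) ^ 2 * C1 + (1 + (d : ℝ)) ^ 2 * B ^ 2 * (2 * d + 1)) X ?_ ?_
  · have e : ∑ g ∈ Icc (1 : ℤ) M, (g : ℝ) ^ 2 * y g ^ 2 ≤ ∑' g, (z g * y g) ^ 2 := by
      have hsupp : ∀ g : ℤ, (g < 1 ∨ 2 * (M : ℤ) < g) → (z g * y g) ^ 2 = 0 := by
        intro g hg
        rcases hg with h | h
        · rw [hz0 g h]; ring
        · rw [hzM g h]; ring
      rw [tsum_eq_Icc hsupp]
      have hsub : Icc (1 : ℤ) M ⊆ Icc 1 (2 * (M : ℤ)) := Finset.Icc_subset_Icc le_rfl (by omega)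
      refine le_trans (le_of_eq ?_)
        (Finset.sum_le_sum_of_subset_of_nonneg hsub fun g _ _ => sq_nonneg _)
      refine Finset.sum_congr rfl fun g hg => ?_
      rw [Finset.mem_Icc] at hg
      simp only [hz]
      rw [if_pos hg.1, if_pos hg.2]
      ring
    refine (mul_le_mul_of_nonneg_left e (pow_nonneg G.rho_pos.le 2)).trans (h.trans ?_)
    have h2 : ∑ d ∈ Icc 1 G.R, kk G d * (d : ℝ) ^ 2 *
          ((d : ℝ) ^ 2 * C1 + (1 + (d : ℝ)) ^ 2 * B ^ 2 * (2 * d + 1))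
        ≤ P * C1 + 12 * B ^ 2 * P := by
      calc ∑ d ∈ Icc 1 G.R, kk G d * (d : ℝ) ^ 2 *
            ((d : ℝ) ^ 2 * C1 + (1 + (d : ℝ)) ^ 2 * B ^ 2 * (2 * d + 1))
          ≤ ∑ d ∈ Icc 1 G.R, (C1 * (kk G d * (d : ℝ) ^ 4)
              + 12 * B ^ 2 * (kk G d * (d : ℝ) ^ 5)) := by
            refine Finset.sum_le_sum fun d hd => ?_
            rw [Finset.mem_Icc] at hd
            have h3 : (1 : ℝ) ≤ d := by exact_mod_cast hd.1
            have h4 := kk_nonneg G (d : ℤ)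
            have h5 : (1 + (d : ℝ)) ^ 2 * (2 * d + 1) ≤ 12 * (d : ℝ) ^ 3 := by
              have e1 : (1 + (d : ℝ)) ^ 2 ≤ 4 * (d : ℝ) ^ 2 := by nlinarith
              have e2 : 2 * (d : ℝ) + 1 ≤ 3 * d := by linarith
              calc (1 + (d : ℝ)) ^ 2 * (2 * d + 1) ≤ (4 * (d : ℝ) ^ 2) * (3 * d) := by gcongr
                _ = 12 * (d : ℝ) ^ 3 := by ring
            have h6 : 0 ≤ kk G d * (d : ℝ) ^ 2 * B ^ 2 := by positivity
            have h7 := mul_le_mul_of_nonneg_left h5 h6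
            nlinarith
        _ = C1 * ∑ d ∈ Icc 1 G.R, (kk G d * (d : ℝ) ^ 4)
              + 12 * B ^ 2 * ∑ d ∈ Icc 1 G.R, (kk G d * (d : ℝ) ^ 5) := by
            rw [Finset.sum_add_distrib, Finset.mul_sum, Finset.mul_sum]
        _ ≤ C1 * P + 12 * B ^ 2 * P :=
            add_le_add (mul_le_mul_of_nonneg_left (hP 4 (by norm_num)) hC10)
              (mul_le_mul_of_nonneg_left (hP 5 le_rfl) (by positivity))
        _ = _ := by ring
    linarith
  · refine le_trans ?_ (hX (2 * M))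
    rw [tsum_eq_Icc (a := 1) (b := 2 * (M : ℤ))]
    · push_cast
      refine Finset.sum_le_sum fun g hg => ?_
      rw [Finset.mem_Icc] at hg
      obtain ⟨b1, b2⟩ := hzle g hg.1
      have b3 : z g ^ 2 ≤ (g : ℝ) ^ 2 := pow_le_pow_left₀ b1 b2 2
      calc z g ^ 2 * (y g * Phi G y g) ≤ z g ^ 2 * |y g * Phi G y g| :=
            mul_le_mul_of_nonneg_left (le_abs_self _) (sq_nonneg _)
        _ ≤ (g : ℝ) ^ 2 * |y g * Phi G y g| := mul_le_mul_of_nonneg_right b3 (abs_nonneg _)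
    · intro g hg
      rcases hg with h | h
      · rw [hz0 g h]; ring
      · rw [hzM g h]; ring
  · intro d j hd hj
    have hlip : ∀ g j : ℤ, 1 ≤ g → 1 ≤ g + j → |j| ≤ d → (z g - z (g + j)) ^ 2 ≤ (d : ℝ) ^ 2 := by
      intro g j h1 h2 hj
      rw [hz1 g h1, hz1 (g + j) h2]
      have hj' : |(j : ℝ)| ≤ d := by exact_mod_cast hj
      have h3 : |max 0 (min (g : ℝ) (2 * M - g)) -
          max 0 (min ((g + j : ℤ) : ℝ) (2 * M - (g + j : ℤ)))| ≤ |(j : ℝ)| := by
        push_cast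
        calc |max 0 (min (g : ℝ) (2 * M - g)) - max 0 (min ((g : ℝ) + j) (2 * M - (g + j)))|
            ≤ max |(0 : ℝ) - 0| |min (g : ℝ) (2 * M - g) - min ((g : ℝ) + j) (2 * M - (g + j))| :=
              abs_max_sub_max_le_max _ _ _ _
          _ ≤ max |(0 : ℝ) - 0| (max |(g : ℝ) - (g + j)| |(2 * M - g : ℝ) - (2 * M - (g + j))|) :=
              max_le_max le_rfl (abs_min_sub_min_le_max _ _ _ _)
          _ = |(j : ℝ)| := by
              rw [show (g : ℝ) - (g + j) = -j by ring,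
                show (2 * M - g : ℝ) - (2 * M - (g + j)) = j by ring,
                abs_neg, max_self, sub_zero, abs_zero, max_eq_right (abs_nonneg _)]
      exact sq_le_sq' (by linarith [abs_le.mp (h3.trans hj')]) (abs_le.mp (h3.trans hj')).2
    have hzsmall : ∀ g, 1 ≤ g → g ≤ 1 + (d : ℤ) → 0 ≤ z g ∧ z g ≤ 1 + (d : ℝ) := by
      intro g h1 h2
      have h2' : (g : ℝ) ≤ 1 + d := by exact_mod_cast h2
      exact ⟨(hzle g h1).1, (hzle g h1).2.trans h2'⟩
    set u : ℤ → ℝ := fun g => if 1 ≤ g ∧ g ≤ 2 * M + 2 * d then y g ^ 2 else 0 with hu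
    have hu0 : ∀ g, 0 ≤ u g := by
      intro g
      simp only [hu]
      split_ifs
      · exact sq_nonneg _
      · exact le_rfl
    have huf : (Function.support u).Finite := by
      refine fin_of_Icc (a := 1) (b := 2 * M + 2 * d) fun g hg => ?_
      simp only [hu]
      rw [if_neg]; omega
    have husum : ∑' g, u g ≤ C1 := by
      rw [tsum_eq_Icc (a := 1) (b := ((2 * M + 2 * d : ℕ) : ℤ))]
      · refine le_trans (le_of_eq ?_) (hC1 (2 * M + 2 * d))
        refine Finset.sum_congr rfl fun g hg => ?_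
        rw [Finset.mem_Icc] at hg
        simp only [hu]
        rw [if_pos]
        push_cast at hg
        exact hg
      · intro g hg
        simp only [hu]
        rw [if_neg]
        push_cast at hg
        omega
    set W : ℤ → ℝ := fun g => if 1 - (d : ℤ) ≤ g ∧ g ≤ 1 + d then 1 else 0 with hW
    have hW0 : ∀ g, 0 ≤ W g := by
      intro g; simp only [hW]; split_ifs <;> norm_num
    have hWf : (Function.support W).Finite := by
      refine fin_of_Icc (a := 1 - (d : ℤ)) (b := 1 + d) fun g hg => ?_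
      simp only [hW]
      rw [if_neg]; omega
    have hWsum : ∑' g, W g = 2 * d + 1 := by
      rw [tsum_eq_Icc (a := 1 - (d : ℤ)) (b := 1 + d)]
      · have : ∀ g ∈ Icc (1 - (d : ℤ)) (1 + d), W g = 1 := by
          intro g hg
          rw [Finset.mem_Icc] at hg
          simp only [hW]
          rw [if_pos hg]
        rw [Finset.sum_congr rfl this, Finset.sum_const, Int.card_Icc, nsmul_eq_mul, mul_one]
        have : (1 + (d : ℤ) + 1 - (1 - d)).toNat = 2 * d + 1 := by omega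
        rw [this]; push_cast; ring
      · intro g hg
        simp only [hW]
        rw [if_neg]; omega
    have hpt : ∀ g, -((d : ℝ) ^ 2 * ((u g + u (g + j)) / 2)
        + (1 + (d : ℝ)) ^ 2 * B ^ 2 * W g) ≤ (z g - z (g + j)) ^ 2 * (y g * y (g + j)) := by
      intro g
      have hyy : |y g * y (g + j)| ≤ (y g ^ 2 + y (g + j) ^ 2) / 2 := by
        rw [abs_le]
        constructor <;> nlinarith [sq_nonneg (y g - y (g + j)), sq_nonneg (y g + y (g + j))]
      have hyB : |y g * y (g + j)| ≤ B ^ 2 := by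
        rw [abs_mul, sq]
        exact mul_le_mul (hB _) (hB _) (abs_nonneg _) hB0
      have hjj := abs_le.mp hj
      have n1 : 0 ≤ (d : ℝ) ^ 2 * ((u g + u (g + j)) / 2) := by
        have := hu0 g; have := hu0 (g + j); positivity
      have n2 : 0 ≤ (1 + (d : ℝ)) ^ 2 * B ^ 2 * W g := by
        have := hW0 g; positivity
      by_cases c1 : 1 ≤ g
      · by_cases c2 : 1 ≤ g + j
        · by_cases c3 : g ≤ 2 * M + d
          · have e1 : u g = y g ^ 2 := by
              simp only [hu]; rw [if_pos]; omega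
            have e2 : u (g + j) = y (g + j) ^ 2 := by
              simp only [hu]; rw [if_pos]; omega
            have h1 := hlip g j c1 c2 hj
            rw [e1, e2]
            have h2 := (abs_le.mp hyy).1
            have h3 : 0 ≤ (y g ^ 2 + y (g + j) ^ 2) / 2 := by positivity
            have h4 := mul_le_mul_of_nonneg_right h1 h3
            have h5 := mul_le_mul_of_nonneg_left h2 (sq_nonneg (z g - z (g + j)))
            linarith
          · rw [hzM g (by omega), hzM (g + j) (by omega)]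
            have : ((0 : ℝ) - 0) ^ 2 * (y g * y (g + j)) = 0 := by ring
            rw [this]
            linarith
        · rw [hz0 (g + j) (by omega)]
          have h1 := hzsmall g c1 (by omega)
          have e : W g = 1 := by simp only [hW]; rw [if_pos]; omega
          rw [e]
          have h2 : (z g - 0) ^ 2 ≤ (1 + (d : ℝ)) ^ 2 := by
            rw [sub_zero]; exact pow_le_pow_left₀ h1.1 h1.2 2
          have h3 := (abs_le.mp hyB).1
          have h4 := mul_le_mul_of_nonneg_right h2 (sq_nonneg B)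
          have h5 := mul_le_mul_of_nonneg_left h3 (sq_nonneg (z g - 0))
          linarith
      · rw [hz0 g (by omega)]
        by_cases c2 : 1 ≤ g + j
        · have h1 := hzsmall (g + j) c2 (by omega)
          have e : W g = 1 := by simp only [hW]; rw [if_pos]; omega
          rw [e]
          have h2 : (0 - z (g + j)) ^ 2 ≤ (1 + (d : ℝ)) ^ 2 := by
            rw [zero_sub, neg_sq]; exact pow_le_pow_left₀ h1.1 h1.2 2
          have h3 := (abs_le.mp hyB).1
          have h4 := mul_le_mul_of_nonneg_right h2 (sq_nonneg B)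
          have h5 := mul_le_mul_of_nonneg_left h3 (sq_nonneg (0 - z (g + j)))
          linarith
        · rw [hz0 (g + j) (by omega)]
          have : ((0 : ℝ) - 0) ^ 2 * (y g * y (g + j)) = 0 := by ring
          rw [this]
          linarith
    have su : Summable u := sm huf
    have suj : Summable fun g => u (g + j) := by
      refine sm ((huf.preimage (f := fun g : ℤ => g + j)
        (by intro x _ y _ h; simpa using h)).subset ?_)
      intro g hg
      exact hg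
    have sW : Summable W := sm hWf
    have sR : Summable fun g => (z g - z (g + j)) ^ 2 * (y g * y (g + j)) := by
      refine sm (fin_of_Icc (a := 1 - d) (b := 2 * M + d) fun g hg => ?_)
      have hjj := abs_le.mp hj
      rcases hg with h | h
      · rw [hz0 g (by omega), hz0 (g + j) (by omega)]; ring
      · rw [hzM g (by omega), hzM (g + j) (by omega)]; ring
    have sL : Summable fun g => -((d : ℝ) ^ 2 * ((u g + u (g + j)) / 2)
        + (1 + (d : ℝ)) ^ 2 * B ^ 2 * W g) :=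
      ((((su.add suj).div_const 2).mul_left _).add (sW.mul_left _)).neg
    have hle := sL.tsum_le_tsum hpt sR
    refine le_trans ?_ hle
    rw [tsum_neg, Summable.tsum_add (((su.add suj).div_const 2).mul_left _) (sW.mul_left _),
      tsum_mul_left, tsum_mul_left, tsum_div_const, su.tsum_add suj, tsum_shift u j, hWsum]
    have hR2 : (0 : ℝ) ≤ (d : ℝ) ^ 2 := sq_nonneg _
    nlinarith [mul_le_mul_of_nonneg_left husum hR2]

/-- a weighted square summable sequence comes close to zero -/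
lemma close_of_sum {v : ℤ → ℝ} {A C1 δ : ℝ} (hδ : 0 < δ)
    (h : ∀ N : ℕ, ∑ g ∈ Icc (1 : ℤ) N, (g : ℝ) ^ 2 * (v g - A) ^ 2 ≤ C1) :
    ∃ g : ℤ, 1 ≤ g ∧ |v g - A| < δ := by
  by_contra hc
  push Not at hc
  obtain ⟨N, hN⟩ := exists_nat_gt (C1 / δ ^ 2)
  rw [div_lt_iff₀ (by positivity)] at hN
  have h2 : ∑ g ∈ Icc (1 : ℤ) N, δ ^ 2 ≤ ∑ g ∈ Icc (1 : ℤ) N, (g : ℝ) ^ 2 * (v g - A) ^ 2 := by
    refine Finset.sum_le_sum fun g hg => ?_
    rw [Finset.mem_Icc] at hg
    have h3 := hc g hg.1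
    have h4 : (1 : ℝ) ≤ g := by exact_mod_cast hg.1
    have h5 : δ ^ 2 ≤ (v g - A) ^ 2 := by
      rw [← sq_abs (v g - A)]
      exact pow_le_pow_left₀ hδ.le h3 2
    have h6 : (1 : ℝ) ≤ (g : ℝ) ^ 2 := one_le_pow₀ h4
    nlinarith [sq_nonneg (v g - A)]
  rw [Finset.sum_const, Int.card_Icc, nsmul_eq_mul] at h2
  have h3 : (((N : ℤ) + 1 - 1).toNat : ℝ) = N := by simp
  rw [h3] at h2
  linarith [h N]

end GVL

open GVL in
/-- MODULE GVL. -/
theorem gvl : GVL_Stmt := by
  intro C θ hC h0 h1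
  obtain ⟨a1, a2, a3, a4, a5⟩ := root_bounds h0 h1
  set φ := √(√θ) with hφ
  set W0 := C / (1 - √θ) with hW0
  have hW0n : 0 ≤ W0 := div_nonneg hC.le (by linarith)
  set q0 := C + C * W0 with hq0
  have hq0n : 0 ≤ q0 := by positivity
  have h1φ : 0 < 1 - φ := by linarith
  set Q1 := q0 / (1 - φ) ^ 2 with hQ1
  have hQ1n : 0 ≤ Q1 := by positivity
  have hs2 : Summable fun n : ℕ => (n : ℝ) ^ 2 * φ ^ n :=
    summable_pow_mul_geometric_of_norm_lt_one 2 (by rwa [Real.norm_of_nonneg a3.le])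
  set Z2 := ∑' n : ℕ, (n : ℝ) ^ 2 * φ ^ n with hZ2
  have hZ2n : 0 ≤ Z2 := tsum_nonneg fun n => by positivity
  set X := 2 * C * Q1 * Z2 with hX
  have hXn : 0 ≤ X := by positivity
  set P := P5 C θ with hP
  have hPn : 0 ≤ P := by
    rw [hP]; unfold P5
    exact mul_nonneg hW0n (tsum_nonneg fun n => by positivity)
  set C2 := C ^ 2 * (X + 3 * (2 * C) ^ 2 * P) with hC2
  have hC2n : 0 ≤ C2 := by positivity
  set C3 := C ^ 2 * (X + (P * C2 + 12 * (2 * C) ^ 2 * P) / 2) + 1 with hC3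
  refine ⟨C3, by positivity, ?_⟩
  intro G hG R' s v hs hv
  have hvabs : ∀ g, |v g| ≤ C := by
    intro g
    rw [abs_le]
    refine ⟨?_, hv.up g⟩
    rcases le_or_gt g 0 with h | h
    · rw [hv.zero g h]; linarith
    · have := hv.low g h
      have := inv_pos.2 hC
      linarith
  obtain ⟨hc1, hc2⟩ := rho_le_P5 hC h0 h1 hG
  have hc0 := c0_pos G
  have hPb : ∀ g, |Phi G v g| ≤ c0 G * C := by
    intro g
    unfold Phi c0
    calc |∑ d ∈ Icc 1 G.R, kk G d * S d v g| ≤ ∑ d ∈ Icc 1 G.R, |kk G d * S d v g| :=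
          Finset.abs_sum_le_sum_abs _ _
      _ ≤ ∑ d ∈ Icc 1 G.R, kk G d * (d : ℝ) ^ 2 * C := by
          refine Finset.sum_le_sum fun d _ => ?_
          rw [abs_mul, abs_of_nonneg (kk_nonneg G _), mul_assoc]
          exact mul_le_mul_of_nonneg_left (S_abs_le d v C hvabs g) (kk_nonneg G _)
      _ = _ := by rw [← Finset.sum_mul]
  obtain ⟨L, hL, hLn⟩ := second_small (F := fun n : ℕ => Phi G v n) (B := c0 G * C) (Q := q0)
    (φ := φ) a3 a4 (fun n => hPb n) (by
      intro n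
      have e := Phi_second G v ((n : ℤ) + 1)
      have e2 : (n : ℤ) + 1 - 1 = n := by ring
      have e3 : (n : ℤ) + 1 + 1 = ((n + 2 : ℕ) : ℤ) := by push_cast; ring
      have e4 : (n : ℤ) + 1 = ((n + 1 : ℕ) : ℤ) := by push_cast; ring
      rw [e2, e3] at e
      have h2 := defect hC h0 h1 hG hs hv (n + 1) (by omega)
      rw [e4] at e
      show |Phi G v ((n + 2 : ℕ) : ℤ) + Phi G v (n : ℤ) - 2 * Phi G v ((n + 1 : ℕ) : ℤ)| ≤ q0 * φ ^ n
      rw [e]
      refine h2.trans ?_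
      have h3 : φ ^ (n + 1) ≤ φ ^ n := pow_le_pow_of_le_one a3.le a4.le (Nat.le_succ n)
      exact mul_le_mul_of_nonneg_left h3 hq0n)
  set A : ℝ := L / c0 G with hA
  have hAabs : |A| ≤ C := by
    rw [hA, abs_div, abs_of_pos hc0, div_le_iff₀ hc0, mul_comm]
    exact hL
  set y : ℤ → ℝ := fun g => v g - A with hy
  have hyB : ∀ g, |y g| ≤ 2 * C := by
    intro g
    calc |v g - A| ≤ |v g| + |A| := abs_sub _ _
      _ ≤ 2 * C := by linarith [hvabs g]
  have hPy : ∀ n : ℕ, |Phi G y n| ≤ Q1 * φ ^ n := by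
    intro n
    have h1 : Phi G y n = Phi G v n - c0 G * A := by
      unfold Phi c0
      rw [Finset.sum_mul, ← Finset.sum_sub_distrib]
      refine Finset.sum_congr rfl fun d _ => ?_
      have := S_sub d v (fun _ => A) n
      rw [S_const] at this
      rw [hy, this]
      ring
    have h2 : c0 G * A = L := by rw [hA]; field_simp
    rw [h1, h2]
    exact hLn n
  have hXs : ∀ n : ℕ, ∑ g ∈ Icc (1 : ℤ) n, (g : ℝ) ^ 2 * |y g * Phi G y g| ≤ X := by
    intro n
    have e : ∑ g ∈ Icc (1 : ℤ) n, (g : ℝ) ^ 2 * |y g * Phi G y g|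
        = ∑ k ∈ Icc 1 n, ((k : ℤ) : ℝ) ^ 2 * |y k * Phi G y k| := by
      have : Icc (1 : ℤ) n = (Icc 1 n).map Nat.castEmbedding := by
        ext x
        simp only [Finset.mem_Icc, Finset.mem_map, Nat.castEmbedding_apply]
        constructor
        · rintro ⟨h1, h2⟩
          exact ⟨x.toNat, by omega, by omega⟩
        · rintro ⟨k, ⟨h1, h2⟩, rfl⟩
          omega
      rw [this, Finset.sum_map]
      rfl
    rw [e]
    calc ∑ k ∈ Icc 1 n, ((k : ℤ) : ℝ) ^ 2 * |y k * Phi G y k|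
        ≤ ∑ k ∈ Icc 1 n, 2 * C * Q1 * ((k : ℝ) ^ 2 * φ ^ k) := by
          refine Finset.sum_le_sum fun k _ => ?_
          rw [abs_mul, Int.cast_natCast]
          calc (k : ℝ) ^ 2 * (|y k| * |Phi G y k|) ≤ (k : ℝ) ^ 2 * ((2 * C) * (Q1 * φ ^ k)) :=
                mul_le_mul_of_nonneg_left (mul_le_mul (hyB k) (hPy k) (abs_nonneg _)
                  (by positivity)) (by positivity)
            _ = _ := by ring
      _ = 2 * C * Q1 * ∑ k ∈ Icc 1 n, ((k : ℝ) ^ 2 * φ ^ k) := by rw [Finset.mul_sum]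
      _ ≤ 2 * C * Q1 * Z2 :=
          mul_le_mul_of_nonneg_left (hs2.sum_le_tsum _ fun _ _ => by positivity) (by positivity)
  have hPm : ∀ p ≤ 5, ∑ d ∈ Icc 1 G.R, kk G d * (d : ℝ) ^ p ≤ P :=
    fun p hp => moment hC h0 h1 hG p hp
  have hdiv : ∀ {a b : ℝ}, 0 ≤ a → G.rho ^ 2 * a ≤ b → a ≤ C ^ 2 * b := by
    intro a b ha hab
    have h2 := mul_le_mul_of_nonneg_right (pow_le_pow_left₀ (inv_pos.2 hC).le hG.rho_ge 2) ha
    calc a = C ^ 2 * (C⁻¹ ^ 2 * a) := by field_simp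
      _ ≤ C ^ 2 * b := mul_le_mul_of_nonneg_left (h2.trans hab) (by positivity)
  have hs1 : ∀ M : ℕ, ∑ g ∈ Icc (1 : ℤ) M, y g ^ 2 ≤ C2 := by
    intro M
    refine hdiv (Finset.sum_nonneg fun g _ => sq_nonneg _) ?_
    refine step1 G y (2 * C) X hyB (fun n => ?_) M P hPm
    refine le_trans (Finset.sum_le_sum fun g hg => ?_) (hXs n)
    rw [Finset.mem_Icc] at hg
    have h4 : (1 : ℝ) ≤ g := by exact_mod_cast hg.1
    exact le_mul_of_one_le_left (abs_nonneg _) (one_le_pow₀ h4)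
  have hs3 : ∀ M : ℕ, ∑ g ∈ Icc (1 : ℤ) M, (g : ℝ) ^ 2 * (v g - A) ^ 2 ≤ C3 := by
    intro M
    have := hdiv (Finset.sum_nonneg fun g _ => by positivity)
      (step2 G y (2 * C) X hyB hXs C2 hs1 M P hPm)
    rw [hC3]
    linarith
  refine ⟨A, ?_, (abs_le.mp hAabs).2, hs3⟩
  by_contra hc
  push Not at hc
  obtain ⟨g, hg1, hg2⟩ := close_of_sum (sub_pos.2 hc) hs3
  have h2 := hv.low g hg1
  rw [abs_lt] at hg2
  linarith [hg2.2]

end Pool.Agent.KCG
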