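import Pool.Agent.KCG.Stmts0

set_option autoImplicit false

open Finset Filter Topology

namespace Pool.Agent.KCG.H62

open Pool.Agent.Gap

/-- finitely supported functions on the integers -/
def FS {α : Type*} [Zero α] (F : ℤ → α) : Prop := ∃ s : Finset ℤ, ∀ g, g ∉ s → F g = 0

section fs
variable {α : Type*} [Zero α]

lemma FS.shift {F : ℤ → α} (h : FS F) (d : ℤ) : FS (fun g => F (g + d)) := by
  classical
  obtain ⟨s, hs⟩ := h
  refine ⟨s.image (fun g => g - d), fun g hg => hs _ (fun hg' => hg ?_)⟩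
  exact Finset.mem_image.2 ⟨g + d, hg', by ring⟩

lemma FS.of_imp {β : Type*} [Zero β] {F : ℤ → α} {H : ℤ → β} (h : FS F)
    (hi : ∀ g, F g = 0 → H g = 0) : FS H := by
  obtain ⟨s, hs⟩ := h
  exact ⟨s, fun g hg => hi g (hs g hg)⟩

lemma FS.of_imp2 {β γ : Type*} [Zero β] [Zero γ] {F : ℤ → α} {F' : ℤ → γ} {H : ℤ → β}
    (h : FS F) (h' : FS F')
    (hi : ∀ g, F g = 0 → F' g = 0 → H g = 0) : FS H := by
  classical
  obtain ⟨s, hs⟩ := h
  obtain ⟨s', hs'⟩ := h'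
  refine ⟨s ∪ s', fun g hg => ?_⟩
  rw [Finset.mem_union, not_or] at hg
  exact hi g (hs g hg.1) (hs' g hg.2)

end fs

lemma FS.summable {β : Type*} [AddCommMonoid β] [TopologicalSpace β] {F : ℤ → β} (h : FS F) :
    Summable F := by
  obtain ⟨s, hs⟩ := h
  exact summable_of_ne_finset_zero hs

lemma tsum_shift {β : Type*} [AddCommMonoid β] [TopologicalSpace β] [T2Space β] (F : ℤ → β)
    (d : ℤ) : ∑' g, F (g + d) = ∑' g, F g :=
  (Equiv.addRight d).tsum_eq F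

lemma supp_fs {N : ℕ} {f : ℤ → ℂ} (hf : Supp N f) : FS f :=
  ⟨Icc 1 (N : ℤ), fun g hg => hf g (by rw [Finset.mem_Icc] at hg; omega)⟩

lemma tsum_supp {β : Type*} [AddCommMonoid β] [TopologicalSpace β] {N : ℕ} {f : ℤ → ℂ}
    (hf : Supp N f) (F : ℤ → β) (hF : ∀ g, f g = 0 → F g = 0) :
    ∑' g, F g = ∑ g ∈ Icc (1 : ℤ) N, F g :=
  tsum_eq_sum (fun g hg => hF g (hf g (by rw [Finset.mem_Icc] at hg; omega)))

lemma nsq_eq {N : ℕ} {f : ℤ → ℂ} (hf : Supp N f) : nsq N f = ∑' g, ‖f g‖ ^ 2 := by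
  unfold nsq
  rw [tsum_supp hf (fun g => ‖f g‖ ^ 2) (fun g h => by simp [h])]

lemma Pot_eq {N : ℕ} {f : ℤ → ℂ} (eps : ℝ) (hf : Supp N f) :
    Pot eps N f = ∑' g : ℤ, (1 - Real.exp (-(eps * (g : ℝ)))) * ‖f g‖ ^ 2 := by
  unfold Pot
  rw [tsum_supp hf (fun g : ℤ => (1 - Real.exp (-(eps * (g : ℝ)))) * ‖f g‖ ^ 2)
    (fun g h => by simp [h])]

lemma En_eq {N : ℕ} {f : ℤ → ℂ} (hf : Supp N f) :
    En N f = ∑' g : ℤ, ‖f (g + 1) - f g‖ ^ 2 := by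
  unfold En
  rw [tsum_eq_sum]
  intro g hg
  rw [Finset.mem_Icc] at hg
  rw [hf g (by omega), hf (g + 1) (by omega)]
  simp

/-- Cauchy-Schwarz for finitely supported functions -/
lemma cs {F H : ℤ → ℂ} (hF : FS F) (hH : FS H) :
    ‖∑' g, F g * H g‖ ≤ Real.sqrt (∑' g, ‖F g‖ ^ 2) * Real.sqrt (∑' g, ‖H g‖ ^ 2) := by
  classical
  obtain ⟨s, hs⟩ := hF
  obtain ⟨s', hs'⟩ := hH
  have h1 : ∀ g, g ∉ s ∪ s' → F g = 0 := fun g hg => hs g (fun h => hg (by simp [h]))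
  have h2 : ∀ g, g ∉ s ∪ s' → H g = 0 := fun g hg => hs' g (fun h => hg (by simp [h]))
  rw [tsum_eq_sum (s := s ∪ s') (fun g hg => by simp [h1 g hg]),
    tsum_eq_sum (f := fun g => ‖F g‖ ^ 2) (s := s ∪ s') (fun g hg => by simp [h1 g hg]),
    tsum_eq_sum (f := fun g => ‖H g‖ ^ 2) (s := s ∪ s') (fun g hg => by simp [h2 g hg])]
  refine (norm_sum_le _ _).trans ?_
  simp only [norm_mul]
  exact Real.sum_mul_le_sqrt_mul_sqrt _ _ _

/-- real version -/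
lemma csr {F H : ℤ → ℝ} (hF : FS F) (hH : FS H) :
    ∑' g, F g * H g ≤ Real.sqrt (∑' g, F g ^ 2) * Real.sqrt (∑' g, H g ^ 2) := by
  classical
  obtain ⟨s, hs⟩ := hF
  obtain ⟨s', hs'⟩ := hH
  have h1 : ∀ g, g ∉ s ∪ s' → F g = 0 := fun g hg => hs g (fun h => hg (by simp [h]))
  have h2 : ∀ g, g ∉ s ∪ s' → H g = 0 := fun g hg => hs' g (fun h => hg (by simp [h]))
  rw [tsum_eq_sum (s := s ∪ s') (fun g hg => by simp [h1 g hg]),
    tsum_eq_sum (f := fun g => F g ^ 2) (s := s ∪ s') (fun g hg => by simp [h1 g hg]),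
    tsum_eq_sum (f := fun g => H g ^ 2) (s := s ∪ s') (fun g hg => by simp [h2 g hg])]
  exact Real.sum_mul_le_sqrt_mul_sqrt _ _ _

lemma shift_diff_nat {f : ℤ → ℂ} (hf : FS f) (d : ℕ) :
    ∑' g : ℤ, ‖f (g + d) - f g‖ ^ 2 ≤ (d : ℝ) ^ 2 * ∑' g : ℤ, ‖f (g + 1) - f g‖ ^ 2 := by
  have hstep : FS (fun g : ℤ => ‖f (g + 1) - f g‖ ^ 2) :=
    (hf.shift 1).of_imp2 hf (fun g h1 h2 => by simp [h1, h2])
  have h1 : ∀ g : ℤ, ‖f (g + d) - f g‖ ^ 2
      ≤ (d : ℝ) * ∑ j ∈ range d, ‖f (g + j + 1) - f (g + j)‖ ^ 2 := by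
    intro g
    have htel : f (g + d) - f g = ∑ j ∈ range d, (f (g + j + 1) - f (g + j)) := by
      have := Finset.sum_range_sub (fun j : ℕ => f (g + j)) d
      simp only [Nat.cast_zero, add_zero] at this
      rw [← this]
      refine Finset.sum_congr rfl fun j _ => ?_
      rw [Nat.cast_succ, ← add_assoc]
    rw [htel]
    have h2 := norm_sum_le (range d) (fun j : ℕ => f (g + j + 1) - f (g + j))
    have h3 := sq_sum_le_card_mul_sum_sq (s := range d)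
      (f := fun j : ℕ => ‖f (g + j + 1) - f (g + j)‖)
    rw [Finset.card_range] at h3
    exact (pow_le_pow_left₀ (norm_nonneg _) h2 2).trans h3
  have hfs : ∀ j : ℕ, FS (fun g : ℤ => ‖f (g + j + 1) - f (g + j)‖ ^ 2) := by
    intro j
    have := hstep.shift (j : ℤ)
    exact this
  have hsumm : Summable (fun g : ℤ => (d : ℝ) *
      ∑ j ∈ range d, ‖f (g + j + 1) - f (g + j)‖ ^ 2) :=
    (summable_sum (fun j _ => (hfs j).summable)).mul_left _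
  have hsl : Summable (fun g : ℤ => ‖f (g + d) - f g‖ ^ 2) :=
    FS.summable ((hf.shift d).of_imp2 hf (fun g h1 h2 => by simp [h1, h2]))
  refine (hsl.tsum_le_tsum h1 hsumm).trans ?_
  rw [tsum_mul_left, Summable.tsum_finsetSum (fun j _ => (hfs j).summable)]
  have h4 : ∀ j ∈ range d, ∑' g : ℤ, ‖f (g + j + 1) - f (g + j)‖ ^ 2
      = ∑' g : ℤ, ‖f (g + 1) - f g‖ ^ 2 := fun j _ =>
    tsum_shift (fun g : ℤ => ‖f (g + 1) - f g‖ ^ 2) (j : ℤ)
  rw [Finset.sum_congr rfl h4, Finset.sum_const, Finset.card_range, nsmul_eq_mul, sq, mul_assoc]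

lemma shift_diff {f : ℤ → ℂ} (hf : FS f) (d : ℤ) :
    ∑' g : ℤ, ‖f g - f (g + d)‖ ^ 2 ≤ (d : ℝ) ^ 2 * ∑' g : ℤ, ‖f (g + 1) - f g‖ ^ 2 := by
  rcases le_total 0 d with hd | hd
  · obtain ⟨n, rfl⟩ := Int.eq_ofNat_of_zero_le hd
    have := shift_diff_nat hf n
    have e : ∀ g : ℤ, ‖f g - f (g + n)‖ = ‖f (g + n) - f g‖ := fun g => norm_sub_rev _ _
    simp only [e]
    exact_mod_cast this
  · obtain ⟨n, hn⟩ := Int.eq_ofNat_of_zero_le (neg_nonneg.2 hd)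
    have hd' : d = -(n : ℤ) := by omega
    subst hd'
    have h1 := tsum_shift (fun g : ℤ => ‖f g - f (g + -(n : ℤ))‖ ^ 2) (n : ℤ)
    have h2 : ∀ g : ℤ, f (g + n + -(n : ℤ)) = f g := by
      intro g
      congr 1
      ring
    simp only [h2] at h1
    rw [← h1]
    have := shift_diff_nat hf n
    push_cast
    rw [neg_sq]
    exact this

/-- values are controlled by the energy -/
lemma sq_le_En {N : ℕ} {f : ℤ → ℂ} (hf : Supp N f) (g : ℕ) :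
    ‖f g‖ ^ 2 ≤ (g : ℝ) * En N f := by
  have hfs := supp_fs hf
  have hstep : FS (fun k : ℤ => ‖f (k + 1) - f k‖ ^ 2) :=
    (hfs.shift 1).of_imp2 hfs (fun g h1 h2 => by simp [h1, h2])
  have htel : f g = ∑ j ∈ range g, (f ((j : ℤ) + 1) - f j) := by
    have := Finset.sum_range_sub (fun j : ℕ => f (j : ℤ)) g
    simp only [Nat.cast_zero] at this
    rw [hf 0 (by omega), sub_zero] at this
    rw [← this]
    refine Finset.sum_congr rfl fun j _ => ?_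
    rw [Nat.cast_succ]
  have h2 := norm_sum_le (range g) (fun j : ℕ => f ((j : ℤ) + 1) - f j)
  have h3 := sq_sum_le_card_mul_sum_sq (s := range g)
    (f := fun j : ℕ => ‖f ((j : ℤ) + 1) - f j‖)
  rw [Finset.card_range] at h3
  have h4 : ∑ j ∈ range g, ‖f ((j : ℤ) + 1) - f j‖ ^ 2 ≤ En N f := by
    rw [En_eq hf]
    have h5 := hstep.summable.sum_le_tsum ((range g).map Nat.castEmbedding)
      (fun _ _ => by positivity)
    rw [Finset.sum_map] at h5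
    exact h5
  calc ‖f g‖ ^ 2 = ‖∑ j ∈ range g, (f ((j : ℤ) + 1) - f j)‖ ^ 2 := by rw [← htel]
    _ ≤ (∑ j ∈ range g, ‖f ((j : ℤ) + 1) - f j‖) ^ 2 := pow_le_pow_left₀ (norm_nonneg _) h2 2
    _ ≤ (g : ℝ) * ∑ j ∈ range g, ‖f ((j : ℤ) + 1) - f j‖ ^ 2 := h3
    _ ≤ (g : ℝ) * En N f := mul_le_mul_of_nonneg_left h4 (Nat.cast_nonneg _)

lemma En_nonneg (N : ℕ) (f : ℤ → ℂ) : 0 ≤ En N f :=
  Finset.sum_nonneg fun _ _ => by positivity

lemma Pot_nonneg {eps : ℝ} (he : 0 ≤ eps) (N : ℕ) (f : ℤ → ℂ) : 0 ≤ Pot eps N f := by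
  apply Finset.sum_nonneg
  intro g hg
  rw [Finset.mem_Icc] at hg
  have hg1 : (0:ℝ) ≤ g := by exact_mod_cast (by omega : (0:ℤ) ≤ g)
  have : Real.exp (-(eps * (g : ℝ))) ≤ 1 := Real.exp_le_one_iff.2 (by nlinarith)
  have : 0 ≤ 1 - Real.exp (-(eps * (g : ℝ))) := by linarith
  positivity

lemma nsq_nonneg (N : ℕ) (f : ℤ → ℂ) : 0 ≤ nsq N f :=
  Finset.sum_nonneg fun _ _ => by positivity

end Pool.Agent.KCG.H62
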